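import Pool.Agent.FD29.BaseD

/-!
# Chains of subalgebras in a filtered deformation
-/

set_option autoImplicit false

namespace FD29

open Finset Module

variable {k A0 A : Type} [Field k] [CommRing A0] [IsDomain A0] [Algebra k A0] [Ring A]
  [Algebra k A] {F : ℕ → Submodule k A} {σ : ℕ → A → A0} {𝒜 : ℕ → Submodule k A0}
  [GradedAlgebra 𝒜]

/-- powers of an algebraically independent family -/
theorem algInd_pow {E : Type} [CommRing E] [Algebra k E] {ι : Type} {x : ι → E}
    (hx : AlgebraicIndependent k x) {Q : ℕ} (hQ : Q ≠ 0) :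
    AlgebraicIndependent k (fun i => x i ^ Q) := by
  have h1 := hx.polynomial_aeval_of_transcendental (f := fun _ => (Polynomial.X : Polynomial k) ^ Q)
    (fun _ => (Polynomial.transcendental_X k).pow (Nat.pos_of_ne_zero hQ))
  simpa using h1

theorem Defo.exists_std (d : Defo 𝒜 F σ) [Algebra.FiniteType k A0] {p : ℕ} [hp : Fact p.Prime]
    [CharP k p] (N : ℕ) (B : ℕ → Subalgebra k A) (hB0 : ∀ x ∈ B 0, ∀ y ∈ B 0, x * y = y * x)
    (hle : ∀ i < N, B i ≤ B (i + 1)) (hrk : ∀ i < N, rk F σ (B (i + 1)) ≤ rk F σ (B i) + 1)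
    (hBN : B N = ⊤)
    (halg : ∀ x ∈ 𝒜 0, IsAlgebraic (Algebra.adjoin k {y | ∃ b ∈ B 0, b ∈ F 0 ∧ y = σ 0 b}) x) :
    ∃ n, StdId A n := by
  classical
  have hf := d.filt
  obtain ⟨n, hn⟩ := d.exists_central (p := p)
  set Q := p ^ n with hQ
  have hQ0 : Q ≠ 0 := pow_ne_zero _ hp.out.ne_zero
  set S0 : Set A0 := {y | ∃ b ∈ B 0, b ∈ F 0 ∧ y = σ 0 b} with hS0
  set G0 := Algebra.adjoin k S0 with hG0
  set t : Set G0 := (fun g : G0 => (g : A0)) ⁻¹' S0 with ht
  have htop : Algebra.adjoin k t = ⊤ := Algebra.adjoin_adjoin_coe_preimage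
  haveI : Algebra.IsAlgebraic (Algebra.adjoin k t) G0 := by
    refine ⟨fun g => ?_⟩
    have hg : g ∈ Algebra.adjoin k t := by
      rw [htop]
      exact Algebra.mem_top
    exact isAlgebraic_algebraMap (⟨g, hg⟩ : Algebra.adjoin k t)
  obtain ⟨u, hut, hu⟩ := exists_isTranscendenceBasis_subset (R := k) t
  have hsel : ∀ i : u, ∃ b, b ∈ B 0 ∧ b ∈ F 0 ∧ ((i : G0) : A0) = σ 0 b := fun i => hut i.2
  choose b hbB hbF hbσ using hsel
  -- the powers form a transcendence basis
  have hfin : Algebra.trdeg k G0 < Cardinal.aleph0 := by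
    refine lt_of_le_of_lt ?_ (trdeg_lt_aleph0_of_finiteType (R := k) (S := A0))
    exact trdeg_le_of_injective G0.val Subtype.val_injective
  set y : u → G0 := fun i => (i : G0) ^ Q with hy
  have hyi : AlgebraicIndependent k y := algInd_pow hu.1 hQ0
  have hyb : IsTranscendenceBasis k y :=
    hyi.isTranscendenceBasis_of_trdeg_le hfin hu.cardinalMk_eq_trdeg.ge
  -- the central subring
  let Z := Subalgebra.center k A
  have hbc : ∀ i, b i ^ Q ∈ Z := fun i => by
    rw [Subalgebra.mem_center_iff]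
    intro a
    exact (hn (b i) (hbF i) a).symm
  let z : u → Z := fun i => ⟨b i ^ Q, hbc i⟩
  let iA : MvPolynomial u k →ₐ[k] A := Z.val.comp (MvPolynomial.aeval z)
  let i0 : MvPolynomial u k →ₐ[k] A0 := G0.val.comp (MvPolynomial.aeval y)
  have hiX : ∀ i, iA (MvPolynomial.X i) = b i ^ Q := fun i => by
    change ((MvPolynomial.aeval z (MvPolynomial.X i) : Z) : A) = _
    rw [MvPolynomial.aeval_X]
  have hi0X : ∀ i, i0 (MvPolynomial.X i) = σ 0 (b i) ^ Q := fun i => by
    change ((MvPolynomial.aeval y (MvPolynomial.X i) : G0) : A0) = _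
    rw [MvPolynomial.aeval_X, ← hbσ i]
    rfl
  have hpowF : ∀ (m : ℕ) (a : A), a ∈ F 0 → a ^ m ∈ F 0 ∧ σ 0 (a ^ m) = σ 0 a ^ m := by
    intro m a ha
    induction m with
    | zero =>
      rw [pow_zero, pow_zero]
      exact ⟨hf.one, hf.sym_one⟩
    | succ m ih =>
      have h1 := hf.mul _ _ _ _ ih.1 ha
      have h2 := hf.sym_mul _ _ _ _ ih.1 ha
      rw [add_zero] at h1 h2
      rw [pow_succ, pow_succ, ← ih.2]
      exact ⟨h1, h2⟩
  have hFB : ∀ r, iA r ∈ F 0 ∧ σ 0 (iA r) = i0 r ∧ iA r ∈ B 0 := by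
    intro r
    induction r using MvPolynomial.induction_on with
    | C c =>
      have e1 : iA (MvPolynomial.C c) = algebraMap k A c := iA.commutes c
      have e2 : i0 (MvPolynomial.C c) = algebraMap k A0 c := i0.commutes c
      rw [e1, e2, Algebra.algebraMap_eq_smul_one, Algebra.algebraMap_eq_smul_one,
        hf.smul _ _ _ hf.one, hf.sym_one]
      exact ⟨Submodule.smul_mem _ _ hf.one, rfl, Subalgebra.smul_mem _ (B 0).one_mem _⟩
    | add r s hr hs =>
      rw [map_add, map_add, hf.add _ _ _ hr.1 hs.1, hr.2.1, hs.2.1]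
      exact ⟨Submodule.add_mem _ hr.1 hs.1, rfl, (B 0).add_mem hr.2.2 hs.2.2⟩
    | mul_X r i hr =>
      have h0 := hpowF Q (b i) (hbF i)
      rw [map_mul, map_mul, hiX, hi0X]
      have h1 := hf.mul _ _ _ _ hr.1 h0.1
      have h2 := hf.sym_mul _ _ _ _ hr.1 h0.1
      rw [add_zero] at h1 h2
      exact ⟨h1, by rw [h2, hr.2.1, h0.2], (B 0).mul_mem hr.2.2 ((B 0).pow_mem (hbB i) _)⟩
  have hi0 : Function.Injective i0 :=
    fun r s hrs => hyi (Subtype.ext hrs)
  have hmonoB : ∀ i, i ≤ N → B 0 ≤ B i := by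
    intro i
    induction i with
    | zero => exact fun _ => le_rfl
    | succ i ih => exact fun hi => (ih (by omega)).trans (hle i (by omega))
  refine d.std_aux (p := p) iA i0 ?_ (fun r => (hFB r).1) (fun r => (hFB r).2.1) hi0 ?_ N
    (fun i => B (min i N)) ?_ ?_ ?_ ?_ ?_
  · intro r a
    exact (Subalgebra.mem_center_iff.1 (MvPolynomial.aeval z r).2 a).symm
  · intro x hx
    letI : Algebra (MvPolynomial u k) G0 := ((MvPolynomial.aeval y : MvPolynomial u k →ₐ[k] G0) :
      MvPolynomial u k →+* G0).toAlgebra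
    letI : Algebra (MvPolynomial u k) A0 := (i0 : MvPolynomial u k →+* A0).toAlgebra
    haveI : IsScalarTower (MvPolynomial u k) G0 A0 :=
      IsScalarTower.of_algebraMap_eq fun r => rfl
    haveI : Algebra.IsAlgebraic (MvPolynomial u k) G0 := by
      refine ⟨fun g => ?_⟩
      haveI := hyb.isAlgebraic
      have h1 : IsAlgebraic (Algebra.adjoin k (Set.range y)) g := Algebra.IsAlgebraic.isAlgebraic g
      exact (isAlgebraic_ringHom_iff_of_comp_eq hyi.aevalEquiv (RingHom.id G0)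
        Function.injective_id (RingHom.ext fun r => rfl)).1 h1
    obtain ⟨q, hq, hqx⟩ := (halg x hx).restrictScalars (MvPolynomial u k)
    exact ⟨q, hq, hqx⟩
  · intro i r
    exact hmonoB _ (min_le_right _ _) (hFB r).2.2
  · simpa using hB0
  · intro i
    rcases Nat.lt_or_ge i N with hi | hi
    · rw [min_eq_left hi.le, min_eq_left (by omega)]
      exact hle i hi
    · rw [min_eq_right hi, min_eq_right (by omega)]
  · intro i
    rcases Nat.lt_or_ge i N with hi | hi
    · rw [min_eq_left hi.le, min_eq_left (by omega)]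
      exact hrk i hi
    · rw [min_eq_right hi, min_eq_right (by omega)]
      exact self_le_add_right _ _
  · simpa using hBN

/-- one step above a commutative subalgebra -/
theorem Defo.std_of_comm (d : Defo 𝒜 F σ) [Algebra.FiniteType k A0] {p : ℕ} [hp : Fact p.Prime]
    [CharP k p] (C : Subalgebra k A) (hC : ∀ x ∈ C, ∀ y ∈ C, x * y = y * x)
    (hrk : Algebra.trdeg k A0 ≤ rk F σ C + 1) : ∃ n, StdId A n := by
  classical
  have hf := d.filt
  obtain ⟨n, hn⟩ := d.exists_central (p := p)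
  set Q := p ^ n with hQ
  have hQ0 : Q ≠ 0 := pow_ne_zero _ hp.out.ne_zero
  set S : Set A := (C : Set A) ∪ {z | ∃ f ∈ F 0, z = f ^ Q} with hS
  set B0 := Algebra.adjoin k S with hB0
  have hSc : ∀ x ∈ S, ∀ y ∈ S, x * y = y * x := by
    rintro x (hx | ⟨f, hf, rfl⟩) y (hy | ⟨g, hg, rfl⟩)
    · exact hC x hx y hy
    · exact (hn g hg x).symm
    · exact hn f hf y
    · exact hn f hf _
  letI : CommRing B0 := Algebra.adjoinCommRingOfComm k hSc
  have hB0c : ∀ x ∈ B0, ∀ y ∈ B0, x * y = y * x := by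
    intro x hx y hy
    exact congrArg Subtype.val (mul_comm (⟨x, hx⟩ : B0) ⟨y, hy⟩)
  have hCB : C ≤ B0 := fun x hx => Algebra.subset_adjoin (Or.inl hx)
  refine d.exists_std (p := p) 1 (fun i => if i = 0 then B0 else ⊤) (by simpa using hB0c)
    (by intro i hi; obtain rfl : i = 0 := by omega
        simp) ?_ (by simp) ?_
  · intro i hi
    obtain rfl : i = 0 := by omega
    simp only [zero_add, one_ne_zero, if_false, if_true]
    calc rk F σ ⊤ ≤ Algebra.trdeg k A0 := rk_le_trdeg _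
      _ ≤ rk F σ C + 1 := hrk
      _ ≤ rk F σ B0 + 1 := add_le_add_left (rk_mono hCB) 1
  · intro x hx
    obtain ⟨f, hfF, rfl⟩ := d.surj 0 x hx
    have hpowF : ∀ (m : ℕ) (a : A), a ∈ F 0 → a ^ m ∈ F 0 ∧ σ 0 (a ^ m) = σ 0 a ^ m := by
      intro m a ha
      induction m with
      | zero =>
        rw [pow_zero, pow_zero]
        exact ⟨hf.one, hf.sym_one⟩
      | succ m ih =>
        have h1 := hf.mul _ _ _ _ ih.1 ha
        have h2 := hf.sym_mul _ _ _ _ ih.1 ha
        rw [add_zero] at h1 h2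
        rw [pow_succ, pow_succ, ← ih.2]
        exact ⟨h1, h2⟩
    have h0 := hpowF Q f hfF
    have hmem : σ 0 f ^ Q ∈ Algebra.adjoin k {y | ∃ b ∈ B0, b ∈ F 0 ∧ y = σ 0 b} := by
      refine Algebra.subset_adjoin ⟨f ^ Q, Algebra.subset_adjoin (Or.inr ⟨f, hfF, rfl⟩), h0.1,
        h0.2.symm⟩
    refine ⟨Polynomial.X ^ Q - Polynomial.C ⟨_, hmem⟩, ?_, ?_⟩
    · exact Polynomial.X_pow_sub_C_ne_zero (Nat.pos_of_ne_zero hQ0) _
    · rw [map_sub, map_pow, Polynomial.aeval_X, Polynomial.aeval_C]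
      exact sub_self _

end FD29
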