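import Pool.Agent.FD29.Basic

/-!
# Dimension counts
-/

set_option autoImplicit false

namespace FD29

open Finset Module

section lin

variable {κ V W : Type} [Field κ] [AddCommGroup V] [Module κ V] [AddCommGroup W] [Module κ W]

/-- dimension of the image -/
theorem finrank_map_add_ker (T : V →ₗ[κ] W) (S : Submodule κ V) [FiniteDimensional κ S] :
    finrank κ (S.map T) + finrank κ ↥(S ⊓ LinearMap.ker T) = finrank κ S := by
  have h1 := LinearMap.finrank_range_add_finrank_ker (T.domRestrict S)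
  rw [LinearMap.range_domRestrict] at h1
  rw [← h1]
  congr 1
  have h2 : (LinearMap.ker (T.domRestrict S)).map S.subtype = S ⊓ LinearMap.ker T := by
    ext x
    constructor
    · rintro ⟨y, hy, rfl⟩
      exact ⟨y.2, hy⟩
    · rintro ⟨hx, hy⟩
      exact ⟨⟨x, hx⟩, hy, rfl⟩
  rw [← h2]
  exact Submodule.finrank_map_subtype_eq _ _

end lin

section arith

/-- the sum of the `p`-parts -/
theorem sum_ppart (p : ℕ) [hp : Fact p.Prime] (N : ℕ) :
    N * p ^ N ≤ p * ∑ i ∈ Finset.Icc 1 (p ^ N), p ^ padicValNat p i := by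
  have hp0 : 0 < p := hp.out.pos
  have hp2 : 2 ≤ p := hp.out.two_le
  induction N with
  | zero => simp
  | succ N ih =>
    have key : p * ∑ i ∈ Finset.Icc 1 (p ^ N), p ^ padicValNat p i + p ^ N ≤
        ∑ i ∈ Finset.Icc 1 (p ^ (N + 1)), p ^ padicValNat p i := by
      set A := (Finset.Icc 1 (p ^ N)).image (fun i => p * i) with hA
      have hAsub : A ⊆ Finset.Icc 1 (p ^ (N + 1)) := by
        intro x hx
        obtain ⟨i, hi, rfl⟩ := mem_image.1 hx
        rw [mem_Icc] at hi ⊢
        refine ⟨Nat.mul_pos hp0 hi.1, ?_⟩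
        rw [pow_succ']
        exact Nat.mul_le_mul_left _ hi.2
      have hinj : Set.InjOn (fun i => p * i) (Finset.Icc 1 (p ^ N) : Finset ℕ) :=
        fun x _ y _ hxy => Nat.eq_of_mul_eq_mul_left hp0 hxy
      rw [← Finset.sum_sdiff hAsub, add_comm]
      refine Nat.add_le_add ?_ ?_
      · have h1 : (Finset.Icc 1 (p ^ (N + 1)) \ A).card = p ^ (N + 1) - p ^ N := by
          rw [Finset.card_sdiff_of_subset hAsub, hA, Finset.card_image_of_injOn hinj]
          simp
        calc p ^ N ≤ p ^ (N + 1) - p ^ N := by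
              rw [pow_succ]
              have : p ^ N * 2 ≤ p ^ N * p := Nat.mul_le_mul_left _ hp2
              omega
          _ = ∑ i ∈ Finset.Icc 1 (p ^ (N + 1)) \ A, 1 := by rw [← h1]; simp
          _ ≤ _ := Finset.sum_le_sum fun i _ => Nat.one_le_pow _ _ hp0
      · rw [hA, Finset.sum_image hinj, Finset.mul_sum]
        refine le_of_eq (Finset.sum_congr rfl fun i hi => ?_)
        have hi0 : i ≠ 0 := by
          rw [mem_Icc] at hi
          omega
        rw [padicValNat.mul hp0.ne' hi0, padicValNat.self hp.out.one_lt, pow_add, pow_one]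
    calc (N + 1) * p ^ (N + 1) = p * (N * p ^ N + p ^ N) := by ring
      _ ≤ p * (p * ∑ i ∈ Finset.Icc 1 (p ^ N), p ^ padicValNat p i + p ^ N) := by gcongr
      _ ≤ _ := Nat.mul_le_mul_left _ key

/-- telescoping -/
theorem sum_shift_le (f : ℕ → ℕ) (hf : Monotone f) (e X : ℕ) :
    ∑ m ∈ range X, f (m + e) ≤ ∑ m ∈ range X, f m + e * f (X + e) := by
  induction e with
  | zero => simp
  | succ e ih =>
    have h1 : ∑ m ∈ range X, f (m + (e + 1)) ≤ ∑ m ∈ range X, f (m + e) + f (X + e) := by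
      have h2 := Finset.sum_range_succ' (fun m => f (m + e)) X
      have h3 := Finset.sum_range_succ (fun m => f (m + e)) X
      have h4 : ∑ m ∈ range X, f (m + (e + 1)) = ∑ m ∈ range X, f (m + 1 + e) :=
        Finset.sum_congr rfl fun m _ => by congr 1; ring
      rw [h4]
      have h6 : ∑ m ∈ range X, f (m + 1 + e) + f (0 + e) = ∑ m ∈ range X, f (m + e) + f (X + e) :=
        h2.symm.trans h3
      omega
    have h5 : f (X + e) ≤ f (X + (e + 1)) := hf (by omega)
    calc _ ≤ ∑ m ∈ range X, f (m + e) + f (X + e) := h1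
      _ ≤ ∑ m ∈ range X, f m + e * f (X + e) + f (X + e) := by gcongr
      _ ≤ ∑ m ∈ range X, f m + e * f (X + (e + 1)) + f (X + (e + 1)) := by gcongr
      _ = _ := by ring

end arith

variable {κ E A : Type} [Field κ] [CommRing E] [IsDomain E] [Algebra κ E] [Ring A] [Algebra κ A]
  {F : ℕ → Submodule κ A} {σ : ℕ → A → E}

namespace Filt

theorem coeff_zero' (h : Filt F σ) {ι : Type} (s : Finset ι) (b : ι → A) (e : ι → ℕ)
    (hb : ∀ j ∈ s, b j ∈ F (e j))
    (hli : LinearIndepOn κ (fun j => σ (e j) (b j)) (s : Set ι)) (c : ι → κ) (m : ℕ)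
    (hm : ∀ j ∈ s, m < e j) (hsum : ∑ j ∈ s, c j • b j ∈ F m) : ∀ j ∈ s, c j = 0 :=
  h.coeff_zero s b e hb c
    (fun t ht g hg => linearIndepOn_iff'.1 hli t g (by exact_mod_cast ht) hg) m hm hsum

theorem linearIndepOn (h : Filt F σ) {ι : Type} (s : Finset ι) (b : ι → A) (e : ι → ℕ)
    (hb : ∀ j ∈ s, b j ∈ F (e j))
    (hli : LinearIndepOn κ (fun j => σ (e j) (b j)) (s : Set ι)) (m : ℕ)
    (hm : ∀ j ∈ s, m < e j) : LinearIndepOn κ b (s : Set ι) := by
  rw [linearIndepOn_iff']
  intro t g ht h0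
  have ht' : t ⊆ s := by exact_mod_cast ht
  exact h.coeff_zero' t b e (fun j hj => hb j (ht' hj)) (hli.mono ht) g m
    (fun j hj => hm j (ht' hj)) (by rw [h0]; exact Submodule.zero_mem _)

theorem card_add_le (h : Filt F σ) (hfin : ∀ m, FiniteDimensional κ (F m)) (V : Submodule κ A)
    (m : ℕ) {ι : Type} (s : Finset ι) (b : ι → A) (e : ι → ℕ) (hb : ∀ j ∈ s, b j ∈ F (e j))
    (hli : LinearIndepOn κ (fun j => σ (e j) (b j)) (s : Set ι)) (hm : ∀ j ∈ s, m < e j) :
    finrank κ ↥(V ⊓ F m) + s.card ≤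
      finrank κ ↥((V ⊓ F m) ⊔ Submodule.span κ (b '' (s : Set ι))) := by
  classical
  haveI := hfin m
  haveI : FiniteDimensional κ ↥(V ⊓ F m) := Submodule.finiteDimensional_of_le inf_le_right
  have hLI := h.linearIndepOn s b e hb hli m hm
  have hfs : FiniteDimensional κ ↥(Submodule.span κ (b '' (s : Set ι))) :=
    FiniteDimensional.span_of_finite κ (s.finite_toSet.image b)
  have hcard : finrank κ ↥(Submodule.span κ (b '' (s : Set ι))) = s.card := by
    have h1 := finrank_span_eq_card (R := κ) (b := fun j : (s : Set ι) => b j) hLI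
    have h2 : Set.range (fun j : (s : Set ι) => b j) = b '' (s : Set ι) := by
      ext y
      simp
    rw [h2] at h1
    rw [h1]
    simp
  have hdis : (V ⊓ F m) ⊓ Submodule.span κ (b '' (s : Set ι)) = ⊥ := by
    rw [eq_bot_iff]
    rintro x ⟨hx1, hx2⟩
    rw [SetLike.mem_coe, Submodule.mem_span_image_finset_iff_exists_fun] at hx2
    obtain ⟨c', hc'⟩ := hx2
    obtain ⟨c, hc⟩ : ∃ c : ι → κ, ∑ j ∈ s, c j • b j = x := by
      refine ⟨fun j => if hj : j ∈ s then c' ⟨j, hj⟩ else 0, ?_⟩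
      rw [← hc', ← Finset.sum_coe_sort s]
      refine Finset.sum_congr rfl fun j _ => ?_
      simp
    have hx3 : ∑ j ∈ s, c j • b j ∈ F m := by
      rw [hc]
      exact hx1.2
    have h0 := h.coeff_zero' s b e hb hli c m hm hx3
    rw [Submodule.mem_bot, ← hc]
    exact Finset.sum_eq_zero fun j hj => by rw [h0 j hj, zero_smul]
  have h3 := Submodule.finrank_sup_add_finrank_inf_eq (V ⊓ F m)
    (Submodule.span κ (b '' (s : Set ι)))
  rw [hdis, finrank_bot, add_zero, hcard] at h3
  exact h3.ge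

end Filt

end FD29
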