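import Pool.Agent.FD29.Main

/-!
# Elements with bounded iterated commutators are algebraic over the centre
-/

set_option autoImplicit false

namespace FD29

open Finset Module

variable {κ E A : Type} [Field κ] [CommRing E] [IsDomain E] [Algebra κ E] [Ring A] [Algebra κ A]
  {F : ℕ → Submodule κ A} {σ : ℕ → A → E}

/-- the inner derivation -/
noncomputable def del (κ : Type) {A : Type} [Field κ] [Ring A] [Algebra κ A] (a : A) :
    Module.End κ A := LinearMap.mulLeft κ a - LinearMap.mulRight κ a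

theorem del_apply (a x : A) : del κ a x = a * x - x * a := rfl

theorem del_iter (a : A) (j : ℕ) (x : A) :
    (del κ a ^ j) x = (fun z => a * z - z * a)^[j] x := by
  rw [Module.End.pow_apply]
  rfl

theorem del_pow {p : ℕ} [Fact p.Prime] [CharP κ p] (h1 : (1 : A) ≠ 0) (a : A) (n : ℕ) :
    del κ a ^ p ^ n = del κ (a ^ p ^ n) := by
  haveI : Nontrivial A := ⟨1, 0, h1⟩
  haveI : CharP (Module.End κ A) p :=
    charP_of_injective_algebraMap (algebraMap κ (Module.End κ A)).injective p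
  have hc : Commute (LinearMap.mulLeft κ a) (LinearMap.mulRight κ a) :=
    LinearMap.commute_mulLeft_right a a
  rw [del, sub_pow_char_pow_of_commute p n hc, LinearMap.pow_mulLeft, LinearMap.pow_mulRight]
  rfl

theorem exists_bound (h : Filt F σ) (hfin : ∀ m, FiniteDimensional κ (F m)) (D : ℕ) {a : A}
    (hb : ∀ x : A, ∃ l, ∀ j : ℕ, (fun z => a * z - z * a)^[j] x ∈ F l) :
    ∃ L, ∀ x ∈ F D, ∀ j, (del κ a ^ j) x ∈ F L := by
  classical
  obtain ⟨s, hs⟩ := (Module.Finite.iff_fg.1 (hfin D) : (F D).FG)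
  choose l hl using hb
  refine ⟨s.sup l, fun x hx j => ?_⟩
  have h1 : F D ≤ (F (s.sup l)).comap (del κ a ^ j) := by
    rw [← hs, Submodule.span_le]
    intro y hy
    change (del κ a ^ j) y ∈ F (s.sup l)
    rw [del_iter]
    exact h.mono (Finset.le_sup hy) (hl y j)
  exact h1 hx

theorem exists_rel {V W : Type} [AddCommGroup V] [Module κ V] [AddCommGroup W] [Module κ W]
    (S : Submodule κ V) (T : Submodule κ W) [FiniteDimensional κ S] [FiniteDimensional κ T]
    (φ : ℕ → V →ₗ[κ] W) (hφ : ∀ n, ∀ x ∈ S, φ n x ∈ T) :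
    ∃ (t : Finset ℕ) (g : ℕ → κ) (n : ℕ), n ∈ t ∧ (∀ j ∈ t, j ≤ n) ∧ g n = 1 ∧
      ∀ x ∈ S, ∑ j ∈ t, g j • φ j x = 0 := by
  classical
  let ψ : ℕ → (S →ₗ[κ] T) := fun n =>
    LinearMap.codRestrict T ((φ n).comp S.subtype) (fun x => hφ n x x.2)
  have hdep : ¬ LinearIndependent κ ψ := by
    intro hli
    exact not_finite_iff_infinite.2 (inferInstance : Infinite ℕ) hli.finite_of_isNoetherian
  obtain ⟨t, g, hsum, i, hi, hgi⟩ := not_linearIndependent_iff.1 hdep
  set t' := t.filter (fun j => g j ≠ 0) with ht'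
  have hne : t'.Nonempty := ⟨i, by rw [ht', mem_filter]; exact ⟨hi, hgi⟩⟩
  have hnt : t'.max' hne ∈ t' := Finset.max'_mem _ _
  have hgn : g (t'.max' hne) ≠ 0 := (Finset.mem_filter.1 hnt).2
  refine ⟨t', fun j => (g (t'.max' hne))⁻¹ * g j, t'.max' hne, hnt,
    fun j hj => Finset.le_max' _ _ hj, inv_mul_cancel₀ hgn, fun x hx => ?_⟩
  have h1 : ∑ j ∈ t, g j • φ j x = 0 := by
    have h3 := congrArg (fun f : S →ₗ[κ] T => ((f ⟨x, hx⟩ : T) : W)) hsum
    simpa [LinearMap.sum_apply, ψ] using h3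
  have h2 : ∑ j ∈ t', g j • φ j x = 0 := by
    rw [← h1, ht', Finset.sum_filter_of_ne]
    intro j _ hj hg
    rw [hg, zero_smul] at hj
    exact hj rfl
  have h4 : ∑ j ∈ t', ((g (t'.max' hne))⁻¹ * g j) • φ j x =
      (g (t'.max' hne))⁻¹ • ∑ j ∈ t', g j • φ j x := by
    rw [Finset.smul_sum]
    exact Finset.sum_congr rfl fun j _ => by rw [smul_smul]
  rw [h4, h2, smul_zero]

theorem Filt.exists_central_poly (h : Filt F σ) (hfin : ∀ m, FiniteDimensional κ (F m)) {p : ℕ}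
    [hp : Fact p.Prime] [CharP κ p] {D : ℕ} (hD : Algebra.adjoin κ (F D : Set A) = ⊤) {a : A}
    (hb : ∀ x : A, ∃ l, ∀ j : ℕ, (fun z => a * z - z * a)^[j] x ∈ F l) {e : ℕ}
    (ha : a ∈ F (e + 1)) :
    ∃ (n : ℕ) (z : A), (∀ x, z * x = x * z) ∧ z ∈ F (p ^ n * (e + 1)) ∧
      σ (p ^ n * (e + 1)) z = σ (e + 1) a ^ p ^ n := by
  classical
  obtain ⟨L, hL⟩ := exists_bound h hfin D hb
  haveI := hfin D
  haveI := hfin L
  obtain ⟨t, g, n, hnt, hmax, hgn, hrel⟩ := exists_rel (F D) (F L)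
    (fun n => del κ (a ^ p ^ n)) (fun n x hx => by
      rw [← del_pow (p := p) h.nz]
      exact hL x hx _)
  set z : A := ∑ j ∈ t, g j • a ^ p ^ j with hz
  have hmem : ∀ j ∈ t, g j • a ^ p ^ j ∈ F (p ^ n * (e + 1)) := fun j hj => by
    refine Submodule.smul_mem _ _ (h.mono (Nat.mul_le_mul_right _ ?_) (h.pow_mem ha (p ^ j)))
    exact Nat.pow_le_pow_right hp.out.pos (hmax j hj)
  have hcomm0 : ∀ x ∈ F D, z * x = x * z := by
    intro x hx
    rw [← sub_eq_zero, ← hrel x hx, hz, Finset.sum_mul, Finset.mul_sum, ← Finset.sum_sub_distrib]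
    refine Finset.sum_congr rfl fun j _ => ?_
    rw [del_apply, smul_sub, smul_mul_assoc, mul_smul_comm]
  refine ⟨n, z, ?_, ?_, ?_⟩
  · intro x
    have hx : x ∈ Algebra.adjoin κ (F D : Set A) := by
      rw [hD]
      exact Algebra.mem_top
    refine Algebra.adjoin_induction (p := fun x _ => z * x = x * z) (fun b hb => hcomm0 b hb)
      ?_ ?_ ?_ hx
    · exact fun c => (Algebra.commutes c _).symm
    · intro x y _ _ hx hy
      rw [mul_add, add_mul, hx, hy]
    · intro x y _ _ hx hy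
      rw [← mul_assoc, hx, mul_assoc, hy, mul_assoc]
  · exact Submodule.sum_mem _ hmem
  · rw [hz, h.sym_sum _ _ _ hmem, Finset.sum_eq_single_of_mem n hnt]
    · rw [hgn, one_smul, h.sym_pow ha]
    · intro j hj hjn
      have hlt : j < n := lt_of_le_of_ne (hmax j hj) hjn
      refine h.sym_of_lt ?_ (Submodule.smul_mem _ _ (h.pow_mem ha (p ^ j)))
      exact Nat.mul_lt_mul_of_pos_right (Nat.pow_lt_pow_right hp.out.one_lt hlt) (by omega)

end FD29
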