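import Pool.Agent.FD29.AdB

/-!
# Commutative subalgebras together with elements with bounded iterated commutators
-/

set_option autoImplicit false

namespace FD29

open Finset Module TensorProduct

section abstract

variable {k R κ A0 L A A' : Type} [Field k] [CommRing R] [IsDomain R] [Field κ] [CommRing A0]
  [IsDomain A0] [Algebra k A0] [Field L] [Algebra κ L] [Ring A] [Algebra k A] [Ring A']
  [Algebra κ A'] [Algebra A0 L]

variable {F : ℕ → Submodule k A} {σ : ℕ → A → A0} {iA : R →+* A} {i0 : R →+* A0}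
  {iκ : R →+* κ} {j : A →+* A'} {𝒜 : ℕ → Submodule k A0} [GradedAlgebra 𝒜]

namespace BC

theorem halg' (d : Defo 𝒜 F σ) (h : BC F σ iA i0 iκ j (algebraMap A0 L))
    [Algebra k κ] [Algebra k L] [IsScalarTower k κ L]
    [IsScalarTower k A0 L] [IsFractionRing A0 L] :
    Algebra.IsAlgebraic
      (Algebra.adjoin κ (symSet (h.F' d.filt) (σ' F σ i0 iκ j (algebraMap A0 L)) ⊤)) L := by
  have hf := d.filt
  have hall' : ∀ x : A0, algebraMap A0 L x ∈
      Algebra.adjoin κ (symSet (h.F' hf) (σ' F σ i0 iκ j (algebraMap A0 L)) ⊤) := by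
    intro x
    have h1 : x ∈ grB F σ (⊤ : Subalgebra k A) := by
      rw [grB, d.adjoin_sym]
      exact Algebra.mem_top
    have := h.mem_grB' hf (B := ⊤) (fun _ => Algebra.mem_top) h1
    rwa [h.locAlg_top _ _ rfl] at this
  refine ⟨fun x => ?_⟩
  obtain ⟨a, b, hb, rfl⟩ := IsFractionRing.div_surjective (A := A0) x
  have hb0 : algebraMap A0 L b ≠ 0 := fun h0 =>
    nonZeroDivisors.ne_zero hb (h.ℓ_inj (by rw [h0, map_zero]))
  refine ⟨Polynomial.C ⟨_, hall' b⟩ * Polynomial.X - Polynomial.C ⟨_, hall' a⟩, ?_, ?_⟩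
  · intro h0
    have h1 := congrArg (fun q => Polynomial.coeff q 1) h0
    simp only [Polynomial.coeff_sub, Polynomial.coeff_C_mul, Polynomial.coeff_X_one, mul_one,
      Polynomial.coeff_zero, Polynomial.coeff_C_succ, sub_zero] at h1
    exact hb0 (congrArg Subtype.val h1)
  · rw [map_sub, map_mul, Polynomial.aeval_X, Polynomial.aeval_C, Polynomial.aeval_C]
    change algebraMap A0 L b * (algebraMap A0 L a / algebraMap A0 L b) - algebraMap A0 L a = 0
    rw [mul_div_cancel₀ _ hb0, sub_self]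

/-- one step above a commutative subalgebra after base change -/
theorem std_one (d : Defo 𝒜 F σ) (h : BC F σ iA i0 iκ j (algebraMap A0 L))
    [Algebra.FiniteType k A0] [Algebra k κ] [Algebra k L] [IsScalarTower k κ L]
    [IsScalarTower k A0 L] [IsFractionRing A0 L] {p : ℕ} [hp : Fact p.Prime] [CharP k p]
    (halg0 : ∀ x ∈ 𝒜 0, IsAlgebraic κ (algebraMap A0 L x)) (B0 : Subalgebra κ A')
    (hB0 : ∀ x ∈ B0, ∀ y ∈ B0, x * y = y * x)
    (hrk : Algebra.trdeg κ L ≤
      rk (h.F' d.filt) (σ' F σ i0 iκ j (algebraMap A0 L)) B0 + 1) :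
    ∃ n, StdId A n := by
  have hf := d.filt
  have hf' := BC.filt hf h
  haveI : CharP κ p := charP_of_injective_algebraMap (algebraMap k κ).injective p
  obtain ⟨V, hV, hone, hFV⟩ := h.exists_V d halg0
  have hfin := finite_of_symbols hf' V hV hFV
  have e1 : Algebra.trdeg k κ + Algebra.trdeg κ L = Algebra.trdeg k A0 := by
    rw [trdeg_add_eq k κ (A := L), trdeg_frac (A0 := A0) (L := L)]
  have e2 : Algebra.trdeg k A0 < Cardinal.aleph0 := trdeg_lt_aleph0_of_finiteType
  have e3 : Algebra.trdeg κ L < Cardinal.aleph0 :=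
    lt_of_le_of_lt (by rw [← e1]; exact self_le_add_left _ _) e2
  obtain ⟨r, hr⟩ := Cardinal.lt_aleph0.1 e3
  obtain ⟨C₀, hgr⟩ := hf'.growth hfin (fun m y hy hs => BC.grad hf h (d.grad) m y hy hs) hr V hV
    hone hFV
  have halg := h.halg' d
  have hrkT : rk (h.F' hf) (σ' F σ i0 iκ j (algebraMap A0 L)) ⊤ = r := by
    have e4 := trdeg_add_eq κ
      (grB (h.F' hf) (σ' F σ i0 iκ j (algebraMap A0 L)) ⊤) (A := L)
    have e5 : Algebra.trdeg (grB (h.F' hf) (σ' F σ i0 iκ j (algebraMap A0 L)) ⊤) L = 0 :=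
      trdeg_eq_zero_iff.2 halg
    rw [e5, add_zero, hr] at e4
    exact e4
  have hchain := hf'.chain hfin (p := p) halg hr hgr 1 (fun i => if i = 0 then B0 else ⊤)
    (by simpa using hB0) (by intro i hi; obtain rfl : i = 0 := by omega
                             simp) (by
      intro i hi
      obtain rfl : i = 0 := by omega
      simp only [zero_add, one_ne_zero, if_false, if_true]
      rw [hrkT, ← hr]
      exact hrk) 1 le_rfl r (by simpa using hrkT)
  simp only [one_ne_zero, if_false] at hchain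
  obtain ⟨n, hn⟩ := hf'.std_of_commFam hfin hgr hchain
  exact ⟨n, hn.of_injective j h.j_inj⟩

end BC

end abstract

end FD29
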