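import Pool.Agent.FD29.AdC

/-!
# Bounded elements after base change
-/

set_option autoImplicit false

namespace FD29

open Finset Module

variable {k R κ A0 L A A' : Type} [Field k] [CommRing R] [IsDomain R] [Field κ] [CommRing A0]
  [IsDomain A0] [Algebra k A0] [Field L] [Algebra κ L] [Ring A] [Algebra k A] [Ring A']
  [Algebra κ A'] [Algebra A0 L]

variable {F : ℕ → Submodule k A} {σ : ℕ → A → A0} {iA : R →+* A} {i0 : R →+* A0}
  {iκ : R →+* κ} {j : A →+* A'} {𝒜 : ℕ → Submodule k A0} [GradedAlgebra 𝒜]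

/-- bounded iterated commutators -/
def Bdd (F : ℕ → Submodule k A) (a : A) : Prop :=
  ∀ x : A, ∃ l, ∀ i : ℕ, (fun z => a * z - z * a)^[i] x ∈ F l

/-- symbols of the elements of `C` and of the bounded elements -/
def bddSet (F : ℕ → Submodule k A) (σ : ℕ → A → A0) (C : Subalgebra k A) : Set A0 :=
  {y | ∃ m, ∃ a, a ∈ F m ∧ (a ∈ C ∨ Bdd F a) ∧ y = σ m a}

namespace BC

variable (h : BC F σ iA i0 iκ j (algebraMap A0 L))

include h

theorem bdd_j (hf : Filt F σ) {a : A} (ha : Bdd F a) (y : A') :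
    ∃ l, ∀ i : ℕ, (fun z => j a * z - z * j a)^[i] y ∈ h.F' hf l := by
  obtain ⟨r, hr, x, hx⟩ := h.surj y
  obtain ⟨l, hl⟩ := ha x
  refine ⟨l, fun i => ⟨r, hr, _, hl i, ?_⟩⟩
  rw [← del_iter (κ := κ), ← map_smul, hx, del_iter]
  have hs : Function.Semiconj j (fun z => a * z - z * a) (fun z => j a * z - z * j a) := by
    intro z
    simp only
    rw [map_sub, map_mul, map_mul]
  exact ((hs.iterate_right i) x).symm

theorem gen' (hf : Filt F σ) {D : ℕ} (hD : Algebra.adjoin k (F D : Set A) = ⊤) :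
    Algebra.adjoin κ (h.F' hf D : Set A') = ⊤ := by
  have h1 : ∀ a : A, j a ∈ Algebra.adjoin κ (h.F' hf D : Set A') := by
    intro a
    have ha : a ∈ Algebra.adjoin k (F D : Set A) := by
      rw [hD]
      exact Algebra.mem_top
    refine Algebra.adjoin_induction
      (p := fun a _ => j a ∈ Algebra.adjoin κ (h.F' hf D : Set A')) ?_ ?_ ?_ ?_ ha
    · exact fun b hb => Algebra.subset_adjoin (h.j_mem_F' hf hb)
    · intro c
      refine Algebra.subset_adjoin (h.j_mem_F' hf ?_)
      rw [Algebra.algebraMap_eq_smul_one]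
      exact Submodule.smul_mem _ _ (hf.mono (Nat.zero_le _) hf.one)
    · intro x y _ _ hx hy
      rw [map_add]
      exact Subalgebra.add_mem _ hx hy
    · intro x y _ _ hx hy
      rw [map_mul]
      exact Subalgebra.mul_mem _ hx hy
  rw [eq_top_iff]
  intro y _
  obtain ⟨r, hr, a, hy⟩ := h.surj y
  have h2 : y = (iκ r)⁻¹ • j a := by
    rw [← hy, smul_smul, inv_mul_cancel₀ (h.iκ_ne hr), one_smul]
  rw [h2]
  exact Subalgebra.smul_mem _ (h1 a) _

/-- the commutative subalgebra generated by `C` and the centre after base change -/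
theorem std_bdd (d : Defo 𝒜 F σ)
    [Algebra.FiniteType k A0] [Algebra k κ] [Algebra k L] [IsScalarTower k κ L]
    [IsScalarTower k A0 L] [IsFractionRing A0 L] {p : ℕ} [hp : Fact p.Prime] [CharP k p]
    (halg0 : ∀ x ∈ 𝒜 0, IsAlgebraic κ (algebraMap A0 L x)) (C : Subalgebra k A)
    (hC : ∀ x ∈ C, ∀ y ∈ C, x * y = y * x)
    (hrk : Algebra.trdeg k A0 ≤ Algebra.trdeg k (Algebra.adjoin k (bddSet F σ C)) + 1) :
    ∃ n, StdId A n := by
  classical
  have hf := d.filt
  have hf' := BC.filt hf h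
  haveI : CharP κ p := charP_of_injective_algebraMap (algebraMap k κ).injective p
  obtain ⟨V, hV, hone, hFV⟩ := h.exists_V d halg0
  have hfin := finite_of_symbols hf' V hV hFV
  obtain ⟨D, hD⟩ := d.exists_gen
  have hD' := h.gen' hf hD
  -- the commutative subalgebra
  set S : Set A' := (j '' (C : Set A)) ∪ {z | ∀ x, z * x = x * z} with hS
  set B0 := Algebra.adjoin κ S with hB0
  have hSc : ∀ x ∈ S, ∀ y ∈ S, x * y = y * x := by
    rintro _ (⟨x, hx, rfl⟩ | hx) _ (⟨y, hy, rfl⟩ | hy)
    · rw [← map_mul, hC x hx y hy, map_mul]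
    · exact (hy _).symm
    · exact hx _
    · exact hx _
  letI : CommRing B0 := Algebra.adjoinCommRingOfComm κ hSc
  have hB0c : ∀ x ∈ B0, ∀ y ∈ B0, x * y = y * x := by
    intro x hx y hy
    exact congrArg Subtype.val (mul_comm (⟨x, hx⟩ : B0) ⟨y, hy⟩)
  set G' := grB (h.F' hf) (σ' F σ i0 iκ j (algebraMap A0 L)) B0 with hG'
  -- the symbols are algebraic over `G'`
  have hY : ∀ y ∈ bddSet F σ C, IsAlgebraic G' (algebraMap A0 L y) := by
    rintro _ ⟨m, a, ham, ha | ha, rfl⟩
    · have h1 : algebraMap A0 L (σ m a) ∈ G' := by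
        rw [← h.σ'_j hf ham]
        exact sym_mem_grB (Algebra.subset_adjoin (Or.inl ⟨a, ha, rfl⟩)) (h.j_mem_F' hf ham)
      exact isAlgebraic_algebraMap (⟨_, h1⟩ : G')
    · rcases m with _ | e
      · exact (halg0 _ (d.mem 0 a ham)).extendScalars (algebraMap κ G').injective
      · obtain ⟨n, z, hzc, hzF, hzσ⟩ := hf'.exists_central_poly hfin (p := p) hD'
          (h.bdd_j hf ha) (h.j_mem_F' hf ham)
        have h1 : algebraMap A0 L (σ (e + 1) a) ^ p ^ n ∈ G' := by
          rw [← h.σ'_j hf ham, ← hzσ]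
          exact sym_mem_grB (Algebra.subset_adjoin (Or.inr hzc)) hzF
        refine ⟨Polynomial.X ^ p ^ n - Polynomial.C ⟨_, h1⟩, ?_, ?_⟩
        · exact Polynomial.X_pow_sub_C_ne_zero (Nat.pow_pos hp.out.pos) _
        · rw [map_sub, map_pow, Polynomial.aeval_X, Polynomial.aeval_C]
          exact sub_self _
  set M : Subalgebra G' L := Subalgebra.algebraicClosure G' L with hM
  set Gy := Algebra.adjoin k (bddSet F σ C) with hGy
  have hGyM : ∀ g ∈ Gy, algebraMap A0 L g ∈ M := by
    intro g hg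
    refine Algebra.adjoin_induction (p := fun g _ => algebraMap A0 L g ∈ M) ?_ ?_ ?_ ?_ hg
    · exact fun y hy => hY y hy
    · intro c
      rw [← IsScalarTower.algebraMap_apply k A0 L, IsScalarTower.algebraMap_apply k κ L,
        IsScalarTower.algebraMap_apply κ G' L]
      exact Subalgebra.algebraMap_mem M _
    · intro x y _ _ hx hy
      rw [map_add]
      exact Subalgebra.add_mem _ hx hy
    · intro x y _ _ hx hy
      rw [map_mul]
      exact Subalgebra.mul_mem _ hx hy
  let φ : Gy →ₐ[k] M :=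
    { toFun := fun g => ⟨algebraMap A0 L g, hGyM g g.2⟩
      map_one' := Subtype.ext (map_one (algebraMap A0 L))
      map_mul' := fun x y => Subtype.ext (map_mul (algebraMap A0 L) (x : A0) (y : A0))
      map_zero' := Subtype.ext (map_zero (algebraMap A0 L))
      map_add' := fun x y => Subtype.ext (map_add (algebraMap A0 L) (x : A0) (y : A0))
      commutes' := fun c => Subtype.ext (by
        change algebraMap A0 L (algebraMap k A0 c) = algebraMap k L c
        rw [← IsScalarTower.algebraMap_apply]) }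
  have hφ : Function.Injective φ := fun x y hxy => Subtype.ext (h.ℓ_inj (congrArg Subtype.val hxy))
  have e1 : Algebra.trdeg k Gy ≤ Algebra.trdeg k M := trdeg_le_of_injective φ hφ
  have e2 := trdeg_add_eq k G' (A := M)
  have e3 : Algebra.trdeg G' M = 0 := trdeg_eq_zero
  have e4 := trdeg_add_eq k κ (A := G')
  rw [e3, add_zero] at e2
  have e5 : Algebra.trdeg k κ + Algebra.trdeg κ L = Algebra.trdeg k A0 := by
    rw [trdeg_add_eq k κ (A := L), trdeg_frac (A0 := A0) (L := L)]
  have e6 : Algebra.trdeg k A0 < Cardinal.aleph0 := trdeg_lt_aleph0_of_finiteType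
  have e7 : Algebra.trdeg k κ < Cardinal.aleph0 :=
    lt_of_le_of_lt (by rw [← e5]; exact self_le_add_right _ _) e6
  refine h.std_one d (p := p) halg0 B0 hB0c ?_
  have e8 : Algebra.trdeg k κ + Algebra.trdeg κ L ≤
      Algebra.trdeg k κ + (Algebra.trdeg κ G' + 1) := by
    rw [e5, ← add_assoc, e4, e2]
    exact hrk.trans (add_le_add_left e1 1)
  rw [add_comm, add_comm (Algebra.trdeg k κ)] at e8
  exact (Cardinal.add_le_add_iff_of_lt_aleph0 e7).1 e8

end BC

end FD29
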