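import Pool.Agent.FD29.AdD

/-!
# The concrete base change once more, and the theorem on bounded elements
-/

set_option autoImplicit false

namespace FD29

open Finset Module TensorProduct

variable {k A0 A : Type} [Field k] [CommRing A0] [IsDomain A0] [Algebra k A0] [Ring A]
  [Algebra k A] {F : ℕ → Submodule k A} {σ : ℕ → A → A0} {𝒜 : ℕ → Submodule k A0}
  [GradedAlgebra 𝒜]

theorem Defo.bc_aux (d : Defo 𝒜 F σ) {R : Type} [CommRing R] [IsDomain R] [Algebra k R]
    (iA : R →ₐ[k] A)
    (i0 : R →ₐ[k] A0) (hcen : ∀ r a, iA r * a = a * iA r) (hmem : ∀ r, iA r ∈ F 0)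
    (hsym : ∀ r, σ 0 (iA r) = i0 r) (hi0 : Function.Injective i0)
    (halg0 : ∀ x ∈ 𝒜 0, ∃ q : Polynomial R, q ≠ 0 ∧ q.eval₂ (i0 : R →+* A0) x = 0)
    (P : Prop) (hP : ∀ (κ L A' : Type) [Field κ] [Field L] [Algebra κ L] [Ring A']
      [Algebra κ A'] [Algebra A0 L] [Algebra k κ] [Algebra k L] [IsScalarTower k κ L]
      [IsScalarTower k A0 L] [IsFractionRing A0 L] (iκ : R →+* κ) (j : A →+* A'),
      BC F σ (iA : R →+* A) (i0 : R →+* A0) iκ j (algebraMap A0 L) →
      (∀ x ∈ 𝒜 0, IsAlgebraic κ (algebraMap A0 L x)) → P) : P := by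
  letI : Algebra R A := (iA : R →+* A).toAlgebra' hcen
  have hinj : Function.Injective ((algebraMap A0 (FractionRing A0)).comp (i0 : R →+* A0)) := by
    intro x y hxy
    exact hi0 (IsFractionRing.injective A0 (FractionRing A0) hxy)
  letI : Algebra (FractionRing R) (FractionRing A0) :=
    (IsFractionRing.lift (A := R) (K := FractionRing R) (g := (algebraMap A0
      (FractionRing A0)).comp (i0 : R →+* A0)) hinj).toAlgebra
  have hcompat : ∀ r : R, algebraMap (FractionRing R) (FractionRing A0)
      (algebraMap R (FractionRing R) r) = algebraMap A0 (FractionRing A0) (i0 r) := fun r =>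
    IsFractionRing.lift_algebraMap hinj r
  haveI : IsScalarTower k (FractionRing R) (FractionRing A0) := by
    refine IsScalarTower.of_algebraMap_eq fun c => ?_
    rw [IsScalarTower.algebraMap_apply k R (FractionRing R), hcompat,
      IsScalarTower.algebraMap_apply k A0 (FractionRing A0)]
    congr 1
    exact (i0.commutes c).symm
  have hiA : ∀ r : R, ∀ a : A, iA r * a = 0 → r = 0 ∨ a = 0 := by
    intro r a hra
    haveI := d.filt.noZeroDivisors
    rcases mul_eq_zero.1 hra with h1 | h1
    · left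
      apply hi0
      rw [← hsym, h1, d.filt.sym_zero, map_zero]
    · right
      exact h1
  haveI hloc : IsLocalizedModule (nonZeroDivisors R) (TensorProduct.mk R (FractionRing R) A 1) :=
    (isLocalizedModule_iff_isBaseChange (nonZeroDivisors R) (FractionRing R) _).2
      (TensorProduct.isBaseChange R A (FractionRing R))
  have h : BC F σ (iA : R →+* A) (i0 : R →+* A0) (algebraMap R (FractionRing R))
      (Algebra.TensorProduct.includeRight : A →ₐ[R] FractionRing R ⊗[R] A).toRingHom
      (algebraMap A0 (FractionRing A0)) :=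
    { iκ_inj := IsFractionRing.injective R (FractionRing R)
      frac := by
        intro t
        obtain ⟨x, y, hy, rfl⟩ := IsFractionRing.div_surjective (A := R) t
        have hy0 := nonZeroDivisors.ne_zero hy
        refine ⟨x, y, hy0, ?_⟩
        have : algebraMap R (FractionRing R) y ≠ 0 := fun h0 =>
          hy0 (IsFractionRing.injective R (FractionRing R) (by rw [h0, map_zero]))
        rw [mul_div_cancel₀ _ this]
      j_inj := by
        change Function.Injective (TensorProduct.mk R (FractionRing R) A 1)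
        rw [← LinearMap.ker_eq_bot, LinearMap.ker_eq_bot']
        intro a ha
        rw [IsLocalizedModule.eq_zero_iff (nonZeroDivisors R)] at ha
        obtain ⟨c, hc⟩ := ha
        have hc' : iA (c : R) * a = 0 := hc
        rcases hiA _ _ hc' with h1 | h1
        · exact absurd h1 (nonZeroDivisors.ne_zero c.2)
        · exact h1
      j_iA := by
        intro r
        change (1 : FractionRing R) ⊗ₜ[R] (algebraMap R A r) =
          (algebraMap R (FractionRing R) r) ⊗ₜ[R] (1 : A)
        rw [Algebra.algebraMap_eq_smul_one, Algebra.algebraMap_eq_smul_one,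
          TensorProduct.smul_tmul]
      surj := by
        intro y
        obtain ⟨⟨a, s⟩, hs⟩ := IsLocalizedModule.surj (nonZeroDivisors R)
          (TensorProduct.mk R (FractionRing R) A 1) y
        refine ⟨s, nonZeroDivisors.ne_zero s.2, a, ?_⟩
        rw [algebraMap_smul]
        exact hs
      iA_mem := hmem
      iA_sym := hsym
      i0_inj := hi0
      ℓ_inj := IsFractionRing.injective A0 (FractionRing A0)
      compat := hcompat }
  refine hP (FractionRing R) (FractionRing A0) (FractionRing R ⊗[R] A) _ _ h ?_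
  intro x hx
  obtain ⟨q, hq, hqx⟩ := halg0 x hx
  refine ⟨q.map (algebraMap R (FractionRing R)),
    (Polynomial.map_ne_zero_iff (IsFractionRing.injective R (FractionRing R))).2 hq, ?_⟩
  rw [Polynomial.aeval_def, Polynomial.eval₂_map]
  have h1 : (algebraMap (FractionRing R) (FractionRing A0)).comp (algebraMap R (FractionRing R)) =
      (algebraMap A0 (FractionRing A0)).comp (i0 : R →+* A0) := RingHom.ext hcompat
  rw [h1, ← Polynomial.hom_eval₂, hqx, map_zero]

/-- commutative subalgebras together with bounded elements -/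
theorem Defo.std_bdd (d : Defo 𝒜 F σ) [Algebra.FiniteType k A0] {p : ℕ} [hp : Fact p.Prime]
    [CharP k p] (C : Subalgebra k A) (hC : ∀ x ∈ C, ∀ y ∈ C, x * y = y * x)
    (hrk : Algebra.trdeg k A0 ≤ Algebra.trdeg k (Algebra.adjoin k (bddSet F σ C)) + 1) :
    ∃ n, StdId A n := by
  classical
  have hf := d.filt
  obtain ⟨n, hn⟩ := d.exists_central (p := p)
  set Q := p ^ n with hQ
  have hQ0 : Q ≠ 0 := pow_ne_zero _ hp.out.ne_zero
  set S0 : Set A0 := {y | ∃ b, b ∈ F 0 ∧ y = σ 0 b} with hS0
  set G0 := Algebra.adjoin k S0 with hG0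
  set t : Set G0 := (fun g : G0 => (g : A0)) ⁻¹' S0 with ht
  have htop : Algebra.adjoin k t = ⊤ := Algebra.adjoin_adjoin_coe_preimage
  haveI : Algebra.IsAlgebraic (Algebra.adjoin k t) G0 := by
    refine ⟨fun g => ?_⟩
    have hg : g ∈ Algebra.adjoin k t := by
      rw [htop]
      exact Algebra.mem_top
    exact isAlgebraic_algebraMap (⟨g, hg⟩ : Algebra.adjoin k t)
  obtain ⟨u, hut, hu⟩ := exists_isTranscendenceBasis_subset (R := k) t
  have hsel : ∀ i : u, ∃ b, b ∈ F 0 ∧ ((i : G0) : A0) = σ 0 b := fun i => hut i.2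
  choose b hbF hbσ using hsel
  have hfin : Algebra.trdeg k G0 < Cardinal.aleph0 := by
    refine lt_of_le_of_lt ?_ (trdeg_lt_aleph0_of_finiteType (R := k) (S := A0))
    exact trdeg_le_of_injective G0.val Subtype.val_injective
  set y : u → G0 := fun i => (i : G0) ^ Q with hy
  have hyi : AlgebraicIndependent k y := algInd_pow hu.1 hQ0
  have hyb : IsTranscendenceBasis k y :=
    hyi.isTranscendenceBasis_of_trdeg_le hfin hu.cardinalMk_eq_trdeg.ge
  let Z := Subalgebra.center k A
  have hbc : ∀ i, b i ^ Q ∈ Z := fun i => by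
    rw [Subalgebra.mem_center_iff]
    intro a
    exact (hn (b i) (hbF i) a).symm
  let z : u → Z := fun i => ⟨b i ^ Q, hbc i⟩
  let iA : MvPolynomial u k →ₐ[k] A := Z.val.comp (MvPolynomial.aeval z)
  let i0 : MvPolynomial u k →ₐ[k] A0 := G0.val.comp (MvPolynomial.aeval y)
  have hiX : ∀ i, iA (MvPolynomial.X i) = b i ^ Q := fun i => by
    change ((MvPolynomial.aeval z (MvPolynomial.X i) : Z) : A) = _
    rw [MvPolynomial.aeval_X]
  have hi0X : ∀ i, i0 (MvPolynomial.X i) = σ 0 (b i) ^ Q := fun i => by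
    change ((MvPolynomial.aeval y (MvPolynomial.X i) : G0) : A0) = _
    rw [MvPolynomial.aeval_X, ← hbσ i]
    rfl
  have hFB : ∀ r, iA r ∈ F 0 ∧ σ 0 (iA r) = i0 r := by
    intro r
    induction r using MvPolynomial.induction_on with
    | C c =>
      have e1 : iA (MvPolynomial.C c) = algebraMap k A c := iA.commutes c
      have e2 : i0 (MvPolynomial.C c) = algebraMap k A0 c := i0.commutes c
      rw [e1, e2, Algebra.algebraMap_eq_smul_one, Algebra.algebraMap_eq_smul_one,
        hf.smul _ _ _ hf.one, hf.sym_one]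
      exact ⟨Submodule.smul_mem _ _ hf.one, rfl⟩
    | add r s hr hs =>
      rw [map_add, map_add, hf.add _ _ _ hr.1 hs.1, hr.2, hs.2]
      exact ⟨Submodule.add_mem _ hr.1 hs.1, rfl⟩
    | mul_X r i hr =>
      have h0 := hf.pow_mem (hbF i) Q
      have h0' := hf.sym_pow (hbF i) Q
      rw [mul_zero] at h0 h0'
      rw [map_mul, map_mul, hiX, hi0X]
      have h1 := hf.mul _ _ _ _ hr.1 h0
      have h2 := hf.sym_mul _ _ _ _ hr.1 h0
      rw [add_zero] at h1 h2
      exact ⟨h1, by rw [h2, hr.2, h0']⟩
  have hi0 : Function.Injective i0 :=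
    fun r s hrs => hyi (Subtype.ext hrs)
  refine d.bc_aux iA i0 ?_ (fun r => (hFB r).1) (fun r => (hFB r).2) hi0 ?_ _ ?_
  · intro r a
    exact (Subalgebra.mem_center_iff.1 (MvPolynomial.aeval z r).2 a).symm
  · intro x hx
    letI : Algebra (MvPolynomial u k) G0 := ((MvPolynomial.aeval y : MvPolynomial u k →ₐ[k] G0) :
      MvPolynomial u k →+* G0).toAlgebra
    haveI : Algebra.IsAlgebraic (MvPolynomial u k) G0 := by
      refine ⟨fun g => ?_⟩
      haveI := hyb.isAlgebraic
      have h1 : IsAlgebraic (Algebra.adjoin k (Set.range y)) g := Algebra.IsAlgebraic.isAlgebraic g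
      exact (isAlgebraic_ringHom_iff_of_comp_eq hyi.aevalEquiv (RingHom.id G0)
        Function.injective_id (RingHom.ext fun r => rfl)).1 h1
    obtain ⟨f, hfF, hfx⟩ := d.surj 0 x hx
    have hxG : x ∈ G0 := Algebra.subset_adjoin ⟨f, hfF, hfx.symm⟩
    obtain ⟨q, hq, hqx⟩ := Algebra.IsAlgebraic.isAlgebraic (R := MvPolynomial u k) (⟨x, hxG⟩ : G0)
    refine ⟨q, hq, ?_⟩
    have h1 := congrArg G0.val hqx
    rw [Polynomial.aeval_def, map_zero] at h1
    have h2 := Polynomial.hom_eval₂ q (algebraMap (MvPolynomial u k) G0) (G0.val : G0 →+* A0)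
      (⟨x, hxG⟩ : G0)
    exact (h2.symm.trans h1 : _)
  · intro κ L A' _ _ _ _ _ _ _ _ _ _ _ iκ j h halg0
    exact h.std_bdd d (p := p) halg0 C hC hrk

end FD29
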