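import Mathlib

/-!
# The standard identity
-/

set_option autoImplicit false

namespace FD29

open Finset Module

/-- the (reversed) standard polynomial of degree `n` vanishes on `A` -/
def StdId (A : Type) [Ring A] (n : ℕ) : Prop :=
  ∀ x : Fin n → A, ∑ π : Equiv.Perm (Fin n),
    ((Equiv.Perm.sign π : ℤ)) • (List.ofFn fun i => x (π i)).reverse.prod = 0

theorem std_end {K V : Type} [Field K] [AddCommGroup V] [Module K V] [FiniteDimensional K V]
    {n : ℕ} (hn : finrank K V ^ 2 < n) (T : Fin n → Module.End K V) :
    ∑ π : Equiv.Perm (Fin n), ((Equiv.Perm.sign π : ℤ)) • (List.ofFn fun i => T (π i)).prod = 0 := by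
  have h1 := MultilinearMap.alternatization_apply
    (MultilinearMap.mkPiAlgebraFin K n (Module.End K V)) T
  have h2 : (MultilinearMap.alternatization
      (MultilinearMap.mkPiAlgebraFin K n (Module.End K V))) T = 0 := by
    refine AlternatingMap.map_linearDependent _ _ fun hli => ?_
    have h3 := hli.fintype_card_le_finrank
    rw [Fintype.card_fin, Module.finrank_linearMap] at h3
    have : finrank K V * finrank K V = finrank K V ^ 2 := by ring
    omega
  rw [h2] at h1
  rw [h1]
  refine Finset.sum_congr rfl fun π _ => ?_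
  rw [MultilinearMap.domDomCongr_apply, MultilinearMap.mkPiAlgebraFin_apply]
  rfl

theorem std_of_hom {κ L A : Type} [Field κ] [CommRing L] [IsDomain L] [Algebra κ L] [Ring A]
    [Nontrivial A] [Algebra κ A] [NoZeroDivisors A] (φ : L →ₐ[κ] A) (hφ : Function.Injective φ)
    (R₀ : ℕ) (hrank : ∀ s : Finset A,
      (∀ g : A → L, ∑ a ∈ s, φ (g a) * a = 0 → ∀ a ∈ s, g a = 0) → s.card ≤ R₀) :
    StdId A (R₀ ^ 2 + 1) := by
  classical
  letI : Module L A := Module.compHom A φ.toRingHom
  have hsmul : ∀ (l : L) (a : A), l • a = φ l * a := fun l a => rfl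
  have hrk : Module.rank L A ≤ R₀ := by
    refine rank_le fun s hs => hrank s fun g hg a ha => ?_
    rw [linearIndependent_iff'] at hs
    have h1 := hs Finset.univ (fun i => g i) (by
      rw [← hg, ← Finset.sum_coe_sort s]
      rfl) ⟨a, ha⟩ (Finset.mem_univ _)
    exact h1
  let K := FractionRing L
  let V := TensorProduct L K A
  have hbc : Module.rank K V = Module.rank L A :=
    (TensorProduct.isBaseChange L A K).rank_eq
  haveI : FiniteDimensional K V := by
    refine Module.rank_lt_aleph0_iff.1 ?_
    rw [hbc]
    exact lt_of_le_of_lt hrk Cardinal.natCast_lt_aleph0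
  have hfr : finrank K V ≤ R₀ := by
    have h1 : (finrank K V : Cardinal) ≤ R₀ := by
      rw [Module.finrank_eq_rank, hbc]
      exact hrk
    exact_mod_cast h1
  -- right multiplications
  let Rm : A → Module.End L A := fun b =>
    { toFun := fun a => a * b
      map_add' := fun a a' => add_mul a a' b
      map_smul' := fun l a => by
        simp only [hsmul, RingHom.id_apply, mul_assoc] }
  have hRm : ∀ a b : A, Rm b a = a * b := fun a b => rfl
  have hlist : ∀ l : List A, (l.map Rm).prod = Rm l.reverse.prod := by
    intro l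
    induction l with
    | nil =>
      apply LinearMap.ext
      intro a
      simp [hRm]
    | cons b l ih =>
      apply LinearMap.ext
      intro a
      rw [List.map_cons, List.prod_cons, ih, List.reverse_cons, List.prod_append,
        List.prod_singleton, Module.End.mul_apply, hRm, hRm, hRm, mul_assoc]
  intro x
  set Y := ∑ π : Equiv.Perm (Fin (R₀ ^ 2 + 1)),
    ((Equiv.Perm.sign π : ℤ)) • (List.ofFn fun i => x (π i)).reverse.prod with hY
  have h1 := std_end (K := K) (V := V) (n := R₀ ^ 2 + 1)
    (by have := Nat.pow_le_pow_left hfr 2; omega)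
    (fun i => Module.End.baseChangeHom L K A (Rm (x i)))
  have h2 : ∀ π : Equiv.Perm (Fin (R₀ ^ 2 + 1)),
      (List.ofFn fun i => Module.End.baseChangeHom L K A (Rm (x (π i)))).prod =
      Module.End.baseChangeHom L K A (Rm (List.ofFn fun i => x (π i)).reverse.prod) := by
    intro π
    rw [← hlist, List.map_ofFn, map_list_prod, List.map_ofFn]
    rfl
  simp only [h2] at h1
  let v₀ : V := (TensorProduct.mk L K A 1) 1
  let ev : Module.End K V →+ V :=
    { toFun := fun T => T v₀
      map_zero' := rfl
      map_add' := fun _ _ => rfl }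
  have h3 := congrArg ev h1
  rw [map_sum, map_zero] at h3
  have h4 : ∀ (π : Equiv.Perm (Fin (R₀ ^ 2 + 1))),
      ev ((((Equiv.Perm.sign π : ℤ)) • (Module.End.baseChangeHom L K A
        (Rm (List.ofFn fun i => x (π i)).reverse.prod)) : Module.End K V)) =
      (TensorProduct.mk L K A 1)
        (((Equiv.Perm.sign π : ℤ)) • (List.ofFn fun i => x (π i)).reverse.prod) := by
    intro π
    have h5 : ev (Module.End.baseChangeHom L K A
        (Rm (List.ofFn fun i => x (π i)).reverse.prod)) =
        (TensorProduct.mk L K A 1) (List.ofFn fun i => x (π i)).reverse.prod := by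
      change (LinearMap.baseChange K (Rm (List.ofFn fun i => x (π i)).reverse.prod))
        ((1 : K) ⊗ₜ[L] (1 : A)) = _
      rw [LinearMap.baseChange_tmul, hRm, one_mul]
      rfl
    exact (map_zsmul ev _ _).trans ((congrArg (fun v : V => (Equiv.Perm.sign π : ℤ) • v) h5).trans
      (map_zsmul (TensorProduct.mk L K A 1) _ _).symm)
  simp only [h4] at h3
  rw [← map_sum, ← hY] at h3
  -- injectivity
  have h5 : (TensorProduct.mk L K A 1) Y = (TensorProduct.mk L K A 1) 0 := by
    rw [map_zero]
    exact h3
  obtain ⟨c, hc⟩ := (IsLocalizedModule.eq_iff_exists (nonZeroDivisors L)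
    (TensorProduct.mk L K A 1)).1 h5
  rw [smul_zero] at hc
  have hc' : φ (c : L) * Y = 0 := hc
  rcases mul_eq_zero.1 hc' with h6 | h6
  · exfalso
    have h7 : (c : L) = 0 := hφ (by rw [h6, map_zero])
    exact nonZeroDivisors.coe_ne_zero c h7
  · exact h6

/-- the standard polynomial is not zero -/
theorem std_poly_ne_zero (k : Type) [Field k] (n : ℕ) :
    (∑ π : Equiv.Perm (Fin n), ((Equiv.Perm.sign π : ℤ)) •
      (List.ofFn fun i => FreeAlgebra.ι k (π i)).reverse.prod : FreeAlgebra k (Fin n)) ≠ 0 := by
  classical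
  intro h0
  have h1 := congrArg (FreeAlgebra.equivMonoidAlgebraFreeMonoid (R := k) (X := Fin n)) h0
  rw [map_zero, map_sum] at h1
  have h2 : ∀ π : Equiv.Perm (Fin n),
      FreeAlgebra.equivMonoidAlgebraFreeMonoid (R := k) (X := Fin n)
        (((Equiv.Perm.sign π : ℤ)) • (List.ofFn fun i => FreeAlgebra.ι k (π i)).reverse.prod) =
      ((Equiv.Perm.sign π : ℤ)) •
        MonoidAlgebra.single (FreeMonoid.ofList (List.ofFn fun i => π i).reverse) (1 : k) := by
    intro π
    rw [map_zsmul]
    congr 1
    rw [map_list_prod, List.map_reverse, List.map_ofFn]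
    have h3 : ∀ l : List (Fin n), (l.map fun i => (MonoidAlgebra.single (FreeMonoid.of i) (1 : k) :
        MonoidAlgebra k (FreeMonoid (Fin n)))).prod =
        MonoidAlgebra.single (FreeMonoid.ofList l) 1 := by
      intro l
      induction l with
      | nil => rfl
      | cons a l ih =>
        rw [List.map_cons, List.prod_cons, ih, MonoidAlgebra.single_mul_single, one_mul]
        rfl
    rw [← h3, List.map_reverse, List.map_ofFn]
    congr 3
    funext i
    simp only [Function.comp_apply]
    simp [FreeAlgebra.equivMonoidAlgebraFreeMonoid]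
  simp only [h2] at h1
  let w₀ : FreeMonoid (Fin n) := FreeMonoid.ofList (List.ofFn fun i : Fin n => i).reverse
  let ψ : MonoidAlgebra k (FreeMonoid (Fin n)) →+ k :=
    (Finsupp.applyAddHom w₀).comp MonoidAlgebra.coeffAddEquiv.toAddMonoidHom
  have h3 := congrArg ψ h1
  rw [map_sum, map_zero, Finset.sum_eq_single (1 : Equiv.Perm (Fin n))] at h3
  · rw [map_zsmul] at h3
    have h4 : ψ (MonoidAlgebra.single (FreeMonoid.ofList
        (List.ofFn fun i => (1 : Equiv.Perm (Fin n)) i).reverse) (1 : k)) = 1 := by
      change (Finsupp.single _ (1 : k)) w₀ = 1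
      exact Finsupp.single_eq_same
    rw [h4] at h3
    simp at h3
  · intro π _ hπ
    rw [map_zsmul]
    have h4 : ψ (MonoidAlgebra.single (FreeMonoid.ofList
        (List.ofFn fun i => π i).reverse) (1 : k)) = 0 := by
      change (Finsupp.single _ (1 : k)) w₀ = 0
      refine Finsupp.single_eq_of_ne fun h => hπ ?_
      have h5 : (List.ofFn fun i => π i).reverse = (List.ofFn fun i : Fin n => i).reverse :=
        FreeMonoid.ofList.injective (by first | exact h | exact h.symm)
      have h6 := List.ofFn_injective (List.reverse_injective h5)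
      exact Equiv.ext fun i => congrFun h6 i
    rw [h4, smul_zero]
  · intro h
    exact absurd (Finset.mem_univ _) h

theorem exists_identity {k A : Type} [Field k] [Ring A] [Algebra k A] {n : ℕ} (h : StdId A n) :
    ∃ (n : ℕ) (f : FreeAlgebra k (Fin n)), f ≠ 0 ∧
        ∀ x : Fin n → A, FreeAlgebra.lift k x f = 0 := by
  refine ⟨n, _, std_poly_ne_zero k n, fun x => ?_⟩
  rw [map_sum, ← h x]
  refine Finset.sum_congr rfl fun π _ => ?_
  rw [map_zsmul, map_list_prod, List.map_reverse, List.map_ofFn]
  congr 4
  funext i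
  simp

end FD29
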