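import Pool.Agent.FD29.Chain
import Pool.Agent.FD29.Std

/-!
# A commuting family of full size gives the standard identity
-/

set_option autoImplicit false

namespace FD29

open Finset Module

variable {κ E A : Type} [Field κ] [CommRing E] [IsDomain E] [Algebra κ E] [Ring A] [Algebra κ A]
  {F : ℕ → Submodule κ A} {σ : ℕ → A → E}

namespace Filt

theorem linInd (h : Filt F σ) {ι : Type} (b : ι → A) (e : ι → ℕ) (hb : ∀ j, b j ∈ F (e j))
    (hli : LinearIndependent κ (fun j => σ (e j) (b j))) : LinearIndependent κ b := by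
  classical
  rw [linearIndependent_iff'] at hli ⊢
  intro s c hsum
  by_contra hcon
  push Not at hcon
  obtain ⟨j₀, hj₀, hc₀⟩ := hcon
  set s' := s.filter (fun j => c j ≠ 0) with hs'
  have hne : s'.Nonempty := ⟨j₀, by rw [hs', mem_filter]; exact ⟨hj₀, hc₀⟩⟩
  obtain ⟨j₁, hj₁, hmax⟩ := s'.exists_max_image e hne
  have h0 : ∑ j ∈ s', c j • b j = 0 := by
    rw [← hsum, hs', Finset.sum_filter_of_ne]
    intro j _ hj hz
    rw [hz, zero_smul] at hj
    exact hj rfl
  have hmem : ∀ j ∈ s', c j • b j ∈ F (e j₁) := fun j hj =>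
    Submodule.smul_mem _ _ (h.mono (hmax j hj) (hb j))
  have hsym := congrArg (σ (e j₁)) h0
  rw [h.sym_zero, h.sym_sum _ _ _ hmem] at hsym
  have h2 : ∑ j ∈ s'.filter (fun j => e j = e j₁), c j • σ (e j) (b j) = 0 := by
    rw [← hsym, Finset.sum_filter]
    refine Finset.sum_congr rfl fun j hj => ?_
    by_cases hje : e j = e j₁
    · rw [if_pos hje, ← hje, h.smul _ _ _ (hb j)]
    · rw [if_neg hje]
      exact (h.sym_of_lt (lt_of_le_of_ne (hmax j hj) hje) (Submodule.smul_mem _ _ (hb j))).symm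
  have h3 := hli _ c h2 j₁ (by rw [mem_filter]; exact ⟨hj₁, rfl⟩)
  rw [hs', mem_filter] at hj₁
  exact hj₁.2 h3

theorem std_of_commFam (h : Filt F σ) (hfin : ∀ m, FiniteDimensional κ (F m)) {r C₀ : ℕ}
    (hgr : ∀ m, finrank κ (F m) ≤ C₀ * (m + 1) ^ r) (hC : CommFam F σ ⊤ r) :
    ∃ n, StdId A n := by
  classical
  obtain ⟨w, dw, -, hwF, hcomm, hind⟩ := hC
  haveI : NoZeroDivisors A := h.noZeroDivisors
  haveI : Nontrivial A := ⟨⟨1, 0, h.nz⟩⟩
  letI : CommRing (Algebra.adjoin κ (Set.range w)) := Algebra.adjoinCommRingOfComm κ (by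
    rintro _ ⟨i, rfl⟩ _ ⟨j, rfl⟩
    exact (hcomm i j).eq)
  let ws : Fin r → Algebra.adjoin κ (Set.range w) := fun i =>
    ⟨w i, Algebra.subset_adjoin ⟨i, rfl⟩⟩
  let φ : MvPolynomial (Fin r) κ →ₐ[κ] A :=
    (Algebra.adjoin κ (Set.range w)).val.comp (MvPolynomial.aeval ws)
  have hφm : ∀ J : Fin r →₀ ℕ, φ (MvPolynomial.monomial J 1) = mon w J := by
    intro J
    change (Algebra.adjoin κ (Set.range w)).val (MvPolynomial.aeval ws
      (MvPolynomial.monomial J 1)) = _
    rw [MvPolynomial.aeval_monomial, map_one, one_mul, Finsupp.prod_fintype _ _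
      (fun i => pow_zero _), ← List.prod_ofFn, map_list_prod, List.map_ofFn, mon]
    rfl
  set D := ∑ i, dw i with hD
  have hli : LinearIndependent κ (fun J : Fin r → ℕ => mon w J) := by
    refine h.linInd _ (fun J => ∑ i, J i * dw i) (fun J => h.mon_mem w dw J hwF) ?_
    have := linearIndependent_monomials hind
    convert! this using 1
    ext J
    exact h.mon_sym w dw J hwF
  have hφ : Function.Injective φ := by
    rw [injective_iff_map_eq_zero]
    intro l hl
    have h1 : φ l = ∑ J ∈ l.support, l.coeff J • mon w J := by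
      conv_lhs => rw [l.as_sum]
      rw [map_sum]
      refine Finset.sum_congr rfl fun J _ => ?_
      rw [← hφm, ← map_smul, MvPolynomial.smul_monomial, smul_eq_mul, mul_one]
    rw [hl] at h1
    have h2 := hli.comp (fun J : Fin r →₀ ℕ => (J : Fin r → ℕ)) DFunLike.coe_injective
    rw [linearIndependent_iff'] at h2
    have h3 := h2 l.support (fun J => l.coeff J) h1.symm
    ext J
    by_cases hJ : J ∈ l.support
    · rw [h3 J hJ, MvPolynomial.coeff_zero]
    · rw [MvPolynomial.notMem_support_iff.1 hJ, MvPolynomial.coeff_zero]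
  refine ⟨_, std_of_hom φ hφ (C₀ * (D + 1) ^ r) fun s hs => ?_⟩
  -- all elements of `s` have degree at most `m₀`
  obtain ⟨m₀, hm₀⟩ : ∃ m₀, ∀ a ∈ s, a ∈ F m₀ := by
    choose deg hdeg using h.exh
    exact ⟨s.sup deg, fun a ha => h.mono (Finset.le_sup ha) (hdeg a)⟩
  set Q : Finset (Fin r → ℕ) := Fintype.piFinset fun _ => range (m₀ + 1) with hQ
  set M := m₀ * D + m₀ with hM
  haveI := hfin M
  have hmem : ∀ P : ↥(Q ×ˢ s), mon w P.1.1 * P.1.2 ∈ F M := by
    rintro ⟨⟨J, a⟩, hP⟩
    rw [mem_product] at hP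
    refine h.mono ?_ (h.mul _ _ _ _ (h.mon_mem w dw J hwF) (hm₀ a hP.2))
    refine Nat.add_le_add_right ?_ _
    rw [hD, Finset.mul_sum]
    refine Finset.sum_le_sum fun i _ => Nat.mul_le_mul_right _ ?_
    have hJ : ∀ j, J j ∈ range (m₀ + 1) := Fintype.mem_piFinset.1 hP.1
    have := mem_range.1 (hJ i)
    omega
  have hLI : LinearIndependent κ (fun P : ↥(Q ×ˢ s) => (⟨mon w P.1.1 * P.1.2, hmem P⟩ : F M)) := by
    refine LinearIndependent.of_comp (F M).subtype ?_
    rw [Fintype.linearIndependent_iff]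
    intro c hc
    set c' : (Fin r → ℕ) → A → κ := fun J a => if hP : (J, a) ∈ Q ×ˢ s then c ⟨(J, a), hP⟩ else 0
      with hc'
    set g : A → MvPolynomial (Fin r) κ := fun a =>
      ∑ J ∈ Q, MvPolynomial.monomial (Finsupp.equivFunOnFinite.symm J) (c' J a) with hg
    have h1 : ∑ a ∈ s, φ (g a) * a = 0 := by
      have h2 : ∑ P ∈ Q ×ˢ s, c' P.1 P.2 • (mon w P.1 * P.2) = 0 := by
        rw [← hc, ← Finset.sum_coe_sort (Q ×ˢ s)]
        refine Finset.sum_congr rfl fun P _ => ?_
        have h3 : c' P.1.1 P.1.2 = c P := by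
          rw [hc']
          simp
        rw [h3]
        rfl
      rw [← h2, Finset.sum_product_right]
      refine Finset.sum_congr rfl fun a _ => ?_
      rw [hg]
      simp only
      rw [map_sum, Finset.sum_mul]
      refine Finset.sum_congr rfl fun J _ => ?_
      have h3 : MvPolynomial.monomial (Finsupp.equivFunOnFinite.symm J) (c' J a) =
          c' J a • (MvPolynomial.monomial (Finsupp.equivFunOnFinite.symm J) (1 : κ) :
            MvPolynomial (Fin r) κ) := by
        rw [MvPolynomial.smul_monomial, smul_eq_mul, mul_one]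
      rw [h3, map_smul, hφm, smul_mul_assoc]
      rfl
    have h2 := hs g h1
    rintro ⟨⟨J, a⟩, hP⟩
    have hP' := mem_product.1 hP
    have h3 := congrArg (MvPolynomial.coeff (Finsupp.equivFunOnFinite.symm J)) (h2 a hP'.2)
    rw [hg] at h3
    simp only [MvPolynomial.coeff_sum, MvPolynomial.coeff_monomial,
      EmbeddingLike.apply_eq_iff_eq, MvPolynomial.coeff_zero] at h3
    rw [Finset.sum_ite_eq' Q J] at h3
    rw [if_pos hP'.1, hc'] at h3
    simp only [hP, dif_pos] at h3
    exact h3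
  have h1 := hLI.fintype_card_le_finrank
  rw [Fintype.card_coe, Finset.card_product, hQ, Fintype.card_piFinset_const, card_range] at h1
  have h2 := h1.trans (hgr M)
  have h3 : M + 1 ≤ (D + 1) * (m₀ + 1) := by
    have : (D + 1) * (m₀ + 1) = m₀ * D + m₀ + 1 + D := by ring
    omega
  have h4 : (m₀ + 1) ^ r * s.card ≤ (m₀ + 1) ^ r * (C₀ * (D + 1) ^ r) := by
    calc (m₀ + 1) ^ r * s.card ≤ C₀ * (M + 1) ^ r := h2
      _ ≤ C₀ * ((D + 1) * (m₀ + 1)) ^ r := by gcongr
      _ = _ := by rw [mul_pow]; ring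
  exact Nat.le_of_mul_le_mul_left h4 (by positivity)

end Filt

end FD29
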