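import Pool.Agent.FD29.Basic

/-!
# Generation in bounded degree
-/

set_option autoImplicit false

namespace FD29

open Finset Module

section graded

variable {k A0 : Type} [Field k] [CommRing A0] [Algebra k A0] (𝒜 : ℕ → Submodule k A0)
  [GradedAlgebra 𝒜]

theorem graded_induction (P : ℕ → Submodule k A0) (hone : (1 : A0) ∈ P 0)
    (hmul : ∀ i j x y, x ∈ P i → y ∈ P j → x * y ∈ P (i + j)) (S : Set A0)
    (hS : Algebra.adjoin k S = ⊤)
    (hgen : ∀ g ∈ S, ∀ i, (DirectSum.decompose 𝒜 g i : A0) ∈ P i) : ∀ i, 𝒜 i ≤ P i := by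
  classical
  have key : ∀ x : A0, ∀ i, (DirectSum.decompose 𝒜 x i : A0) ∈ P i := by
    intro x
    have hx : x ∈ Algebra.adjoin k S := by
      rw [hS]
      exact Algebra.mem_top
    refine Algebra.adjoin_induction
      (p := fun x _ => ∀ i, (DirectSum.decompose 𝒜 x i : A0) ∈ P i) ?_ ?_ ?_ ?_ hx
    · exact fun g hg i => hgen g hg i
    · intro c i
      have h0 : algebraMap k A0 c ∈ 𝒜 0 := SetLike.algebraMap_mem_graded 𝒜 c
      rcases Nat.eq_zero_or_pos i with rfl | hi
      · rw [DirectSum.decompose_of_mem_same 𝒜 h0, Algebra.algebraMap_eq_smul_one]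
        exact Submodule.smul_mem _ _ hone
      · rw [DirectSum.decompose_of_mem_ne 𝒜 h0 (by omega)]
        exact Submodule.zero_mem _
    · intro x y _ _ hx hy i
      rw [DirectSum.decompose_add, DirectSum.add_apply, Submodule.coe_add]
      exact Submodule.add_mem _ (hx i) (hy i)
    · intro x y _ _ hx hy i
      rw [DirectSum.decompose_mul, DirectSum.coe_mul_apply_eq_sum_antidiagonal]
      refine Submodule.sum_mem _ fun ij hij => ?_
      rw [HasAntidiagonal.mem_antidiagonal] at hij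
      rw [← hij]
      exact hmul _ _ _ _ (hx _) (hy _)
  intro i y hy
  have := key y i
  rwa [DirectSum.decompose_of_mem_same 𝒜 hy] at this

theorem exists_T [Algebra.FiniteType k A0] :
    ∃ T : Finset A0, ∀ i, 𝒜 i ≤ 𝒜 0 * (Submodule.span k (insert 1 (T : Set A0))) ^ i := by
  classical
  obtain ⟨S, hS⟩ := (Algebra.FiniteType.out : (⊤ : Subalgebra k A0).FG)
  set T : Finset A0 := S.biUnion fun g => (DirectSum.decompose 𝒜 g).support.image
    fun i => (DirectSum.decompose 𝒜 g i : A0) with hT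
  set V := Submodule.span k (insert 1 (T : Set A0)) with hV
  have h1 : (1 : A0) ∈ V := Submodule.subset_span (Set.mem_insert _ _)
  have h10 : (1 : A0) ∈ 𝒜 0 := SetLike.GradedOne.one_mem
  have hpow : ∀ i, (1 : A0) ∈ V ^ i := by
    intro i
    induction i with
    | zero =>
      rw [pow_zero]
      exact Submodule.one_le.1 le_rfl
    | succ i ih =>
      rw [pow_succ]
      have := Submodule.mul_mem_mul ih h1
      rwa [one_mul] at this
  have hVi : ∀ i, 1 ≤ i → V ≤ V ^ i := by
    intro i hi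
    obtain ⟨j, rfl⟩ : ∃ j, i = j + 1 := ⟨i - 1, by omega⟩
    intro x hx
    rw [pow_succ]
    have := Submodule.mul_mem_mul (hpow j) hx
    rwa [one_mul] at this
  refine ⟨T, graded_induction 𝒜 _ ?_ ?_ (S : Set A0) hS ?_⟩
  · have := Submodule.mul_mem_mul h10 (hpow 0)
    rwa [one_mul] at this
  · intro i j x y hx hy
    have h2 := Submodule.mul_mem_mul hx hy
    have h3 : 𝒜 0 * V ^ i * (𝒜 0 * V ^ j) = (𝒜 0 * 𝒜 0) * V ^ (i + j) := by
      rw [pow_add]
      ring
    rw [h3] at h2
    have h4 : 𝒜 0 * 𝒜 0 ≤ 𝒜 0 := by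
      rw [Submodule.mul_le]
      intro a ha b hb
      have := SetLike.GradedMul.mul_mem (A := 𝒜) ha hb
      rwa [add_zero] at this
    exact mul_le_mul' h4 le_rfl h2
  · intro g hg i
    rcases Nat.eq_zero_or_pos i with rfl | hi
    · have := Submodule.mul_mem_mul (DirectSum.decompose 𝒜 g 0).2 (hpow 0)
      rwa [mul_one] at this
    · by_cases h0 : DirectSum.decompose 𝒜 g i = 0
      · rw [h0]
        exact Submodule.zero_mem _
      · have h2 : (DirectSum.decompose 𝒜 g i : A0) ∈ V := by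
          refine Submodule.subset_span (Set.mem_insert_of_mem _ ?_)
          rw [Finset.mem_coe, hT, mem_biUnion]
          exact ⟨g, hg, mem_image_of_mem _ (DFinsupp.mem_support_iff.2 h0)⟩
        have := Submodule.mul_mem_mul h10 (hVi i hi h2)
        rwa [one_mul] at this

end graded

section defo

variable {k A0 A : Type} [Field k] [CommRing A0] [IsDomain A0] [Algebra k A0] [Ring A]
  [Algebra k A] {F : ℕ → Submodule k A} {σ : ℕ → A → A0}

/-- a filtered deformation -/
structure Defo (𝒜 : ℕ → Submodule k A0) (F : ℕ → Submodule k A) (σ : ℕ → A → A0) : Prop where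
  filt : Filt F σ
  mem : ∀ (i : ℕ) (a : A), a ∈ F i → σ i a ∈ 𝒜 i
  surj : ∀ (i : ℕ) (y : A0), y ∈ 𝒜 i → ∃ a ∈ F i, σ i a = y

variable {𝒜 : ℕ → Submodule k A0} [GradedAlgebra 𝒜]

/-- generation in bounded degree -/
theorem Defo.exists_gen [Algebra.FiniteType k A0] (d : Defo 𝒜 F σ) :
    ∃ D, Algebra.adjoin k (F D : Set A) = ⊤ := by
  classical
  have h := d.filt
  obtain ⟨S, hS⟩ := (Algebra.FiniteType.out : (⊤ : Subalgebra k A0).FG)
  set D := S.sup fun g => (DirectSum.decompose 𝒜 g).support.sup id with hD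
  refine ⟨D, ?_⟩
  set B := Algebra.adjoin k (F D : Set A) with hB
  let P : ℕ → Submodule k A0 := fun i =>
    { carrier := {y | ∃ b ∈ B, b ∈ F i ∧ σ i b = y}
      add_mem' := by
        rintro _ _ ⟨b, hb, hbF, rfl⟩ ⟨c, hc, hcF, rfl⟩
        exact ⟨b + c, B.add_mem hb hc, Submodule.add_mem _ hbF hcF, h.add _ _ _ hbF hcF⟩
      zero_mem' := ⟨0, B.zero_mem, Submodule.zero_mem _, h.sym_zero i⟩
      smul_mem' := by
        rintro c _ ⟨b, hb, hbF, rfl⟩
        exact ⟨c • b, B.smul_mem hb c, Submodule.smul_mem _ _ hbF, h.smul _ _ _ hbF⟩ }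
  have hP := graded_induction 𝒜 P ⟨1, B.one_mem, h.one, h.sym_one⟩ (by
    rintro i j _ _ ⟨b, hb, hbF, rfl⟩ ⟨c, hc, hcF, rfl⟩
    exact ⟨b * c, B.mul_mem hb hc, h.mul _ _ _ _ hbF hcF, h.sym_mul _ _ _ _ hbF hcF⟩)
    (S : Set A0) hS (by
    intro g hg i
    by_cases h0 : DirectSum.decompose 𝒜 g i = 0
    · rw [h0]
      exact Submodule.zero_mem _
    · have h1 : i ≤ D := by
        have h2 : i ∈ (DirectSum.decompose 𝒜 g).support := DFinsupp.mem_support_iff.2 h0
        exact (Finset.le_sup (f := id) h2).trans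
          (Finset.le_sup (f := fun g => (DirectSum.decompose 𝒜 g).support.sup id) hg)
      obtain ⟨a, ha, haσ⟩ := d.surj i _ (DirectSum.decompose 𝒜 g i).2
      exact ⟨a, Algebra.subset_adjoin (h.mono h1 ha), ha, haσ⟩)
  have key : ∀ m, ∀ a ∈ F m, a ∈ B := by
    intro m
    induction m with
    | zero =>
      intro a ha
      exact Algebra.subset_adjoin (h.mono (Nat.zero_le _) ha)
    | succ m ih =>
      intro a ha
      obtain ⟨b, hb, hbF, hbσ⟩ := hP (m + 1) (d.mem (m + 1) a ha)
      have h1 : a - b ∈ F m := by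
        refine (h.ker m _ (Submodule.sub_mem _ ha hbF)).1 ?_
        rw [h.sym_sub _ _ _ ha hbF, hbσ, sub_self]
      have h2 := B.add_mem (ih _ h1) hb
      rwa [sub_add_cancel] at h2
  rw [eq_top_iff]
  intro a _
  obtain ⟨m, hm⟩ := h.exh a
  exact key m a hm

/-- iterated commutators with elements of degree zero -/
theorem Filt.iter_zero (h : Filt F σ) {f : A} (hf : f ∈ F 0) (e : ℕ) {a : A} (ha : a ∈ F e) :
    ((LinearMap.mulLeft k f - LinearMap.mulRight k f) ^ (e + 1)) a = 0 := by
  induction e generalizing a with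
  | zero =>
    rw [zero_add, pow_one]
    change f * a - a * f = 0
    rw [h.comm_zero hf ha, sub_self]
  | succ e ih =>
    rw [pow_succ, Module.End.mul_apply]
    refine ih ?_
    exact h.comm_mem (i := 0) (j := e + 1) (k := e) (by ring) hf ha

/-- large `p`-powers of elements of degree zero are central -/
theorem Defo.exists_central [Algebra.FiniteType k A0] (d : Defo 𝒜 F σ) {p : ℕ}
    [hp : Fact p.Prime] [CharP k p] : ∃ n, ∀ f ∈ F 0, ∀ a : A, f ^ p ^ n * a = a * f ^ p ^ n := by
  have h := d.filt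
  obtain ⟨D, hD⟩ := d.exists_gen
  refine ⟨D + 1, fun f hf a => ?_⟩
  have hD1 : D + 1 ≤ p ^ (D + 1) := (Nat.lt_pow_self hp.out.one_lt).le
  have key : ∀ b ∈ F D, f ^ p ^ (D + 1) * b = b * f ^ p ^ (D + 1) := by
    intro b hb
    haveI : Nontrivial A := ⟨1, 0, h.nz⟩
    haveI : CharP (Module.End k A) p :=
      charP_of_injective_algebraMap (algebraMap k (Module.End k A)).injective p
    have hc : Commute (LinearMap.mulLeft k f) (LinearMap.mulRight k f) :=
      LinearMap.commute_mulLeft_right f f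
    have h1 : ((LinearMap.mulLeft k f - LinearMap.mulRight k f) ^ (p ^ (D + 1))) b = 0 := by
      obtain ⟨j, hj⟩ : ∃ j, p ^ (D + 1) = j + (D + 1) := ⟨p ^ (D + 1) - (D + 1), by omega⟩
      rw [hj, pow_add, Module.End.mul_apply, h.iter_zero hf D hb, map_zero]
    rw [sub_pow_char_pow_of_commute p (D + 1) hc, LinearMap.sub_apply, LinearMap.pow_mulLeft,
      LinearMap.pow_mulRight] at h1
    exact sub_eq_zero.1 h1
  have hmem : a ∈ Algebra.adjoin k (F D : Set A) := by
    rw [hD]
    exact Algebra.mem_top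
  refine Algebra.adjoin_induction (p := fun a _ => f ^ p ^ (D + 1) * a = a * f ^ p ^ (D + 1))
    (fun b hb => key b hb) ?_ ?_ ?_ hmem
  · exact fun c => (Algebra.commutes c _).symm
  · intro x y _ _ hx hy
    rw [mul_add, add_mul, hx, hy]
  · intro x y _ _ hx hy
    rw [← mul_assoc, hx, mul_assoc, hy, mul_assoc]

end defo

end FD29
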