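import Pool.Agent.FD29.GrowthF
import Pool.Agent.FD29.Homog
import Pool.Agent.FD29.Final

/-!
# Base change to the fraction field of a central subring of degree zero
-/

set_option autoImplicit false

namespace FD29

open Finset Module

variable {k R κ A0 L A A' : Type} [Field k] [CommRing R] [IsDomain R] [Field κ] [CommRing A0]
  [IsDomain A0] [Algebra k A0] [Field L] [Algebra κ L] [Ring A] [Algebra k A] [Ring A']
  [Algebra κ A']

/-- base change data -/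
structure BC (F : ℕ → Submodule k A) (σ : ℕ → A → A0) (iA : R →+* A) (i0 : R →+* A0)
    (iκ : R →+* κ) (j : A →+* A') (ℓ : A0 →+* L) : Prop where
  iκ_inj : Function.Injective iκ
  frac : ∀ t : κ, ∃ x d : R, d ≠ 0 ∧ iκ d * t = iκ x
  j_inj : Function.Injective j
  j_iA : ∀ r, j (iA r) = algebraMap κ A' (iκ r)
  surj : ∀ y : A', ∃ r : R, r ≠ 0 ∧ ∃ a : A, iκ r • y = j a
  iA_mem : ∀ r, iA r ∈ F 0
  iA_sym : ∀ r, σ 0 (iA r) = i0 r
  i0_inj : Function.Injective i0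
  ℓ_inj : Function.Injective ℓ
  compat : ∀ r, algebraMap κ L (iκ r) = ℓ (i0 r)

variable {F : ℕ → Submodule k A} {σ : ℕ → A → A0} {iA : R →+* A} {i0 : R →+* A0}
  {iκ : R →+* κ} {j : A →+* A'} {ℓ : A0 →+* L}

namespace BC

theorem j_mul (h : BC F σ iA i0 iκ j ℓ) (r : R) (a : A) : j (iA r * a) = iκ r • j a := by
  rw [map_mul, h.j_iA, Algebra.smul_def]

theorem iκ_ne (h : BC F σ iA i0 iκ j ℓ) {r : R} (hr : r ≠ 0) : iκ r ≠ 0 :=
  fun h0 => hr (h.iκ_inj (by rw [h0, map_zero]))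

theorem mul_ne {r s : R} (hr : r ≠ 0) (hs : s ≠ 0) : r * s ≠ 0 := mul_ne_zero hr hs

/-- change of the denominator -/
theorem up (h : BC F σ iA i0 iκ j ℓ) {r : R} {y : A'} {a : A} (hy : iκ r • y = j a) (s : R) :
    iκ (s * r) • y = j (iA s * a) := by
  rw [map_mul, mul_smul, hy, h.j_mul]

/-- the localisation of a `k`-submodule stable under `R` -/
def locSub (h : BC F σ iA i0 iκ j ℓ) (M : Submodule k A) (hM : ∀ r, ∀ a ∈ M, iA r * a ∈ M) :
    Submodule κ A' where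
  carrier := {y | ∃ r : R, r ≠ 0 ∧ ∃ a ∈ M, iκ r • y = j a}
  add_mem' := by
    rintro x y ⟨r, hr, a, ha, hx⟩ ⟨s, hs, b, hb, hy⟩
    refine ⟨s * r, mul_ne hs hr, iA s * a + iA r * b, M.add_mem (hM _ _ ha) (hM _ _ hb), ?_⟩
    rw [smul_add, h.up hx, mul_comm, h.up hy, map_add]
  zero_mem' := ⟨1, one_ne_zero, 0, M.zero_mem, by simp⟩
  smul_mem' := by
    rintro t y ⟨r, hr, a, ha, hy⟩
    obtain ⟨x, d, hd, ht⟩ := h.frac t
    refine ⟨d * r, mul_ne hd hr, iA x * a, hM _ _ ha, ?_⟩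
    rw [h.j_mul, ← hy, ← ht, map_mul, smul_smul, smul_smul]
    congr 1
    ring

theorem F_stable (hf : Filt F σ) (h : BC F σ iA i0 iκ j ℓ) (m : ℕ) :
    ∀ r, ∀ a ∈ F m, iA r * a ∈ F m := fun r a ha => by
  have := hf.mul _ _ _ _ (h.iA_mem r) ha
  rwa [zero_add] at this

/-- the filtration after base change -/
def F' (h : BC F σ iA i0 iκ j ℓ) (hf : Filt F σ) (m : ℕ) : Submodule κ A' :=
  h.locSub (F m) (F_stable hf h m)

open Classical in
/-- the symbols after base change -/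
noncomputable def σ' (F : ℕ → Submodule k A) (σ : ℕ → A → A0) (i0 : R →+* A0) (iκ : R →+* κ)
    (j : A →+* A') (ℓ : A0 →+* L) (m : ℕ) (y : A') : L :=
  if h : ∃ P : R × A, P.1 ≠ 0 ∧ P.2 ∈ F m ∧ iκ P.1 • y = j P.2 then
    (ℓ (i0 h.choose.1))⁻¹ * ℓ (σ m h.choose.2) else 0

theorem sym_iA_mul (hf : Filt F σ) (h : BC F σ iA i0 iκ j ℓ) {m : ℕ} (r : R) {a : A}
    (ha : a ∈ F m) : σ m (iA r * a) = i0 r * σ m a := by
  have := hf.sym_mul 0 m (iA r) a (h.iA_mem r) ha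
  rwa [zero_add, h.iA_sym] at this

theorem ℓi0_ne (h : BC F σ iA i0 iκ j ℓ) {r : R} (hr : r ≠ 0) : ℓ (i0 r) ≠ 0 :=
  fun h0 => hr (h.i0_inj (h.ℓ_inj (by rw [h0, map_zero, map_zero])))

theorem σ'_eq (hf : Filt F σ) (h : BC F σ iA i0 iκ j ℓ) {m : ℕ} {y : A'} {r : R} (hr : r ≠ 0)
    {a : A} (ha : a ∈ F m) (hy : iκ r • y = j a) :
    σ' F σ i0 iκ j ℓ m y = (ℓ (i0 r))⁻¹ * ℓ (σ m a) := by
  classical
  have hex : ∃ P : R × A, P.1 ≠ 0 ∧ P.2 ∈ F m ∧ iκ P.1 • y = j P.2 := ⟨(r, a), hr, ha, hy⟩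
  rw [σ', dif_pos hex]
  obtain ⟨h1, h2, h3⟩ := hex.choose_spec
  set s := hex.choose.1
  set b := hex.choose.2
  have h4 : iA s * a = iA r * b := by
    apply h.j_inj
    rw [← h.up hy, ← h.up h3, mul_comm]
  have h5 := congrArg (σ m) h4
  rw [sym_iA_mul hf h s ha, sym_iA_mul hf h r h2] at h5
  have h6 := congrArg ℓ h5
  rw [map_mul, map_mul] at h6
  have h7 := h.ℓi0_ne hr
  have h8 := h.ℓi0_ne h1
  field_simp
  rw [h6, mul_comm]

theorem mem_F' (hf : Filt F σ) (h : BC F σ iA i0 iκ j ℓ) {m : ℕ} {y : A'} :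
    y ∈ h.F' hf m ↔ ∃ r : R, r ≠ 0 ∧ ∃ a ∈ F m, iκ r • y = j a := Iff.rfl

theorem smul_cancel (h : BC F σ iA i0 iκ j ℓ) {r : R} (hr : r ≠ 0) {y : A'}
    (hy : iκ r • y = 0) : y = 0 := by
  have := congrArg (fun z => (iκ r)⁻¹ • z) hy
  simpa [smul_smul, inv_mul_cancel₀ (h.iκ_ne hr)] using this

theorem mul_smul_mul (r s : R) (x y : A') : iκ (r * s) • (x * y) = (iκ r • x) * (iκ s • y) := by
  rw [map_mul, smul_mul_smul_comm]

/-- the base change is a filtered algebra -/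
theorem filt (hf : Filt F σ) (h : BC F σ iA i0 iκ j ℓ) :
    Filt (h.F' hf) (σ' F σ i0 iκ j ℓ) where
  mono := by
    intro m n hmn y hy
    obtain ⟨r, hr, a, ha, hy⟩ := (mem_F' hf h).1 hy
    exact ⟨r, hr, a, hf.mono hmn ha, hy⟩
  one := ⟨1, one_ne_zero, 1, hf.one, by simp⟩
  mul := by
    rintro m n x y ⟨r, hr, a, ha, hx⟩ ⟨s, hs, b, hb, hy⟩
    refine ⟨r * s, mul_ne hr hs, a * b, hf.mul _ _ _ _ ha hb, ?_⟩
    rw [mul_smul_mul, hx, hy, map_mul]
  exh := by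
    intro y
    obtain ⟨r, hr, a, hy⟩ := h.surj y
    obtain ⟨m, hm⟩ := hf.exh a
    exact ⟨m, r, hr, a, hm, hy⟩
  add := by
    rintro m x y ⟨r, hr, a, ha, hx⟩ ⟨s, hs, b, hb, hy⟩
    have h1 := σ'_eq hf h hr ha hx
    have h2 := σ'_eq hf h hs hb hy
    have h3 : iκ (s * r) • (x + y) = j (iA s * a + iA r * b) := by
      rw [smul_add, h.up hx, mul_comm, h.up hy, map_add]
    have ha' := F_stable hf h m s a ha
    have hb' := F_stable hf h m r b hb
    rw [σ'_eq hf h (mul_ne hs hr) (Submodule.add_mem _ ha' hb') h3, h1, h2,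
      hf.add _ _ _ ha' hb', sym_iA_mul hf h s ha, sym_iA_mul hf h r hb]
    have h7 := h.ℓi0_ne hr
    have h8 := h.ℓi0_ne hs
    simp only [map_mul, map_add]
    field_simp
  smul := by
    rintro m t y ⟨r, hr, a, ha, hy⟩
    obtain ⟨x, d, hd, ht⟩ := h.frac t
    have h1 : iκ (d * r) • (t • y) = j (iA x * a) := by
      rw [h.j_mul, ← hy, ← ht, map_mul, smul_smul, smul_smul]
      congr 1
      ring
    rw [σ'_eq hf h (mul_ne hd hr) (F_stable hf h m x a ha) h1, σ'_eq hf h hr ha hy,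
      sym_iA_mul hf h x ha, Algebra.smul_def]
    have h7 := h.ℓi0_ne hr
    have h8 := h.ℓi0_ne hd
    have h9 := congrArg (algebraMap κ L) ht
    rw [map_mul, h.compat, h.compat] at h9
    simp only [map_mul]
    field_simp
    rw [← h9]
    ring
  inj := by
    rintro y ⟨r, hr, a, ha, hy⟩ h0
    rw [σ'_eq hf h hr ha hy] at h0
    have h1 : ℓ (σ 0 a) = 0 := by
      rcases mul_eq_zero.1 h0 with h2 | h2
      · exact absurd h2 (inv_ne_zero (h.ℓi0_ne hr))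
      · exact h2
    have h2 : σ 0 a = 0 := h.ℓ_inj (by rw [h1, map_zero])
    rw [hf.inj a ha h2, map_zero] at hy
    exact h.smul_cancel hr hy
  ker := by
    rintro m y ⟨r, hr, a, ha, hy⟩
    rw [σ'_eq hf h hr ha hy]
    constructor
    · intro h0
      have h1 : ℓ (σ (m + 1) a) = 0 := by
        rcases mul_eq_zero.1 h0 with h2 | h2
        · exact absurd h2 (inv_ne_zero (h.ℓi0_ne hr))
        · exact h2
      have h2 : σ (m + 1) a = 0 := h.ℓ_inj (by rw [h1, map_zero])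
      exact ⟨r, hr, a, (hf.ker m a ha).1 h2, hy⟩
    · rintro ⟨s, hs, b, hb, hy'⟩
      have h1 := σ'_eq hf h hr ha hy
      have hb' := hf.mono (Nat.le_succ m) hb
      have h2 := σ'_eq hf h hs hb' hy'
      rw [← h1, h2, (hf.ker m b hb').2 hb, map_zero, mul_zero]
  sym_mul := by
    rintro m n x y ⟨r, hr, a, ha, hx⟩ ⟨s, hs, b, hb, hy⟩
    have h3 : iκ (r * s) • (x * y) = j (a * b) := by
      rw [mul_smul_mul, hx, hy, map_mul]
    rw [σ'_eq hf h (mul_ne hr hs) (hf.mul _ _ _ _ ha hb) h3, σ'_eq hf h hr ha hx,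
      σ'_eq hf h hs hb hy, hf.sym_mul _ _ _ _ ha hb]
    simp only [map_mul, mul_inv]
    ring
  nz := by
    intro h0
    have h1 : j 1 = j 0 := by rw [map_one, map_zero, h0]
    exact hf.nz (h.j_inj h1)

/-- independence of the symbols of different degrees -/
theorem grad (hf : Filt F σ) (h : BC F σ iA i0 iκ j ℓ)
    (hgrad : ∀ (m : ℕ) (a : ℕ → A), (∀ i, a i ∈ F i) → ∑ i ∈ range (m + 1), σ i (a i) = 0 →
      ∀ i ≤ m, σ i (a i) = 0) (m : ℕ) (y : ℕ → A') (hy : ∀ i, y i ∈ h.F' hf i)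
    (hsum : ∑ i ∈ range (m + 1), σ' F σ i0 iκ j ℓ i (y i) = 0) :
    ∀ i ≤ m, σ' F σ i0 iκ j ℓ i (y i) = 0 := by
  classical
  choose r hr a ha hya using fun i => (mem_F' hf h).1 (hy i)
  set c := ∏ i ∈ range (m + 1), r i with hc
  have hc0 : c ≠ 0 := Finset.prod_ne_zero_iff.2 fun i _ => hr i
  -- numerators over the common denominator
  have hex : ∀ i, ∃ b ∈ F i, i ≤ m → iκ c • y i = j b := by
    intro i
    by_cases hi : i ≤ m
    · obtain ⟨s, hs⟩ := Finset.dvd_prod_of_mem r (mem_range.2 (Nat.lt_succ_of_le hi))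
      refine ⟨iA s * a i, F_stable hf h i s _ (ha i), fun _ => ?_⟩
      rw [hc, hs, mul_comm, h.up (hya i)]
    · exact ⟨0, Submodule.zero_mem _, fun h0 => absurd h0 hi⟩
  choose b hb hyb using hex
  have hσ : ∀ i ≤ m, σ' F σ i0 iκ j ℓ i (y i) = (ℓ (i0 c))⁻¹ * ℓ (σ i (b i)) := fun i hi =>
    σ'_eq hf h hc0 (hb i) (hyb i hi)
  have h1 : ∑ i ∈ range (m + 1), σ i (b i) = 0 := by
    have h2 : ∑ i ∈ range (m + 1), (ℓ (i0 c))⁻¹ * ℓ (σ i (b i)) = 0 := by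
      rw [← hsum]
      refine Finset.sum_congr rfl fun i hi => ?_
      rw [hσ i (by have := mem_range.1 hi; omega)]
    rw [← Finset.mul_sum, ← map_sum] at h2
    rcases mul_eq_zero.1 h2 with h3 | h3
    · exact absurd h3 (inv_ne_zero (h.ℓi0_ne hc0))
    · exact h.ℓ_inj (by rw [h3, map_zero])
  intro i hi
  rw [hσ i hi, hgrad m b hb h1 i hi, map_zero, mul_zero]

end BC

end FD29
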