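import Pool.Agent.FD29.BaseA

/-!
# Base change of subalgebras and of their ranks
-/

set_option autoImplicit false

namespace FD29

open Finset Module

variable {k R κ A0 L A A' : Type} [Field k] [CommRing R] [IsDomain R] [Field κ] [CommRing A0]
  [IsDomain A0] [Algebra k A0] [Field L] [Algebra κ L] [Ring A] [Algebra k A] [Ring A']
  [Algebra κ A'] [Algebra A0 L]

variable {F : ℕ → Submodule k A} {σ : ℕ → A → A0} {iA : R →+* A} {i0 : R →+* A0}
  {iκ : R →+* κ} {j : A →+* A'}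

namespace BC

/-- the localisation of a subalgebra containing `R` -/
def locAlg (h : BC F σ iA i0 iκ j (algebraMap A0 L)) (B : Subalgebra k A) (hB : ∀ r, iA r ∈ B) :
    Subalgebra κ A' where
  carrier := {y | ∃ r : R, r ≠ 0 ∧ ∃ b ∈ B, iκ r • y = j b}
  mul_mem' := by
    rintro x y ⟨r, hr, a, ha, hx⟩ ⟨s, hs, b, hb, hy⟩
    refine ⟨r * s, mul_ne hr hs, a * b, B.mul_mem ha hb, ?_⟩
    rw [mul_smul_mul, hx, hy, map_mul]
  add_mem' := by
    rintro x y ⟨r, hr, a, ha, hx⟩ ⟨s, hs, b, hb, hy⟩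
    refine ⟨s * r, mul_ne hs hr, iA s * a + iA r * b,
      B.add_mem (B.mul_mem (hB _) ha) (B.mul_mem (hB _) hb), ?_⟩
    rw [smul_add, h.up hx, mul_comm, h.up hy, map_add]
  algebraMap_mem' := by
    intro t
    obtain ⟨x, d, hd, ht⟩ := h.frac t
    refine ⟨d, hd, iA x, hB x, ?_⟩
    rw [h.j_iA, ← ht, map_mul, Algebra.smul_def]

variable (h : BC F σ iA i0 iκ j (algebraMap A0 L))

include h

theorem mem_locAlg {B : Subalgebra k A} {hB : ∀ r, iA r ∈ B} {y : A'} :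
    y ∈ h.locAlg B hB ↔ ∃ r : R, r ≠ 0 ∧ ∃ b ∈ B, iκ r • y = j b := Iff.rfl

theorem locAlg_mono {B C : Subalgebra k A} (hB : ∀ r, iA r ∈ B) (hC : ∀ r, iA r ∈ C)
    (hBC : B ≤ C) : h.locAlg B hB ≤ h.locAlg C hC := by
  rintro y ⟨r, hr, b, hb, hy⟩
  exact ⟨r, hr, b, hBC hb, hy⟩

theorem locAlg_top (B : Subalgebra k A) (hB : ∀ r, iA r ∈ B) (hB' : B = ⊤) :
    h.locAlg B hB = ⊤ := by
  rw [eq_top_iff]
  intro y _
  obtain ⟨r, hr, a, hy⟩ := h.surj y
  exact ⟨r, hr, a, by rw [hB']; exact Algebra.mem_top, hy⟩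

theorem locAlg_comm (B : Subalgebra k A) (hB : ∀ r, iA r ∈ B)
    (hc : ∀ x ∈ B, ∀ y ∈ B, x * y = y * x) :
    ∀ x ∈ h.locAlg B hB, ∀ y ∈ h.locAlg B hB, x * y = y * x := by
  rintro x ⟨r, hr, a, ha, hx⟩ y ⟨s, hs, b, hb, hy⟩
  rw [← sub_eq_zero]
  refine h.smul_cancel (mul_ne hr hs) ?_
  have h1 : iκ (r * s) • (x * y) = j (a * b) := by
    rw [mul_smul_mul, hx, hy, map_mul]
  have h2 : iκ (r * s) • (y * x) = j (b * a) := by
    rw [mul_comm r s, mul_smul_mul, hx, hy, map_mul]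
  rw [smul_sub, h1, h2, hc a ha b hb, sub_self]

theorem j_mem_F' (hf : Filt F σ) {i : ℕ} {b : A} (hb : b ∈ F i) : j b ∈ h.F' hf i :=
  ⟨1, one_ne_zero, b, hb, by simp⟩

theorem j_mem_locAlg {B : Subalgebra k A} (hB : ∀ r, iA r ∈ B) {b : A} (hb : b ∈ B) :
    j b ∈ h.locAlg B hB := ⟨1, one_ne_zero, b, hb, by simp⟩

theorem σ'_j (hf : Filt F σ) {i : ℕ} {b : A} (hb : b ∈ F i) :
    σ' F σ i0 iκ j (algebraMap A0 L) i (j b) = algebraMap A0 L (σ i b) := by
  rw [σ'_eq hf h (one_ne_zero) hb (y := j b) (by simp)]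
  simp

theorem ratio {x : L} {r : R} (hr : r ≠ 0) {g : A0}
    (hx : x = (algebraMap A0 L (i0 r))⁻¹ * algebraMap A0 L g) :
    algebraMap A0 L (i0 r) * x = algebraMap A0 L g := by
  rw [hx, mul_inv_cancel_left₀ (h.ℓi0_ne hr)]

theorem mem_grB' (hf : Filt F σ) [Algebra k κ] [Algebra k L] [IsScalarTower k κ L]
    [IsScalarTower k A0 L] {B : Subalgebra k A} (hB : ∀ r, iA r ∈ B) {g : A0}
    (hg : g ∈ grB F σ B) :
    algebraMap A0 L g ∈
      grB (h.F' hf) (σ' F σ i0 iκ j (algebraMap A0 L)) (h.locAlg B hB) := by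
  have h1 : grB F σ B ≤ ((grB (h.F' hf) (σ' F σ i0 iκ j (algebraMap A0 L))
      (h.locAlg B hB)).restrictScalars k).comap (IsScalarTower.toAlgHom k A0 L) := by
    refine Algebra.adjoin_le ?_
    rintro _ ⟨i, b, hb, hF, rfl⟩
    change algebraMap A0 L (σ i b) ∈ grB (h.F' hf) (σ' F σ i0 iκ j (algebraMap A0 L))
      (h.locAlg B hB)
    rw [← h.σ'_j hf hF]
    exact sym_mem_grB (h.j_mem_locAlg hB hb) (h.j_mem_F' hf hF)
  exact h1 hg

theorem of_mem_grB' (hf : Filt F σ) {B : Subalgebra k A} (hB : ∀ r, iA r ∈ B) {x : L}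
    (hx : x ∈ grB (h.F' hf) (σ' F σ i0 iκ j (algebraMap A0 L)) (h.locAlg B hB)) :
    ∃ r : R, r ≠ 0 ∧ ∃ g ∈ grB F σ B, algebraMap A0 L (i0 r) * x = algebraMap A0 L g := by
  have hi : ∀ r, i0 r ∈ grB F σ B := fun r => by
    rw [← h.iA_sym r]
    exact sym_mem_grB (hB r) (h.iA_mem r)
  refine Algebra.adjoin_induction
    (p := fun x _ => ∃ r : R, r ≠ 0 ∧ ∃ g ∈ grB F σ B,
      algebraMap A0 L (i0 r) * x = algebraMap A0 L g) ?_ ?_ ?_ ?_ hx
  · rintro _ ⟨i, y, ⟨r, hr, b, hb, hyb⟩, ⟨s, hs, a, ha, hya⟩, rfl⟩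
    have h1 : iA s * b = iA r * a := by
      apply h.j_inj
      rw [← h.up hyb, ← h.up hya, mul_comm]
    have h2 : iA s * b ∈ F i := by
      rw [h1]
      exact F_stable hf h i r a ha
    refine ⟨s * r, mul_ne hs hr, σ i (iA s * b), sym_mem_grB (B.mul_mem (hB s) hb) h2, ?_⟩
    exact h.ratio (mul_ne hs hr) (σ'_eq hf h (mul_ne hs hr) h2 (h.up hyb s))
  · intro t
    obtain ⟨x, d, hd, ht⟩ := h.frac t
    refine ⟨d, hd, i0 x, hi x, ?_⟩
    rw [← h.compat, ← h.compat, ← map_mul, ht]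
  · rintro x y _ _ ⟨r, hr, g, hg, hx⟩ ⟨s, hs, g', hg', hy⟩
    refine ⟨r * s, mul_ne hr hs, i0 s * g + i0 r * g', Subalgebra.add_mem _
      (Subalgebra.mul_mem _ (hi s) hg) (Subalgebra.mul_mem _ (hi r) hg'), ?_⟩
    rw [map_add, map_mul, map_mul, map_mul, map_mul, ← hx, ← hy]
    ring
  · rintro x y _ _ ⟨r, hr, g, hg, hx⟩ ⟨s, hs, g', hg', hy⟩
    refine ⟨r * s, mul_ne hr hs, g * g', Subalgebra.mul_mem _ hg hg', ?_⟩
    rw [map_mul, map_mul, map_mul, ← hx, ← hy]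
    ring

theorem rk_eq (hf : Filt F σ) [Algebra k κ] [Algebra k L] [IsScalarTower k κ L]
    [IsScalarTower k A0 L] {B : Subalgebra k A} (hB : ∀ r, iA r ∈ B) :
    Algebra.trdeg k κ + rk (h.F' hf) (σ' F σ i0 iκ j (algebraMap A0 L)) (h.locAlg B hB) =
      rk F σ B := by
  set G := grB F σ B with hG
  set G' := grB (h.F' hf) (σ' F σ i0 iκ j (algebraMap A0 L)) (h.locAlg B hB) with hG'
  let φ : G →+* G' :=
    { toFun := fun g => ⟨algebraMap A0 L g, h.mem_grB' hf hB g.2⟩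
      map_one' := Subtype.ext (map_one (algebraMap A0 L))
      map_mul' := fun x y => Subtype.ext (map_mul (algebraMap A0 L) (x : A0) (y : A0))
      map_zero' := Subtype.ext (map_zero (algebraMap A0 L))
      map_add' := fun x y => Subtype.ext (map_add (algebraMap A0 L) (x : A0) (y : A0)) }
  have hφ : Function.Injective φ := fun x y hxy => Subtype.ext (h.ℓ_inj (congrArg Subtype.val hxy))
  letI : Algebra G G' := φ.toAlgebra
  haveI : IsScalarTower k G G' := by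
    refine IsScalarTower.of_algebraMap_eq fun c => Subtype.ext ?_
    change algebraMap k L c = algebraMap A0 L (algebraMap k A0 c)
    rw [← IsScalarTower.algebraMap_apply]
  haveI : FaithfulSMul G G' := (faithfulSMul_iff_algebraMap_injective G G').2 hφ
  haveI : Algebra.IsAlgebraic G G' := by
    refine ⟨fun x => ?_⟩
    obtain ⟨r, hr, g, hg, hx⟩ := h.of_mem_grB' hf hB x.2
    have hi : i0 r ∈ G := by
      rw [← h.iA_sym r]
      exact sym_mem_grB (hB r) (h.iA_mem r)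
    refine ⟨Polynomial.C (⟨i0 r, hi⟩ : G) * Polynomial.X - Polynomial.C (⟨g, hg⟩ : G), ?_, ?_⟩
    · intro h0
      have h1 := congrArg (fun q => Polynomial.coeff q 1) h0
      simp only [Polynomial.coeff_sub, Polynomial.coeff_C_mul, Polynomial.coeff_X_one, mul_one,
        Polynomial.coeff_zero, Polynomial.coeff_C_succ, sub_zero] at h1
      have h2 : i0 r = 0 := congrArg Subtype.val h1
      exact hr (h.i0_inj (by rw [h2, map_zero]))
    · rw [map_sub, map_mul, Polynomial.aeval_X, Polynomial.aeval_C, Polynomial.aeval_C]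
      refine Subtype.ext ?_
      change algebraMap A0 L (i0 r) * (x : L) - algebraMap A0 L g = 0
      rw [hx, sub_self]
  have e1 := trdeg_add_eq k G (A := G')
  have e2 := trdeg_add_eq k κ (A := G')
  rw [trdeg_eq_zero (R := G) (A := G'), add_zero] at e1
  rw [rk, rk, ← hG, ← hG', e2, e1]

end BC

end FD29
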