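import Pool.Agent.FD29.BaseB

/-!
# Base change: growth, and the main abstract statement
-/

set_option autoImplicit false

namespace FD29

open Finset Module

theorem trdeg_frac {k A0 L : Type} [Field k] [CommRing A0] [IsDomain A0] [Field L] [Algebra k A0]
    [Algebra A0 L] [IsFractionRing A0 L] [Algebra k L] [IsScalarTower k A0 L] :
    Algebra.trdeg k L = Algebra.trdeg k A0 := by
  haveI : Algebra.IsAlgebraic A0 L := IsLocalization.isAlgebraic L (nonZeroDivisors A0)
  have e1 := trdeg_add_eq k A0 (A := L)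
  rw [trdeg_eq_zero (R := A0) (A := L), add_zero] at e1
  exact e1.symm

theorem StdId.of_injective {A B : Type} [Ring A] [Ring B] {n : ℕ} (h : StdId B n) (f : A →+* B)
    (hf : Function.Injective f) : StdId A n := by
  intro x
  apply hf
  rw [map_zero, ← h (fun i => f (x i)), map_sum]
  refine Finset.sum_congr rfl fun π _ => ?_
  rw [map_zsmul, map_list_prod, List.map_reverse, List.map_ofFn]
  rfl

theorem finite_of_symbols {κ E A : Type} [Field κ] [CommRing E] [IsDomain E] [Algebra κ E]
    [Ring A] [Algebra κ A] {F : ℕ → Submodule κ A} {σ : ℕ → A → E} (h : Filt F σ)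
    (V : Submodule κ E) (hV : V.FG) (hFV : ∀ i, ∀ a ∈ F i, σ i a ∈ V ^ (i + 1)) :
    ∀ m, FiniteDimensional κ (F m) := by
  have key : ∀ (i : ℕ) (W : Submodule κ E), W.FG → (LinearMap.range (h.tau i)) ≤ W →
      FiniteDimensional κ (LinearMap.ker (h.tau i)) → FiniteDimensional κ (F i) := by
    intro i W hW hle hker
    haveI : FiniteDimensional κ W := Module.Finite.iff_fg.2 hW
    haveI : FiniteDimensional κ (LinearMap.range (h.tau i)) :=
      Submodule.finiteDimensional_of_le hle
    haveI : Module.Finite κ (F i ⧸ LinearMap.ker (h.tau i)) :=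
      Module.Finite.equiv (LinearMap.quotKerEquivRange (h.tau i)).symm
    haveI : Module.Finite κ (LinearMap.ker (h.tau i)) := hker
    exact Module.Finite.of_submodule_quotient (LinearMap.ker (h.tau i))
  intro m
  induction m with
  | zero =>
    refine key 0 (V ^ 1) (hV.pow 1) ?_ ?_
    · rintro _ ⟨a, rfl⟩
      exact hFV 0 a a.2
    · have hker : LinearMap.ker (h.tau 0) = ⊥ := by
        rw [LinearMap.ker_eq_bot']
        intro a ha
        exact Subtype.ext (h.inj a a.2 ha)
      rw [hker]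
      infer_instance
  | succ m ih =>
    refine key (m + 1) (V ^ (m + 2)) (hV.pow _) ?_ ?_
    · rintro _ ⟨a, rfl⟩
      exact hFV (m + 1) a a.2
    · haveI := ih
      let g : LinearMap.ker (h.tau (m + 1)) →ₗ[κ] F m :=
        { toFun := fun x => ⟨(x : F (m + 1)), (h.ker m _ (x : F (m + 1)).2).1 x.2⟩
          map_add' := fun _ _ => rfl
          map_smul' := fun _ _ => rfl }
      have hg : Function.Injective g := fun x y hxy =>
        Subtype.ext (Subtype.ext (congrArg (fun z : F m => (z : A)) hxy))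
      exact FiniteDimensional.of_injective g hg

variable {k R κ A0 L A A' : Type} [Field k] [CommRing R] [IsDomain R] [Field κ] [CommRing A0]
  [IsDomain A0] [Algebra k A0] [Field L] [Algebra κ L] [Ring A] [Algebra k A] [Ring A']
  [Algebra κ A'] [Algebra A0 L]

variable {F : ℕ → Submodule k A} {σ : ℕ → A → A0} {iA : R →+* A} {i0 : R →+* A0}
  {iκ : R →+* κ} {j : A →+* A'} {𝒜 : ℕ → Submodule k A0} [GradedAlgebra 𝒜]

/-- a graded algebra is generated by its homogeneous elements, which are symbols -/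
theorem Defo.adjoin_sym (d : Defo 𝒜 F σ) : Algebra.adjoin k (symSet F σ ⊤) = ⊤ := by
  classical
  rw [eq_top_iff]
  intro x _
  rw [← DirectSum.sum_support_decompose 𝒜 x]
  refine Subalgebra.sum_mem _ fun i _ => ?_
  obtain ⟨a, ha, hax⟩ := d.surj i _ (DirectSum.decompose 𝒜 x i).2
  exact Algebra.subset_adjoin ⟨i, a, Algebra.mem_top, ha, hax.symm⟩

/-- homogeneous elements of degree zero -/
theorem exists_T0 [Algebra.FiniteType k A0] :
    ∃ T0 : Finset A0, (∀ x ∈ T0, x ∈ 𝒜 0) ∧ ∀ x ∈ 𝒜 0, x ∈ Algebra.adjoin k (T0 : Set A0) := by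
  classical
  obtain ⟨S, hS⟩ := (Algebra.FiniteType.out : (⊤ : Subalgebra k A0).FG)
  set T0 : Finset A0 := S.image fun g => (DirectSum.decompose 𝒜 g 0 : A0) with hT0
  refine ⟨T0, ?_, ?_⟩
  · intro x hx
    rw [hT0, mem_image] at hx
    obtain ⟨g, _, rfl⟩ := hx
    exact (DirectSum.decompose 𝒜 g 0).2
  · let P : ℕ → Submodule k A0 := fun i =>
      if i = 0 then Subalgebra.toSubmodule (Algebra.adjoin k (T0 : Set A0)) else ⊤
    have hP := graded_induction 𝒜 P (by
        change (1 : A0) ∈ Subalgebra.toSubmodule (Algebra.adjoin k (T0 : Set A0))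
        exact Subalgebra.one_mem _) (by
        intro i j x y hx hy
        by_cases hij : i + j = 0
        · obtain rfl : i = 0 := by omega
          obtain rfl : j = 0 := by omega
          exact Subalgebra.mul_mem _ hx hy
        · simp only [P, hij, if_false]
          exact Submodule.mem_top) (S : Set A0) hS (by
        intro g hg i
        by_cases hi : i = 0
        · subst hi
          change (DirectSum.decompose 𝒜 g 0 : A0) ∈
            Subalgebra.toSubmodule (Algebra.adjoin k (T0 : Set A0))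
          refine Algebra.subset_adjoin ?_
          rw [Finset.mem_coe, hT0]
          exact mem_image_of_mem _ hg
        · simp only [P, hi, if_false]
          exact Submodule.mem_top)
    intro x hx
    exact hP 0 hx

namespace BC

theorem σ'_mem (d : Defo 𝒜 F σ) (h : BC F σ iA i0 iκ j (algebraMap A0 L)) {i : ℕ} {y : A'}
    (hy : y ∈ h.F' d.filt i) :
    ∃ (t : κ) (x : A0), x ∈ 𝒜 i ∧
      σ' F σ i0 iκ j (algebraMap A0 L) i y = t • algebraMap A0 L x := by
  obtain ⟨r, hr, a, ha, hya⟩ := hy
  refine ⟨(iκ r)⁻¹, σ i a, d.mem i a ha, ?_⟩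
  rw [σ'_eq d.filt h hr ha hya, Algebra.smul_def, map_inv₀, h.compat]

/-- a finite-dimensional space controlling the symbols -/
theorem exists_V (d : Defo 𝒜 F σ) (h : BC F σ iA i0 iκ j (algebraMap A0 L))
    [Algebra.FiniteType k A0] [Algebra k κ] [Algebra k L] [IsScalarTower k κ L]
    [IsScalarTower k A0 L] (halg0 : ∀ x ∈ 𝒜 0, IsAlgebraic κ (algebraMap A0 L x)) :
    ∃ V : Submodule κ L, V.FG ∧ (1 : L) ∈ V ∧
      ∀ i, ∀ y ∈ h.F' d.filt i, σ' F σ i0 iκ j (algebraMap A0 L) i y ∈ V ^ (i + 1) := by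
  classical
  obtain ⟨T0, hT0, hT0'⟩ := exists_T0 (k := k) (𝒜 := 𝒜)
  obtain ⟨T, hT⟩ := exists_T (k := k) 𝒜
  set V0 : Submodule κ L :=
    Subalgebra.toSubmodule (Algebra.adjoin κ ((algebraMap A0 L) '' (T0 : Set A0))) with hV0
  set V1 : Submodule κ L := Submodule.span κ ((algebraMap A0 L) '' (insert 1 (T : Set A0)))
    with hV1
  have hV0fg : V0.FG := by
    refine fg_adjoin_of_finite (T0.finite_toSet.image _) ?_
    rintro _ ⟨x, hx, rfl⟩
    exact (halg0 x (hT0 x hx)).isIntegral
  have hV1fg : V1.FG := by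
    refine Submodule.fg_span (Set.Finite.image _ ?_)
    exact (T.finite_toSet).insert 1
  have h0 : ∀ x ∈ 𝒜 0, algebraMap A0 L x ∈ V0 := by
    intro x hx
    have h1 : Algebra.adjoin k (T0 : Set A0) ≤ ((Algebra.adjoin κ ((algebraMap A0 L) ''
        (T0 : Set A0))).restrictScalars k).comap (IsScalarTower.toAlgHom k A0 L) := by
      refine Algebra.adjoin_le fun s hs => ?_
      change algebraMap A0 L s ∈ Algebra.adjoin κ ((algebraMap A0 L) '' (T0 : Set A0))
      exact Algebra.subset_adjoin ⟨s, hs, rfl⟩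
    exact h1 (hT0' x hx)
  have hmap : ∀ i, ∀ x ∈ (Submodule.span k (insert 1 (T : Set A0))) ^ i,
      algebraMap A0 L x ∈ V1 ^ i := by
    have h1 : ∀ x ∈ Submodule.span k (insert 1 (T : Set A0)), algebraMap A0 L x ∈ V1 := by
      intro x hx
      have h2 : Submodule.span k (insert 1 (T : Set A0)) ≤
          (V1.restrictScalars k).comap (IsScalarTower.toAlgHom k A0 L).toLinearMap := by
        refine Submodule.span_le.2 fun s hs => ?_
        exact Submodule.subset_span ⟨s, hs, rfl⟩
      exact h2 hx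
    intro i
    induction i with
    | zero =>
      intro x hx
      rw [pow_zero] at hx ⊢
      obtain ⟨c, rfl⟩ := Submodule.mem_one.1 hx
      rw [← IsScalarTower.algebraMap_apply k A0 L, IsScalarTower.algebraMap_apply k κ L]
      exact Submodule.mem_one.2 ⟨_, rfl⟩
    | succ i ih =>
      intro x hx
      rw [pow_succ] at hx ⊢
      refine Submodule.mul_induction_on hx ?_ ?_
      · intro m hm n hn
        rw [map_mul]
        exact Submodule.mul_mem_mul (ih m hm) (h1 n hn)
      · intro x y hx hy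
        rw [map_add]
        exact Submodule.add_mem _ hx hy
  refine ⟨V0 ⊔ V1, hV0fg.sup hV1fg, ?_, ?_⟩
  · refine Submodule.mem_sup_right (Submodule.subset_span ⟨1, Set.mem_insert _ _, map_one _⟩)
  · intro i y hy
    obtain ⟨t, x, hx, hxy⟩ := h.σ'_mem d hy
    rw [hxy]
    refine Submodule.smul_mem _ _ ?_
    have h2 := hT i hx
    refine Submodule.mul_induction_on h2 ?_ ?_
    · intro m hm n hn
      rw [map_mul, pow_succ']
      refine Submodule.mul_mem_mul (Submodule.mem_sup_left (h0 m hm)) ?_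
      exact pow_le_pow_left' (le_sup_right : V1 ≤ V0 ⊔ V1) i (hmap i n hn)
    · intro x y hx hy
      rw [map_add]
      exact Submodule.add_mem _ hx hy

/-- the sum of symbols of distinct degrees -/
theorem _root_.FD29.Defo.grad (d : Defo 𝒜 F σ) (m : ℕ) (a : ℕ → A) (ha : ∀ i, a i ∈ F i)
    (hsum : ∑ i ∈ range (m + 1), σ i (a i) = 0) : ∀ i ≤ m, σ i (a i) = 0 := by
  classical
  intro i hi
  have h1 := congrArg (fun x => (DirectSum.decompose 𝒜 x i : A0)) hsum
  simp only [DirectSum.decompose_sum, DirectSum.decompose_zero] at h1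
  rw [DFinsupp.finset_sum_apply, AddSubmonoidClass.coe_finset_sum,
    Finset.sum_eq_single_of_mem i (mem_range.2 (by omega))] at h1
  · rw [DirectSum.decompose_of_mem_same 𝒜 (d.mem i _ (ha i))] at h1
    exact h1
  · intro l _ hl
    exact DirectSum.decompose_of_mem_ne 𝒜 (d.mem l _ (ha l)) hl

/-- the main abstract statement -/
theorem std (d : Defo 𝒜 F σ) (h : BC F σ iA i0 iκ j (algebraMap A0 L))
    [Algebra.FiniteType k A0] [Algebra k κ] [Algebra k L] [IsScalarTower k κ L]
    [IsScalarTower k A0 L] [IsFractionRing A0 L] {p : ℕ} [hp : Fact p.Prime] [CharP k p]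
    (halg0 : ∀ x ∈ 𝒜 0, IsAlgebraic κ (algebraMap A0 L x)) (N : ℕ) (B : ℕ → Subalgebra k A)
    (hB : ∀ i r, iA r ∈ B i) (hB0 : ∀ x ∈ B 0, ∀ y ∈ B 0, x * y = y * x)
    (hle : ∀ i, B i ≤ B (i + 1)) (hrk : ∀ i, rk F σ (B (i + 1)) ≤ rk F σ (B i) + 1)
    (hBN : B N = ⊤) : ∃ n, StdId A n := by
  have hf := d.filt
  have hf' := BC.filt hf h
  haveI : CharP κ p := charP_of_injective_algebraMap (algebraMap k κ).injective p
  obtain ⟨V, hV, hone, hFV⟩ := h.exists_V d halg0
  have hfin := finite_of_symbols hf' V hV hFV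
  -- transcendence degrees
  have e1 : Algebra.trdeg k κ + Algebra.trdeg κ L = Algebra.trdeg k A0 := by
    rw [trdeg_add_eq k κ (A := L), trdeg_frac (A0 := A0) (L := L)]
  have e2 : Algebra.trdeg k A0 < Cardinal.aleph0 := trdeg_lt_aleph0_of_finiteType
  have e3 : Algebra.trdeg κ L < Cardinal.aleph0 :=
    lt_of_le_of_lt (by rw [← e1]; exact self_le_add_left _ _) e2
  have e4 : Algebra.trdeg k κ < Cardinal.aleph0 :=
    lt_of_le_of_lt (by rw [← e1]; exact self_le_add_right _ _) e2
  obtain ⟨r, hr⟩ := Cardinal.lt_aleph0.1 e3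
  obtain ⟨C₀, hgr⟩ := hf'.growth hfin (fun m y hy hs => BC.grad hf h (d.grad) m y hy hs) hr V hV
    hone hFV
  -- everything is algebraic over the symbols
  have hall : ∀ x : A0, x ∈ grB F σ (B N) := by
    intro x
    rw [hBN, grB, d.adjoin_sym]
    exact Algebra.mem_top
  have htop : h.locAlg (B N) (hB N) = ⊤ := h.locAlg_top _ _ hBN
  have hall' : ∀ x : A0, algebraMap A0 L x ∈
      Algebra.adjoin κ (symSet (h.F' hf) (σ' F σ i0 iκ j (algebraMap A0 L)) ⊤) := by
    intro x
    have := h.mem_grB' hf (hB N) (hall x)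
    rwa [htop] at this
  have halg : Algebra.IsAlgebraic
      (Algebra.adjoin κ (symSet (h.F' hf) (σ' F σ i0 iκ j (algebraMap A0 L)) ⊤)) L := by
    refine ⟨fun x => ?_⟩
    obtain ⟨a, b, hb, rfl⟩ := IsFractionRing.div_surjective (A := A0) x
    have hb0 : algebraMap A0 L b ≠ 0 := fun h0 =>
      nonZeroDivisors.ne_zero hb (h.ℓ_inj (by rw [h0, map_zero]))
    refine ⟨Polynomial.C ⟨_, hall' b⟩ * Polynomial.X - Polynomial.C ⟨_, hall' a⟩, ?_, ?_⟩
    · intro h0
      have h1 := congrArg (fun q => Polynomial.coeff q 1) h0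
      simp only [Polynomial.coeff_sub, Polynomial.coeff_C_mul, Polynomial.coeff_X_one, mul_one,
        Polynomial.coeff_zero, Polynomial.coeff_C_succ, sub_zero] at h1
      exact hb0 (congrArg Subtype.val h1)
    · rw [map_sub, map_mul, Polynomial.aeval_X, Polynomial.aeval_C, Polynomial.aeval_C]
      change algebraMap A0 L b * (algebraMap A0 L a / algebraMap A0 L b) - algebraMap A0 L a = 0
      rw [mul_div_cancel₀ _ hb0, sub_self]
  -- the chain
  have hchain := hf'.chain hfin (p := p) halg hr hgr N (fun i => h.locAlg (B i) (hB i))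
    (h.locAlg_comm (B 0) (hB 0) hB0) (fun i _ => h.locAlg_mono _ _ (hle i)) (by
      intro i _
      have h1 := hrk i
      rw [← h.rk_eq hf (hB i), ← h.rk_eq hf (hB (i + 1)), add_comm, add_assoc,
        add_comm (Algebra.trdeg k κ)] at h1
      exact (Cardinal.add_le_add_iff_of_lt_aleph0 e4).1 h1) N le_rfl r (by
      have h1 := h.rk_eq hf (hB N)
      have h2 : rk F σ (B N) = Algebra.trdeg k A0 := by
        refine le_antisymm (rk_le_trdeg _) ?_
        exact trdeg_le_of_injective
          (AlgHom.codRestrict (AlgHom.id k A0) (grB F σ (B N)) hall)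
          (fun x y hxy => congrArg Subtype.val hxy)
      rw [h2, ← e1, hr] at h1
      exact Cardinal.eq_of_add_eq_add_left h1 e4)
  rw [htop] at hchain
  obtain ⟨n, hn⟩ := hf'.std_of_commFam hfin hgr hchain
  exact ⟨n, hn.of_injective j h.j_inj⟩

end BC

end FD29
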