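import Pool.Agent.FD29.BaseC

/-!
# The concrete base change
-/

set_option autoImplicit false

namespace FD29

open Finset Module TensorProduct

variable {k A0 A : Type} [Field k] [CommRing A0] [IsDomain A0] [Algebra k A0] [Ring A]
  [Algebra k A] {F : ℕ → Submodule k A} {σ : ℕ → A → A0} {𝒜 : ℕ → Submodule k A0}
  [GradedAlgebra 𝒜]

theorem Defo.std_aux (d : Defo 𝒜 F σ) [Algebra.FiniteType k A0] {p : ℕ} [hp : Fact p.Prime]
    [CharP k p] {R : Type} [CommRing R] [IsDomain R] [Algebra k R] (iA : R →ₐ[k] A)
    (i0 : R →ₐ[k] A0) (hcen : ∀ r a, iA r * a = a * iA r) (hmem : ∀ r, iA r ∈ F 0)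
    (hsym : ∀ r, σ 0 (iA r) = i0 r) (hi0 : Function.Injective i0)
    (halg0 : ∀ x ∈ 𝒜 0, ∃ q : Polynomial R, q ≠ 0 ∧ q.eval₂ (i0 : R →+* A0) x = 0)
    (N : ℕ) (B : ℕ → Subalgebra k A)
    (hB : ∀ i r, iA r ∈ B i) (hB0 : ∀ x ∈ B 0, ∀ y ∈ B 0, x * y = y * x)
    (hle : ∀ i, B i ≤ B (i + 1)) (hrk : ∀ i, rk F σ (B (i + 1)) ≤ rk F σ (B i) + 1)
    (hBN : B N = ⊤) : ∃ n, StdId A n := by
  letI : Algebra R A := (iA : R →+* A).toAlgebra' hcen
  have hinj : Function.Injective ((algebraMap A0 (FractionRing A0)).comp (i0 : R →+* A0)) := by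
    intro x y hxy
    exact hi0 (IsFractionRing.injective A0 (FractionRing A0) hxy)
  letI : Algebra (FractionRing R) (FractionRing A0) :=
    (IsFractionRing.lift (A := R) (K := FractionRing R) (g := (algebraMap A0
      (FractionRing A0)).comp (i0 : R →+* A0)) hinj).toAlgebra
  have hcompat : ∀ r : R, algebraMap (FractionRing R) (FractionRing A0)
      (algebraMap R (FractionRing R) r) = algebraMap A0 (FractionRing A0) (i0 r) := fun r =>
    IsFractionRing.lift_algebraMap hinj r
  haveI : IsScalarTower k (FractionRing R) (FractionRing A0) := by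
    refine IsScalarTower.of_algebraMap_eq fun c => ?_
    rw [IsScalarTower.algebraMap_apply k R (FractionRing R), hcompat,
      IsScalarTower.algebraMap_apply k A0 (FractionRing A0)]
    congr 1
    exact (i0.commutes c).symm
  have hiA : ∀ r : R, ∀ a : A, iA r * a = 0 → r = 0 ∨ a = 0 := by
    intro r a hra
    haveI := d.filt.noZeroDivisors
    rcases mul_eq_zero.1 hra with h1 | h1
    · left
      apply hi0
      rw [← hsym, h1, d.filt.sym_zero, map_zero]
    · right
      exact h1
  haveI hloc : IsLocalizedModule (nonZeroDivisors R) (TensorProduct.mk R (FractionRing R) A 1) :=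
    (isLocalizedModule_iff_isBaseChange (nonZeroDivisors R) (FractionRing R) _).2
      (TensorProduct.isBaseChange R A (FractionRing R))
  have h : BC F σ (iA : R →+* A) (i0 : R →+* A0) (algebraMap R (FractionRing R))
      (Algebra.TensorProduct.includeRight : A →ₐ[R] FractionRing R ⊗[R] A).toRingHom
      (algebraMap A0 (FractionRing A0)) :=
    { iκ_inj := IsFractionRing.injective R (FractionRing R)
      frac := by
        intro t
        obtain ⟨x, y, hy, rfl⟩ := IsFractionRing.div_surjective (A := R) t
        have hy0 := nonZeroDivisors.ne_zero hy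
        refine ⟨x, y, hy0, ?_⟩
        have : algebraMap R (FractionRing R) y ≠ 0 := fun h0 =>
          hy0 (IsFractionRing.injective R (FractionRing R) (by rw [h0, map_zero]))
        rw [mul_div_cancel₀ _ this]
      j_inj := by
        change Function.Injective (TensorProduct.mk R (FractionRing R) A 1)
        rw [← LinearMap.ker_eq_bot, LinearMap.ker_eq_bot']
        intro a ha
        rw [IsLocalizedModule.eq_zero_iff (nonZeroDivisors R)] at ha
        obtain ⟨c, hc⟩ := ha
        have hc' : iA (c : R) * a = 0 := hc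
        rcases hiA _ _ hc' with h1 | h1
        · exact absurd h1 (nonZeroDivisors.ne_zero c.2)
        · exact h1
      j_iA := by
        intro r
        change (1 : FractionRing R) ⊗ₜ[R] (algebraMap R A r) =
          (algebraMap R (FractionRing R) r) ⊗ₜ[R] (1 : A)
        rw [Algebra.algebraMap_eq_smul_one, Algebra.algebraMap_eq_smul_one,
          TensorProduct.smul_tmul]
      surj := by
        intro y
        obtain ⟨⟨a, s⟩, hs⟩ := IsLocalizedModule.surj (nonZeroDivisors R)
          (TensorProduct.mk R (FractionRing R) A 1) y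
        refine ⟨s, nonZeroDivisors.ne_zero s.2, a, ?_⟩
        rw [algebraMap_smul]
        exact hs
      iA_mem := hmem
      iA_sym := hsym
      i0_inj := hi0
      ℓ_inj := IsFractionRing.injective A0 (FractionRing A0)
      compat := hcompat }
  refine h.std d (p := p) ?_ N B hB hB0 hle hrk hBN
  intro x hx
  obtain ⟨q, hq, hqx⟩ := halg0 x hx
  refine ⟨q.map (algebraMap R (FractionRing R)),
    (Polynomial.map_ne_zero_iff (IsFractionRing.injective R (FractionRing R))).2 hq, ?_⟩
  rw [Polynomial.aeval_def, Polynomial.eval₂_map]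
  have h1 : (algebraMap (FractionRing R) (FractionRing A0)).comp (algebraMap R (FractionRing R)) =
      (algebraMap A0 (FractionRing A0)).comp (i0 : R →+* A0) := RingHom.ext hcompat
  rw [h1, ← Polynomial.hom_eval₂, hqx, map_zero]

end FD29
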