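import Mathlib

/-!
# Filtered algebras with commutative associated graded domain: basics

`Filt F σ`: an exhaustive filtration `F` of a `κ`-algebra `A`, with symbol maps `σ i : F i → E`,
where `E` is a commutative domain; `σ i` is linear with kernel `F (i-1)`, and symbols multiply.
-/

set_option autoImplicit false

namespace FD29

open Finset

structure Filt {κ E A : Type} [Field κ] [CommRing E] [IsDomain E] [Algebra κ E] [Ring A]
    [Algebra κ A] (F : ℕ → Submodule κ A) (σ : ℕ → A → E) : Prop where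
  mono : Monotone F
  one : (1 : A) ∈ F 0
  mul : ∀ (i j : ℕ) (a b : A), a ∈ F i → b ∈ F j → a * b ∈ F (i + j)
  exh : ∀ a : A, ∃ i : ℕ, a ∈ F i
  add : ∀ (i : ℕ) (a b : A), a ∈ F i → b ∈ F i → σ i (a + b) = σ i a + σ i b
  smul : ∀ (i : ℕ) (c : κ) (a : A), a ∈ F i → σ i (c • a) = c • σ i a
  inj : ∀ a : A, a ∈ F 0 → σ 0 a = 0 → a = 0
  ker : ∀ (i : ℕ) (a : A), a ∈ F (i + 1) → (σ (i + 1) a = 0 ↔ a ∈ F i)
  sym_mul : ∀ (i j : ℕ) (a b : A), a ∈ F i → b ∈ F j → σ (i + j) (a * b) = σ i a * σ j b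
  nz : (1 : A) ≠ 0

variable {κ E A : Type} [Field κ] [CommRing E] [IsDomain E] [Algebra κ E] [Ring A] [Algebra κ A]
  {F : ℕ → Submodule κ A} {σ : ℕ → A → E}

namespace Filt

theorem sym_zero (h : Filt F σ) (i : ℕ) : σ i 0 = 0 := by
  have := h.smul i 0 0 (Submodule.zero_mem _)
  rwa [zero_smul, zero_smul] at this

theorem sym_one (h : Filt F σ) : σ 0 1 = 1 := by
  have h1 := h.sym_mul 0 0 1 1 h.one h.one
  rw [mul_one, add_zero] at h1
  have h2 : σ 0 1 ≠ 0 := fun h3 => h.nz (h.inj 1 h.one h3)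
  exact (mul_right_cancel₀ h2 (by rw [one_mul]; exact h1)).symm

theorem sym_neg (h : Filt F σ) (i : ℕ) (a : A) (ha : a ∈ F i) : σ i (-a) = -σ i a := by
  have := h.smul i (-1) a ha
  rwa [neg_one_smul, neg_one_smul] at this

theorem sym_sub (h : Filt F σ) (i : ℕ) (a b : A) (ha : a ∈ F i) (hb : b ∈ F i) :
    σ i (a - b) = σ i a - σ i b := by
  rw [sub_eq_add_neg, h.add i a (-b) ha (Submodule.neg_mem _ hb), h.sym_neg i b hb, sub_eq_add_neg]

theorem sym_sum (h : Filt F σ) (i : ℕ) {ι : Type} (s : Finset ι) (f : ι → A)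
    (hf : ∀ j ∈ s, f j ∈ F i) : σ i (∑ j ∈ s, f j) = ∑ j ∈ s, σ i (f j) := by
  classical
  induction s using Finset.induction_on with
  | empty => simp [h.sym_zero]
  | insert a s ha ih =>
    rw [Finset.sum_insert ha, Finset.sum_insert ha, h.add i _ _ (hf a (mem_insert_self _ _))
      (Submodule.sum_mem _ fun j hj => hf j (mem_insert_of_mem hj)),
      ih fun j hj => hf j (mem_insert_of_mem hj)]

theorem sym_of_lt (h : Filt F σ) {i j : ℕ} (hij : i < j) {a : A} (ha : a ∈ F i) : σ j a = 0 := by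
  obtain ⟨j, rfl⟩ : ∃ k, j = k + 1 := ⟨j - 1, by omega⟩
  exact (h.ker j a (h.mono (by omega) ha)).2 (h.mono (by omega) ha)

/-- every nonzero element has a degree -/
theorem exists_deg (h : Filt F σ) {a : A} (ha : a ≠ 0) : ∃ n, a ∈ F n ∧ σ n a ≠ 0 := by
  classical
  have hex := h.exh a
  refine ⟨Nat.find hex, Nat.find_spec hex, fun h0 => ?_⟩
  rcases hn : Nat.find hex with _ | n
  · have h1 := Nat.find_spec hex
    rw [hn] at h1 h0
    exact ha (h.inj a h1 h0)
  · have h1 := Nat.find_spec hex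
    rw [hn] at h1 h0
    have h2 := (h.ker n a h1).1 h0
    exact Nat.find_min hex (by omega) h2

theorem exists_deg_le (h : Filt F σ) {a : A} (ha : a ≠ 0) {m : ℕ} (ham : a ∈ F m) :
    ∃ n, n ≤ m ∧ a ∈ F n ∧ σ n a ≠ 0 := by
  obtain ⟨n, hn, hs⟩ := h.exists_deg ha
  refine ⟨n, ?_, hn, hs⟩
  by_contra hlt
  exact hs (h.sym_of_lt (by omega) ham)

theorem noZeroDivisors (h : Filt F σ) : NoZeroDivisors A := by
  constructor
  intro a b hab
  by_contra hne
  rw [not_or] at hne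
  obtain ⟨n, hn, hs⟩ := h.exists_deg hne.1
  obtain ⟨m, hm, ht⟩ := h.exists_deg hne.2
  have h1 := h.sym_mul n m a b hn hm
  rw [hab, h.sym_zero] at h1
  exact mul_ne_zero hs ht h1.symm

theorem comm_zero (h : Filt F σ) {a b : A} (ha : a ∈ F 0) (hb : b ∈ F 0) : a * b = b * a := by
  rw [← sub_eq_zero]
  have hab := h.mul 0 0 a b ha hb
  have hba := h.mul 0 0 b a hb ha
  refine h.inj _ (Submodule.sub_mem _ hab hba) ?_
  rw [h.sym_sub 0 _ _ hab hba]
  have h1 := h.sym_mul 0 0 a b ha hb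
  have h2 := h.sym_mul 0 0 b a hb ha
  rw [add_zero] at h1 h2
  rw [h1, h2, mul_comm, sub_self]

theorem comm_mem (h : Filt F σ) {i j k : ℕ} (hk : i + j = k + 1) {a b : A} (ha : a ∈ F i)
    (hb : b ∈ F j) : a * b - b * a ∈ F k := by
  have hab := h.mul i j a b ha hb
  have hba := h.mul j i b a hb ha
  rw [add_comm j i] at hba
  have h1 : σ (i + j) (a * b - b * a) = 0 := by
    rw [h.sym_sub _ _ _ hab hba, h.sym_mul i j a b ha hb]
    have := h.sym_mul j i b a hb ha
    rw [add_comm j i] at this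
    rw [this, mul_comm, sub_self]
  rw [hk] at h1 hab hba
  exact (h.ker k _ (Submodule.sub_mem _ hab hba)).1 h1

theorem pow_mem (h : Filt F σ) {d : ℕ} {a : A} (ha : a ∈ F d) (n : ℕ) : a ^ n ∈ F (n * d) := by
  induction n with
  | zero => simpa using h.one
  | succ n ih =>
    rw [pow_succ, Nat.succ_mul]
    exact h.mul _ _ _ _ ih ha

theorem sym_pow (h : Filt F σ) {d : ℕ} {a : A} (ha : a ∈ F d) (n : ℕ) :
    σ (n * d) (a ^ n) = σ d a ^ n := by
  induction n with
  | zero => simpa using h.sym_one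
  | succ n ih =>
    rw [pow_succ, Nat.succ_mul, h.sym_mul _ _ _ _ (h.pow_mem ha n) ha, ih, pow_succ]

/-- the iterated commutator -/
theorem iter_comm_mem (h : Filt F σ) {d : ℕ} {x : A} (hx : x ∈ F (d + 1)) {e : ℕ} {a : A}
    (ha : a ∈ F e) (n : ℕ) :
    ((LinearMap.mulLeft κ x - LinearMap.mulRight κ x) ^ n) a ∈ F (e + n * d) := by
  induction n with
  | zero => simpa using ha
  | succ n ih =>
    rw [pow_succ', Module.End.mul_apply]
    have h1 := h.comm_mem (i := d + 1) (j := e + n * d) (k := e + (n + 1) * d) (by ring) hx ih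
    exact h1

/-- the commutator with a `p^n`-th power drops the degree by `p^n` -/
theorem pow_comm_mem (h : Filt F σ) {p : ℕ} [Fact p.Prime] [CharP κ p] {d : ℕ} {x : A}
    (hx : x ∈ F (d + 1)) {e : ℕ} {a : A} (ha : a ∈ F e) (n : ℕ) :
    x ^ p ^ n * a - a * x ^ p ^ n ∈ F (e + p ^ n * d) := by
  haveI : Nontrivial A := ⟨1, 0, h.nz⟩
  haveI : CharP (Module.End κ A) p :=
    charP_of_injective_algebraMap (algebraMap κ (Module.End κ A)).injective p
  have hc : Commute (LinearMap.mulLeft κ x) (LinearMap.mulRight κ x) :=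
    LinearMap.commute_mulLeft_right x x
  have h1 := h.iter_comm_mem hx ha (p ^ n)
  rw [sub_pow_char_pow_of_commute p n hc] at h1
  rw [LinearMap.sub_apply, LinearMap.pow_mulLeft, LinearMap.pow_mulRight] at h1
  exact h1

/-- elements with linearly independent symbols are linearly independent -/
theorem coeff_zero (h : Filt F σ) {ι : Type} (s : Finset ι) (b : ι → A) (e : ι → ℕ)
    (hb : ∀ j ∈ s, b j ∈ F (e j)) (c : ι → κ)
    (hli : ∀ t : Finset ι, t ⊆ s → ∀ g : ι → κ, ∑ j ∈ t, g j • σ (e j) (b j) = 0 →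
      ∀ j ∈ t, g j = 0) (m : ℕ) (hm : ∀ j ∈ s, m < e j)
    (hsum : ∑ j ∈ s, c j • b j ∈ F m) : ∀ j ∈ s, c j = 0 := by
  classical
  by_contra hne
  push Not at hne
  obtain ⟨j0, hj0, hc0⟩ := hne
  set s' := s.filter (fun j => c j ≠ 0) with hs'
  have hs'ne : s'.Nonempty := ⟨j0, by simp [hs', hj0, hc0]⟩
  obtain ⟨j1, hj1, hmax⟩ := Finset.exists_max_image s' e hs'ne
  set E0 := e j1 with hE0
  set t := s'.filter (fun j => e j = E0) with ht
  have hsub : t ⊆ s := fun j hj => (mem_filter.1 (mem_filter.1 hj).1).1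
  have hj1s : j1 ∈ s := (mem_filter.1 hj1).1
  have hlt : m < E0 := hm j1 hj1s
  obtain ⟨k, hk⟩ : ∃ k, E0 = k + 1 := ⟨E0 - 1, by omega⟩
  -- split the sum
  have hsplit : ∑ j ∈ s, c j • b j = ∑ j ∈ t, c j • b j + ∑ j ∈ s' \ t, c j • b j := by
    have h1 : ∑ j ∈ s, c j • b j = ∑ j ∈ s', c j • b j := by
      rw [hs', Finset.sum_filter_of_ne]
      intro x _ hx hcx
      rw [hcx, zero_smul] at hx
      exact hx rfl
    rw [h1, add_comm, Finset.sum_sdiff (Finset.filter_subset _ _)]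
  have hrest : ∑ j ∈ s' \ t, c j • b j ∈ F k := by
    refine Submodule.sum_mem _ fun j hj => Submodule.smul_mem _ _ ?_
    have hj' := mem_sdiff.1 hj
    have h1 : e j ≠ E0 := fun h0 => hj'.2 (mem_filter.2 ⟨hj'.1, h0⟩)
    replace hj := hj'
    have h2 : e j ≤ E0 := hmax j hj.1
    exact h.mono (by omega) (hb j (mem_filter.1 hj.1).1)
  have htop : ∑ j ∈ t, c j • b j ∈ F k := by
    have h1 : ∑ j ∈ t, c j • b j = ∑ j ∈ s, c j • b j - ∑ j ∈ s' \ t, c j • b j := by
      rw [hsplit, add_sub_cancel_right]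
    rw [h1]
    exact Submodule.sub_mem _ (h.mono (by omega) hsum) hrest
  have hmem : ∀ j ∈ t, b j ∈ F E0 := by
    intro j hj
    have h1 := hb j (hsub hj)
    rw [(mem_filter.1 hj).2] at h1
    exact h1
  have hsym : σ E0 (∑ j ∈ t, c j • b j) = ∑ j ∈ t, c j • σ (e j) (b j) := by
    rw [h.sym_sum E0 t _ fun j hj => Submodule.smul_mem _ _ (hmem j hj)]
    refine Finset.sum_congr rfl fun j hj => ?_
    rw [h.smul E0 _ _ (hmem j hj), (mem_filter.1 hj).2]
  have hz : σ E0 (∑ j ∈ t, c j • b j) = 0 := h.sym_of_lt (by omega : k < E0) htop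
  rw [hsym] at hz
  have h1 := hli t hsub c hz j1 (mem_filter.2 ⟨hj1, rfl⟩)
  exact (mem_filter.1 hj1).2 h1

end Filt

end FD29
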