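import Pool.Agent.FD29.Rank

/-!
# No centraliser of codimension one; chains of subalgebras
-/

set_option autoImplicit false

namespace FD29

open Finset Module

variable {κ E A : Type} [Field κ] [CommRing E] [IsDomain E] [Algebra κ E] [Ring A] [Algebra κ A]
  {F : ℕ → Submodule κ A} {σ : ℕ → A → E}

theorem inf_centralizer (B : Subalgebra κ A) (a : A) :
    Subalgebra.toSubmodule (B ⊓ Subalgebra.centralizer κ {a}) =
      Subalgebra.toSubmodule B ⊓ LinearMap.ker (adR κ a) := by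
  ext x
  constructor
  · rintro ⟨h1, h2⟩
    refine ⟨h1, ?_⟩
    have h3 := Subalgebra.mem_centralizer_iff κ |>.1 h2 a rfl
    change x * a - a * x = 0
    rw [h3, sub_self]
  · rintro ⟨h1, h2⟩
    refine ⟨h1, (Subalgebra.mem_centralizer_iff κ).2 ?_⟩
    rintro b rfl
    have h3 : x * b - b * x = 0 := h2
    exact (sub_eq_zero.1 h3).symm

namespace Filt

/-- the centraliser of an element has no codimension one -/
theorem dichotomy (h : Filt F σ) (hfin : ∀ m, FiniteDimensional κ (F m)) {p : ℕ}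
    [hp : Fact p.Prime] [CharP κ p]
    (halg : Algebra.IsAlgebraic (Algebra.adjoin κ (symSet F σ ⊤)) E) {r C₀ : ℕ}
    (hr : Algebra.trdeg κ E = r) (hgr : ∀ m, finrank κ (F m) ≤ C₀ * (m + 1) ^ r)
    (B : Subalgebra κ A) {n : ℕ} (hB : rk F σ B ≤ (n + 1 : ℕ)) (hB' : (n : Cardinal) < rk F σ B)
    (a : A) (haB : a ∈ B) (w : Fin n → A) (dw : Fin n → ℕ) (hwB : ∀ i, w i ∈ B)
    (hwF : ∀ i, w i ∈ F (dw i)) (hwa : ∀ i, Commute (w i) a)
    (hind : AlgebraicIndependent κ (fun i => σ (dw i) (w i))) :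
    (n : Cardinal) < rk F σ (B ⊓ Subalgebra.centralizer κ {a}) := by
  by_contra hcon
  rw [not_lt] at hcon
  obtain ⟨x, hxB, d, hxF, hind'⟩ := exists_extend w dw hwB hwF hind hB'
  have hd : 0 < d := h.deg_pos hfin hxF (hind'.transcendental none)
  obtain ⟨d, rfl⟩ : ∃ d', d = d' + 1 := ⟨d - 1, by omega⟩
  obtain ⟨e, hae⟩ := h.exh a
  obtain ⟨C₁, hC₁⟩ := h.growth_le hfin halg hr hgr B hB
  obtain ⟨C₂, hC₂⟩ := h.growth_le hfin halg hr hgr _ hcon
  set c := ∑ i, dw i + (d + 1) with hc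
  set K := p * (e * (C₁ * (c + e + 1) ^ (n + 1)) + c * (C₂ * (2 * c + 1) ^ n)) with hK
  have hmain := h.main_ineq hfin B a e haB hae w dw hwB hwF hwa x d hxB hxF hind' (K + 1)
    (p ^ (K + 1) * c) rfl
  set P := p ^ (K + 1) with hP
  have hP1 : 1 ≤ P := Nat.one_le_pow _ _ hp.out.pos
  have h1 := hC₁ (P * c + e)
  have h2 := hC₂ (2 * (P * c))
  rw [inf_centralizer] at h2
  have h3 : P * c + e + 1 ≤ P * (c + e + 1) := by
    have : P * (c + e + 1) = P * c + P * (e + 1) := by ring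
    have h4 : 1 * (e + 1) ≤ P * (e + 1) := Nat.mul_le_mul_right _ hP1
    omega
  have h4 : 2 * (P * c) + 1 ≤ P * (2 * c + 1) := by
    have : P * (2 * c + 1) = 2 * (P * c) + P := by ring
    omega
  have h5 : P ^ n * ((K + 1) * P) ≤ K * P ^ (n + 1) := by
    calc P ^ n * ((K + 1) * P) ≤ _ := hmain
      _ ≤ p * (e * (C₁ * (P * c + e + 1) ^ (n + 1)) + P * c * (C₂ * (2 * (P * c) + 1) ^ n)) := by
          gcongr
      _ ≤ p * (e * (C₁ * (P * (c + e + 1)) ^ (n + 1)) + P * c * (C₂ * (P * (2 * c + 1)) ^ n)) := by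
          gcongr
      _ = K * P ^ (n + 1) := by
          rw [hK, mul_pow, mul_pow]
          ring
  have h6 : (K + 1) * P ^ (n + 1) ≤ K * P ^ (n + 1) := by
    calc (K + 1) * P ^ (n + 1) = P ^ n * ((K + 1) * P) := by ring
      _ ≤ _ := h5
  have h7 : 0 < P ^ (n + 1) := by positivity
  have h8 := Nat.le_of_mul_le_mul_right h6 h7
  omega

/-- adding an element to a commuting family -/
theorem chain_step (h : Filt F σ) (hfin : ∀ m, FiniteDimensional κ (F m)) {p : ℕ}
    [hp : Fact p.Prime] [CharP κ p]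
    (halg : Algebra.IsAlgebraic (Algebra.adjoin κ (symSet F σ ⊤)) E) {r C₀ : ℕ}
    (hr : Algebra.trdeg κ E = r) (hgr : ∀ m, finrank κ (F m) ≤ C₀ * (m + 1) ^ r)
    (B : Subalgebra κ A) {n : ℕ} (hB : rk F σ B ≤ (n + 1 : ℕ)) (hB' : (n : Cardinal) < rk F σ B)
    (c : Fin n → A) (dc : Fin n → ℕ) (hcB : ∀ i, c i ∈ B) (hcF : ∀ i, c i ∈ F (dc i))
    (hcomm : ∀ i j, Commute (c i) (c j))
    (hind : AlgebraicIndependent κ (fun i => σ (dc i) (c i))) :
    ∃ x ∈ B, ∃ d, x ∈ F d ∧ (∀ i, Commute (c i) x) ∧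
      AlgebraicIndependent κ (fun o : Option (Fin n) =>
        o.elim (σ d x) (fun i => σ (dc i) (c i))) := by
  classical
  have hmemZ : ∀ (T : Finset (Fin n)) (i : Fin n),
      c i ∈ B ⊓ Subalgebra.centralizer κ (c '' (T : Set (Fin n))) := by
    intro T i
    refine ⟨hcB i, (Subalgebra.mem_centralizer_iff κ).2 ?_⟩
    rintro _ ⟨j, _, rfl⟩
    exact (hcomm j i).eq
  have key : ∀ T : Finset (Fin n),
      (n : Cardinal) < rk F σ (B ⊓ Subalgebra.centralizer κ (c '' (T : Set (Fin n)))) := by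
    intro T
    induction T using Finset.induction_on with
    | empty =>
      have e1 : B ⊓ Subalgebra.centralizer κ (c '' ((∅ : Finset (Fin n)) : Set (Fin n))) = B := by
        rw [inf_eq_left]
        intro x _
        rw [Subalgebra.mem_centralizer_iff]
        intro g hg
        simp at hg
      rw [e1]
      exact hB'
    | insert j T _ ih =>
      have e1 : B ⊓ Subalgebra.centralizer κ (c '' ((insert j T : Finset (Fin n)) : Set (Fin n))) =
          (B ⊓ Subalgebra.centralizer κ (c '' (T : Set (Fin n)))) ⊓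
            Subalgebra.centralizer κ {c j} := by
        ext x
        rw [Algebra.mem_inf, Algebra.mem_inf, Algebra.mem_inf, Subalgebra.mem_centralizer_iff,
          Subalgebra.mem_centralizer_iff, Subalgebra.mem_centralizer_iff]
        constructor
        · rintro ⟨h1, h2⟩
          refine ⟨⟨h1, ?_⟩, ?_⟩
          · rintro _ ⟨i, hi, rfl⟩
            exact h2 _ ⟨i, by simp [Finset.mem_coe.1 hi], rfl⟩
          · rintro _ rfl
            exact h2 _ ⟨j, by simp, rfl⟩
        · rintro ⟨⟨h1, h2⟩, h3⟩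
          refine ⟨h1, ?_⟩
          rintro _ ⟨i, hi, rfl⟩
          rw [Finset.mem_coe, Finset.mem_insert] at hi
          rcases hi with rfl | hi
          · exact h3 _ rfl
          · exact h2 _ ⟨i, hi, rfl⟩
      rw [e1]
      refine h.dichotomy hfin halg hr hgr _ ((rk_mono inf_le_left).trans hB) ih (c j) (hmemZ T j)
        c dc (hmemZ T) hcF (fun i => hcomm i j) hind
  obtain ⟨x, hxB, d, hxF, hind'⟩ := exists_extend c dc (hmemZ Finset.univ) hcF hind
    (key Finset.univ)
  refine ⟨x, hxB.1, d, hxF, fun i => ?_, hind'⟩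
  exact (Subalgebra.mem_centralizer_iff κ).1 hxB.2 (c i) ⟨i, by simp, rfl⟩

end Filt

/-- a commuting family with algebraically independent symbols -/
def CommFam (F : ℕ → Submodule κ A) (σ : ℕ → A → E) (B : Subalgebra κ A) (n : ℕ) : Prop :=
  ∃ (w : Fin n → A) (dw : Fin n → ℕ), (∀ i, w i ∈ B) ∧ (∀ i, w i ∈ F (dw i)) ∧
    (∀ i j, Commute (w i) (w j)) ∧ AlgebraicIndependent κ (fun i => σ (dw i) (w i))

theorem CommFam.mono {B B' : Subalgebra κ A} (hB : B ≤ B') {n : ℕ} (h : CommFam F σ B n) :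
    CommFam F σ B' n := by
  obtain ⟨w, dw, h1, h2⟩ := h
  exact ⟨w, dw, fun i => hB (h1 i), h2⟩

theorem algInd_cons {n : ℕ} {x : A} {d : ℕ} {w : Fin n → A} {dw : Fin n → ℕ}
    (h : AlgebraicIndependent κ (fun o : Option (Fin n) =>
      o.elim (σ d x) (fun i => σ (dw i) (w i)))) :
    AlgebraicIndependent κ (fun i : Fin (n + 1) =>
      σ ((Fin.cons d dw : Fin (n + 1) → ℕ) i) ((Fin.cons x w : Fin (n + 1) → A) i)) := by
  have h1 := h.comp (finSuccEquiv n) (finSuccEquiv n).injective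
  convert! h1 using 1
  ext i
  refine Fin.cases ?_ (fun i => ?_) i
  · simp
  · simp

theorem exists_fam (h1 : (1 : A) ≠ 0 ∧ Filt F σ) (B : Subalgebra κ A) (n : ℕ)
    (hn : (n : Cardinal) ≤ rk F σ B) :
    ∃ (w : Fin n → A) (dw : Fin n → ℕ), (∀ i, w i ∈ B) ∧ (∀ i, w i ∈ F (dw i)) ∧
      AlgebraicIndependent κ (fun i => σ (dw i) (w i)) := by
  induction n with
  | zero =>
    refine ⟨Fin.elim0, Fin.elim0, fun i => i.elim0, fun i => i.elim0, ?_⟩
    rw [algebraicIndependent_empty_type_iff]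
    exact (algebraMap κ E).injective
  | succ n ih =>
    have hn' : (n : Cardinal) < rk F σ B := by
      refine lt_of_lt_of_le ?_ hn
      exact_mod_cast Nat.lt_succ_self n
    obtain ⟨w, dw, hw1, hw2, hw3⟩ := ih hn'.le
    obtain ⟨x, hxB, d, hxF, hind⟩ := exists_extend w dw hw1 hw2 hw3 hn'
    refine ⟨Fin.cons x w, Fin.cons d dw, fun i => ?_, fun i => ?_, algInd_cons hind⟩
    · refine Fin.cases ?_ (fun i => ?_) i
      · simpa using hxB
      · simpa using hw1 i
    · refine Fin.cases ?_ (fun i => ?_) i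
      · simpa using hxF
      · simpa using hw2 i

theorem Filt.chain (h : Filt F σ) (hfin : ∀ m, FiniteDimensional κ (F m)) {p : ℕ}
    [hp : Fact p.Prime] [CharP κ p]
    (halg : Algebra.IsAlgebraic (Algebra.adjoin κ (symSet F σ ⊤)) E) {r C₀ : ℕ}
    (hr : Algebra.trdeg κ E = r) (hgr : ∀ m, finrank κ (F m) ≤ C₀ * (m + 1) ^ r)
    (N : ℕ) (B : ℕ → Subalgebra κ A) (hB0 : ∀ x ∈ B 0, ∀ y ∈ B 0, x * y = y * x)
    (hle : ∀ i < N, B i ≤ B (i + 1)) (hrk : ∀ i < N, rk F σ (B (i + 1)) ≤ rk F σ (B i) + 1) :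
    ∀ i ≤ N, ∀ n : ℕ, rk F σ (B i) = n → CommFam F σ (B i) n := by
  intro i
  induction i with
  | zero =>
    intro _ n hn
    obtain ⟨w, dw, hw1, hw2, hw3⟩ := exists_fam ⟨h.nz, h⟩ (B 0) n hn.ge
    exact ⟨w, dw, hw1, hw2, fun i j => hB0 _ (hw1 i) _ (hw1 j), hw3⟩
  | succ i ih =>
    intro hi n hn
    have hfinrk : rk F σ (B i) < Cardinal.aleph0 := by
      refine lt_of_le_of_lt (rk_le_trdeg _) ?_
      rw [hr]
      exact Cardinal.natCast_lt_aleph0
    obtain ⟨n', hn'⟩ := Cardinal.lt_aleph0.1 hfinrk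
    have h1 := rk_mono (F := F) (σ := σ) (hle i (by omega))
    have h2 := hrk i (by omega)
    rw [hn, hn'] at h1 h2
    have h1' : n' ≤ n := by exact_mod_cast h1
    have h2' : n ≤ n' + 1 := by exact_mod_cast h2
    have hC := ih (by omega) n' hn'
    rcases Nat.lt_or_ge n' n with hlt | hge
    · obtain rfl : n = n' + 1 := by omega
      obtain ⟨w, dw, hw1, hw2, hw3, hw4⟩ := hC
      obtain ⟨x, hxB, d, hxF, hxc, hind⟩ := h.chain_step hfin halg hr hgr (B (i + 1)) (n := n')
        hn.le (by rw [hn]; exact_mod_cast Nat.lt_succ_self n') w dw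
        (fun j => hle i (by omega) (hw1 j)) hw2 hw3 hw4
      refine ⟨Fin.cons x w, Fin.cons d dw, fun j => ?_, fun j => ?_, fun j k => ?_,
        algInd_cons hind⟩
      · refine Fin.cases ?_ (fun j => ?_) j
        · simpa using hxB
        · simpa using hle i (by omega) (hw1 j)
      · refine Fin.cases ?_ (fun j => ?_) j
        · simpa using hxF
        · simpa using hw2 j
      · refine Fin.cases ?_ (fun j => ?_) j <;> refine Fin.cases ?_ (fun k => ?_) k
        · exact Commute.refl _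
        · simpa using (hxc k).symm
        · simpa using hxc j
        · simpa using hw3 j k
    · obtain rfl : n = n' := by omega
      exact hC.mono (hle i (by omega))

end FD29
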