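import Mathlib

/-!
# Growth of finitely generated commutative domains
-/

set_option autoImplicit false

namespace FD29

open Finset Module

section W

variable {κ G : Type} [Field κ] [CommRing G] [Algebra κ G] {s N : ℕ}

/-- the box of exponents -/
def bx (s D : ℕ) : Finset (Fin s → ℕ) := Fintype.piFinset fun _ => range (D + 1)

theorem mem_bx {s D : ℕ} {J : Fin s → ℕ} : J ∈ bx s D ↔ ∀ i, J i ≤ D := by
  rw [bx, Fintype.mem_piFinset]
  exact forall_congr' fun i => by rw [mem_range, Nat.lt_succ_iff]

/-- span of `y^J e_j`, `J` in a box -/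
def W (κ : Type) {G : Type} [Field κ] [CommRing G] [Algebra κ G] {s N : ℕ} (y : Fin s → G)
    (e : Fin N → G) (D : ℕ) : Submodule κ G :=
  Submodule.span κ (Set.range fun P : (bx s D) × Fin N => (∏ i, y i ^ (P.1 : Fin s → ℕ) i) * e P.2)

theorem W_mono (y : Fin s → G) (e : Fin N → G) : Monotone (W κ y e) := by
  intro D D' h
  refine Submodule.span_mono ?_
  rintro _ ⟨⟨⟨J, hJ⟩, j⟩, rfl⟩
  exact ⟨⟨⟨J, mem_bx.2 fun i => (mem_bx.1 hJ i).trans h⟩, j⟩, rfl⟩

theorem mem_W (y : Fin s → G) (e : Fin N → G) {D : ℕ} {J : Fin s → ℕ} (hJ : ∀ i, J i ≤ D)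
    (j : Fin N) : (∏ i, y i ^ J i) * e j ∈ W κ y e D :=
  Submodule.subset_span ⟨⟨⟨J, mem_bx.2 hJ⟩, j⟩, rfl⟩

theorem finrank_W (y : Fin s → G) (e : Fin N → G) (D : ℕ) :
    finrank κ (W κ y e D) ≤ (D + 1) ^ s * N := by
  have h := finrank_range_le_card (R := κ)
    (fun P : (bx s D) × Fin N => (∏ i, y i ^ (P.1 : Fin s → ℕ) i) * e P.2)
  rw [Set.finrank, Fintype.card_prod, Fintype.card_fin, Fintype.card_coe, bx,
    Fintype.card_piFinset_const, card_range] at h
  exact h

theorem mul_W (y : Fin s → G) (e : Fin N → G) {v : G} {c : ℕ} (hv : ∀ j, v * e j ∈ W κ y e c)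
    {D : ℕ} {x : G} (hx : x ∈ W κ y e D) : v * x ∈ W κ y e (D + c) := by
  refine Submodule.span_induction (p := fun x _ => v * x ∈ W κ y e (D + c)) ?_ ?_ ?_ ?_ hx
  · rintro _ ⟨⟨⟨J, hJ⟩, j⟩, rfl⟩
    have hJ' := mem_bx.1 hJ
    have h1 : ∀ z ∈ W κ y e c, (∏ i, y i ^ J i) * z ∈ W κ y e (D + c) := by
      intro z hz
      refine Submodule.span_induction (p := fun z _ => (∏ i, y i ^ J i) * z ∈ W κ y e (D + c))
        ?_ ?_ ?_ ?_ hz
      · rintro _ ⟨⟨⟨J', hJ2⟩, j'⟩, rfl⟩
        have hJ2' := mem_bx.1 hJ2
        have e1 : (∏ i, y i ^ J i) * ((∏ i, y i ^ J' i) * e j') =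
            (∏ i, y i ^ (J i + J' i)) * e j' := by
          rw [← mul_assoc, ← Finset.prod_mul_distrib]
          simp only [pow_add]
        simp only
        rw [e1]
        exact mem_W y e (J := fun i => J i + J' i) (fun i => Nat.add_le_add (hJ' i) (hJ2' i)) j'
      · rw [mul_zero]
        exact Submodule.zero_mem _
      · intro a b _ _ ha hb
        rw [mul_add]
        exact Submodule.add_mem _ ha hb
      · intro t a _ ha
        rw [mul_smul_comm]
        exact Submodule.smul_mem _ _ ha
    have h2 := h1 _ (hv j)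
    have e1 : v * ((∏ i, y i ^ J i) * e j) = (∏ i, y i ^ J i) * (v * e j) := by ring
    simp only
    rw [e1]
    exact h2
  · rw [mul_zero]
    exact Submodule.zero_mem _
  · intro a b _ _ ha hb
    rw [mul_add]
    exact Submodule.add_mem _ ha hb
  · intro t a _ ha
    rw [mul_smul_comm]
    exact Submodule.smul_mem _ _ ha

theorem growth_W (y : Fin s → G) (e : Fin N → G) (hspan : ∀ x : G, ∃ D, x ∈ W κ y e D)
    (V : Submodule κ G) (hV : V.FG) : ∃ C, ∀ m, finrank κ ↥(V ^ m) ≤ C * (m + 1) ^ s := by
  classical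
  obtain ⟨S₀, hS₀⟩ := hV
  choose D hD using hspan
  set c := max (D 1) (S₀.sup fun v => Finset.univ.sup fun j => D (v * e j)) with hc
  have hc1 : (1 : G) ∈ W κ y e c := W_mono y e (le_max_left _ _) (hD 1)
  have hc2 : ∀ v ∈ S₀, ∀ j, v * e j ∈ W κ y e c := by
    intro v hv j
    refine W_mono y e ?_ (hD (v * e j))
    refine le_trans ?_ (le_max_right _ _)
    refine le_trans ?_ (Finset.le_sup (f := fun v => Finset.univ.sup fun j => D (v * e j)) hv)
    exact Finset.le_sup (f := fun j => D (v * e j)) (Finset.mem_univ j)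
  have key : ∀ m, V ^ m ≤ W κ y e (c * (m + 1)) := by
    intro m
    induction m with
    | zero =>
      rw [pow_zero, Submodule.one_le]
      simpa using hc1
    | succ m ih =>
      rw [pow_succ', Submodule.mul_le]
      intro v hv x hx
      have h1 : c * (m + 1 + 1) = c * (m + 1) + c := by ring
      rw [h1]
      rw [← hS₀] at hv
      refine Submodule.span_induction (p := fun v _ => v * x ∈ W κ y e (c * (m + 1) + c))
        ?_ ?_ ?_ ?_ hv
      · intro v hv
        exact mul_W y e (hc2 v hv) (ih hx)
      · rw [zero_mul]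
        exact Submodule.zero_mem _
      · intro a b _ _ ha hb
        rw [add_mul]
        exact Submodule.add_mem _ ha hb
      · intro t a _ ha
        rw [smul_mul_assoc]
        exact Submodule.smul_mem _ _ ha
  refine ⟨(c + 1) ^ s * N, fun m => ?_⟩
  haveI : FiniteDimensional κ (W κ y e (c * (m + 1))) :=
    FiniteDimensional.span_of_finite κ (Set.finite_range _)
  calc finrank κ ↥(V ^ m) ≤ finrank κ (W κ y e (c * (m + 1))) := Submodule.finrank_mono (key m)
    _ ≤ (c * (m + 1) + 1) ^ s * N := finrank_W y e _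
    _ ≤ ((c + 1) * (m + 1)) ^ s * N := by
        gcongr
        have : (c + 1) * (m + 1) = c * (m + 1) + (m + 1) := by ring
        omega
    _ = _ := by rw [mul_pow]; ring

end W

/-- growth of finitely generated commutative domains -/
theorem growth_comm {κ G : Type} [Field κ] [CommRing G] [IsDomain G] [Algebra κ G]
    [Algebra.FiniteType κ G] {r : ℕ} (hr : Algebra.trdeg κ G = r) (V : Submodule κ G)
    (hV : V.FG) : ∃ C, ∀ m, finrank κ ↥(V ^ m) ≤ C * (m + 1) ^ r := by
  classical
  obtain ⟨s, g, hg, hgf⟩ := exists_finite_inj_algHom_of_fg κ G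
  letI : Algebra (MvPolynomial (Fin s) κ) G := g.toRingHom.toAlgebra
  haveI : IsScalarTower κ (MvPolynomial (Fin s) κ) G :=
    IsScalarTower.of_algebraMap_eq fun x => (g.commutes x).symm
  haveI hfin : Module.Finite (MvPolynomial (Fin s) κ) G := hgf
  have hind : AlgebraicIndependent κ (fun i : Fin s => g (MvPolynomial.X i)) := by
    have h1 : (MvPolynomial.aeval fun i : Fin s => g (MvPolynomial.X i)) = g := by
      ext i
      simp
    rw [AlgebraicIndependent, h1]
    exact hg
  have hs : s = r := by
    haveI : Algebra.IsAlgebraic (Algebra.adjoin κ (Set.range fun i : Fin s =>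
        g (MvPolynomial.X i))) G := by
      refine ⟨fun x => ?_⟩
      have hx : IsAlgebraic (MvPolynomial (Fin s) κ) x :=
        (Algebra.IsIntegral.isIntegral x).isAlgebraic
      have hmem : ∀ t : MvPolynomial (Fin s) κ, g t ∈ Algebra.adjoin κ
          (Set.range fun i : Fin s => g (MvPolynomial.X i)) := by
        intro t
        have h1 : (MvPolynomial.aeval fun i : Fin s => g (MvPolynomial.X i)) = g := by
          ext i
          simp
        have h2 : g t = MvPolynomial.aeval (fun i : Fin s => g (MvPolynomial.X i)) t := by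
          rw [h1]
        rw [h2, Algebra.adjoin_range_eq_range_aeval]
        exact ⟨t, rfl⟩
      letI : Algebra (MvPolynomial (Fin s) κ) (Algebra.adjoin κ
          (Set.range fun i : Fin s => g (MvPolynomial.X i))) :=
        RingHom.toAlgebra
          { toFun := fun t => ⟨g t, hmem t⟩
            map_one' := Subtype.ext (map_one g)
            map_mul' := fun a b => Subtype.ext (map_mul g a b)
            map_zero' := Subtype.ext (map_zero g)
            map_add' := fun a b => Subtype.ext (map_add g a b) }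
      haveI : IsScalarTower (MvPolynomial (Fin s) κ) (Algebra.adjoin κ
          (Set.range fun i : Fin s => g (MvPolynomial.X i))) G :=
        IsScalarTower.of_algebraMap_eq fun _ => rfl
      exact hx.extendScalars (fun a b hab => hg (congrArg Subtype.val hab))
    have h1 := (isTranscendenceBasis_iff_algebraicIndependent_isAlgebraic.2
      ⟨hind, this⟩).cardinalMk_eq_trdeg
    rw [hr, Cardinal.mk_fin] at h1
    exact_mod_cast h1
  subst hs
  obtain ⟨N, e, he⟩ := Module.Finite.exists_fin (R := MvPolynomial (Fin s) κ) (M := G)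
  refine growth_W (fun i => g (MvPolynomial.X i)) e (fun x => ?_) V hV
  have hx : x ∈ Submodule.span (MvPolynomial (Fin s) κ) (Set.range e) := by
    rw [he]
    exact Submodule.mem_top
  rw [Submodule.mem_span_range_iff_exists_fun] at hx
  obtain ⟨c, rfl⟩ := hx
  -- each summand
  have hone : ∀ j, ∃ D, c j • e j ∈ W κ (fun i => g (MvPolynomial.X i)) e D := by
    intro j
    refine ⟨(c j).support.sup fun J => Finset.univ.sup fun i => J i, ?_⟩
    have e1 : c j • e j = ∑ J ∈ (c j).support,
        (c j).coeff J • ((∏ i, g (MvPolynomial.X i) ^ J i) * e j) := by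
      rw [Algebra.smul_def]
      change g (c j) * e j = _
      conv_lhs => rw [(c j).as_sum]
      rw [map_sum, Finset.sum_mul]
      refine Finset.sum_congr rfl fun J _ => ?_
      rw [MvPolynomial.monomial_eq, map_mul, Finsupp.prod_fintype _ _ (fun i => pow_zero _),
        map_prod, ← MvPolynomial.algebraMap_eq, AlgHom.commutes, Algebra.smul_def, mul_assoc]
      simp only [map_pow]
    rw [e1]
    refine Submodule.sum_mem _ fun J hJ => Submodule.smul_mem _ _ ?_
    refine mem_W _ e (J := fun i => J i) (fun i => ?_) j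
    exact (Finset.le_sup (f := fun i => J i) (Finset.mem_univ i)).trans
      (Finset.le_sup (f := fun J : Fin s →₀ ℕ => Finset.univ.sup fun i => J i) hJ)
  choose D hD using hone
  refine ⟨Finset.univ.sup D, Submodule.sum_mem _ fun j _ => ?_⟩
  exact W_mono _ e (Finset.le_sup (Finset.mem_univ j)) (hD j)

end FD29
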