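import Pool.Agent.FD29.Growth
import Pool.Agent.FD29.Basic

/-!
# Growth of the filtered algebra
-/

set_option autoImplicit false

namespace FD29

open Finset Module

theorem growth_comm' {κ E : Type} [Field κ] [CommRing E] [IsDomain E] [Algebra κ E] {r : ℕ}
    (hr : Algebra.trdeg κ E = r) (V : Submodule κ E) (hV : V.FG) :
    ∃ C, ∀ m, finrank κ ↥(V ^ m) ≤ C * (m + 1) ^ r := by
  classical
  obtain ⟨S₀, hS₀⟩ := hV
  set G := Algebra.adjoin κ (S₀ : Set E) with hG
  haveI : Algebra.FiniteType κ G :=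
    (Subalgebra.fg_iff_finiteType G).1 (Subalgebra.fg_adjoin_finset S₀)
  have hle : Algebra.trdeg κ G ≤ r := by
    rw [← hr]
    exact trdeg_le_of_injective G.val Subtype.val_injective
  obtain ⟨r', hr'⟩ := Cardinal.lt_aleph0.1 (lt_of_le_of_lt hle Cardinal.natCast_lt_aleph0)
  have hrr : r' ≤ r := by
    rw [hr'] at hle
    exact_mod_cast hle
  set V' : Submodule κ G := Submodule.span κ (Set.range fun v : S₀ =>
    (⟨v, Algebra.subset_adjoin v.2⟩ : G)) with hV'
  have hmap : V'.map G.val.toLinearMap = V := by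
    rw [hV', Submodule.map_span, ← hS₀]
    congr 1
    ext x
    constructor
    · rintro ⟨_, ⟨v, rfl⟩, rfl⟩
      exact v.2
    · intro hx
      exact ⟨_, ⟨⟨x, hx⟩, rfl⟩, rfl⟩
  obtain ⟨C, hC⟩ := growth_comm hr' V' (Submodule.fg_span (Set.finite_range _))
  have hpow : ∀ m, (V' ^ m).map G.val.toLinearMap = V ^ m := by
    intro m
    rw [← hmap, Submodule.map_pow]
  refine ⟨C, fun m => ?_⟩
  haveI : FiniteDimensional κ ↥(V' ^ m) := by
    refine Module.Finite.iff_fg.2 (Submodule.FG.pow (Submodule.fg_span (Set.finite_range _)) m)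
  calc finrank κ ↥(V ^ m) = finrank κ ↥((V' ^ m).map G.val.toLinearMap) := by rw [hpow]
    _ ≤ finrank κ ↥(V' ^ m) := Submodule.finrank_map_le _ _
    _ ≤ C * (m + 1) ^ r' := hC m
    _ ≤ C * (m + 1) ^ r := Nat.mul_le_mul_left _ (Nat.pow_le_pow_right (by omega) hrr)

variable {κ E A : Type} [Field κ] [CommRing E] [IsDomain E] [Algebra κ E] [Ring A] [Algebra κ A]
  {F : ℕ → Submodule κ A} {σ : ℕ → A → E}

namespace Filt

/-- the symbol as a linear map -/
def tau (h : Filt F σ) (i : ℕ) : F i →ₗ[κ] E where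
  toFun := fun a => σ i a
  map_add' := fun a b => h.add i a b a.2 b.2
  map_smul' := fun c a => h.smul i c a a.2

/-- sums of symbols -/
def U (h : Filt F σ) : ℕ → Submodule κ E
  | 0 => LinearMap.range (h.tau 0)
  | m + 1 => h.U m ⊔ LinearMap.range (h.tau (m + 1))

theorem mem_U (h : Filt F σ) (m : ℕ) {x : E} (hx : x ∈ h.U m) :
    ∃ a : ℕ → A, (∀ i, a i ∈ F i) ∧ x = ∑ i ∈ range (m + 1), σ i (a i) := by
  induction m generalizing x with
  | zero =>
    obtain ⟨a, rfl⟩ := hx
    refine ⟨fun i => if i = 0 then a else 0, fun i => ?_, ?_⟩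
    · by_cases hi : i = 0
      · subst hi
        simp
      · simp only [hi, if_false]
        exact Submodule.zero_mem _
    · simp [tau]
  | succ m ih =>
    obtain ⟨u, hu, _, ⟨b, rfl⟩, rfl⟩ := Submodule.mem_sup.1 hx
    obtain ⟨a, ha, hua⟩ := ih hu
    refine ⟨fun i => if i = m + 1 then b else a i, fun i => ?_, ?_⟩
    · by_cases hi : i = m + 1
      · subst hi
        simp
      · simp only [hi, if_false]
        exact ha i
    · rw [Finset.sum_range_succ, hua]
      simp only [if_true]
      congr 1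
      refine Finset.sum_congr rfl fun i hi => ?_
      have := mem_range.1 hi
      rw [if_neg (by omega)]

theorem finrank_succ (h : Filt F σ) (hfin : ∀ m, FiniteDimensional κ (F m)) (m : ℕ) :
    finrank κ (F (m + 1)) = finrank κ (LinearMap.range (h.tau (m + 1))) + finrank κ (F m) := by
  haveI := hfin (m + 1)
  have h1 := LinearMap.finrank_range_add_finrank_ker (h.tau (m + 1))
  rw [← h1]
  congr 1
  have h2 : (LinearMap.ker (h.tau (m + 1))).map (F (m + 1)).subtype = F m := by
    ext x
    constructor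
    · rintro ⟨y, hy, rfl⟩
      exact (h.ker m y y.2).1 hy
    · intro hx
      have hx' := h.mono (Nat.le_succ m) hx
      exact ⟨⟨x, hx'⟩, (h.ker m x hx').2 hx, rfl⟩
  rw [← Submodule.finrank_map_subtype_eq, h2]

theorem finrank_eq_U (h : Filt F σ) (hfin : ∀ m, FiniteDimensional κ (F m))
    (hgrad : ∀ (m : ℕ) (a : ℕ → A), (∀ i, a i ∈ F i) → ∑ i ∈ range (m + 1), σ i (a i) = 0 →
      ∀ i ≤ m, σ i (a i) = 0) (m : ℕ) :
    FiniteDimensional κ (h.U m) ∧ finrank κ (F m) = finrank κ (h.U m) := by
  induction m with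
  | zero =>
    haveI := hfin 0
    have hker : LinearMap.ker (h.tau 0) = ⊥ := by
      rw [LinearMap.ker_eq_bot']
      intro a ha
      exact Subtype.ext (h.inj a a.2 ha)
    refine ⟨?_, ?_⟩
    · show FiniteDimensional κ (LinearMap.range (h.tau 0))
      infer_instance
    · show finrank κ (F 0) = finrank κ (LinearMap.range (h.tau 0))
      rw [LinearMap.finrank_range_of_inj (LinearMap.ker_eq_bot.1 hker)]
  | succ m ih =>
    obtain ⟨ih1, ih2⟩ := ih
    haveI := hfin (m + 1)
    refine ⟨?_, ?_⟩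
    · show FiniteDimensional κ ↥(h.U m ⊔ LinearMap.range (h.tau (m + 1)))
      infer_instance
    · rw [h.finrank_succ hfin, ih2]
      show _ = finrank κ ↥(h.U m ⊔ LinearMap.range (h.tau (m + 1)))
      have h1 := Submodule.finrank_sup_add_finrank_inf_eq (h.U m)
        (LinearMap.range (h.tau (m + 1)))
      have h2 : h.U m ⊓ LinearMap.range (h.tau (m + 1)) = ⊥ := by
        rw [eq_bot_iff]
        rintro x ⟨hx1, ⟨b, hb⟩⟩
        obtain ⟨a, ha, hxa⟩ := h.mem_U m hx1
        have h3 := hgrad (m + 1) (fun i => if i = m + 1 then -(b : A) else a i) (fun i => ?_) ?_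
          (m + 1) le_rfl
        · simp only [if_true] at h3
          rw [h.sym_neg _ _ b.2, neg_eq_zero] at h3
          rw [Submodule.mem_bot, ← hb]
          exact h3
        · by_cases hi : i = m + 1
          · subst hi
            simp
          · simp only [hi, if_false]
            exact ha i
        · rw [Finset.sum_range_succ]
          simp only [if_true]
          rw [h.sym_neg _ _ b.2]
          have h4 : ∑ i ∈ range (m + 1), σ i (if i = m + 1 then -(b : A) else a i) = x := by
            rw [hxa]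
            refine Finset.sum_congr rfl fun i hi => ?_
            have := mem_range.1 hi
            rw [if_neg (by omega)]
          rw [h4, ← hb]
          exact add_neg_cancel _
      rw [h2, finrank_bot, add_zero] at h1
      rw [h1]
      ring

/-- growth of the filtered algebra -/
theorem growth (h : Filt F σ) (hfin : ∀ m, FiniteDimensional κ (F m))
    (hgrad : ∀ (m : ℕ) (a : ℕ → A), (∀ i, a i ∈ F i) → ∑ i ∈ range (m + 1), σ i (a i) = 0 →
      ∀ i ≤ m, σ i (a i) = 0) {r : ℕ} (hr : Algebra.trdeg κ E = r) (V : Submodule κ E)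
    (hV : V.FG) (hone : (1 : E) ∈ V) (hFV : ∀ i, ∀ a ∈ F i, σ i a ∈ V ^ (i + 1)) :
    ∃ C, ∀ m, finrank κ (F m) ≤ C * (m + 1) ^ r := by
  obtain ⟨C, hC⟩ := growth_comm' hr V hV
  have hmono : Monotone fun m : ℕ => V ^ m := by
    refine monotone_nat_of_le_succ fun m => ?_
    intro x hx
    rw [pow_succ]
    have := Submodule.mul_mem_mul hx hone
    rwa [mul_one] at this
  have hU : ∀ m, h.U m ≤ V ^ (m + 1) := by
    intro m
    induction m with
    | zero =>
      rintro _ ⟨a, rfl⟩
      exact hFV 0 a a.2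
    | succ m ih =>
      refine sup_le (ih.trans (hmono (Nat.le_succ _))) ?_
      rintro _ ⟨a, rfl⟩
      exact hFV (m + 1) a a.2
  refine ⟨C * 2 ^ r, fun m => ?_⟩
  haveI : FiniteDimensional κ ↥(V ^ (m + 1)) := Module.Finite.iff_fg.2 (hV.pow _)
  calc finrank κ (F m) = finrank κ (h.U m) := (h.finrank_eq_U hfin hgrad m).2
    _ ≤ finrank κ ↥(V ^ (m + 1)) := Submodule.finrank_mono (hU m)
    _ ≤ C * (m + 1 + 1) ^ r := hC _
    _ ≤ C * (2 * (m + 1)) ^ r := by gcongr; omega
    _ = _ := by rw [mul_pow]; ring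

end Filt

end FD29
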