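import Pool.Agent.FD29.Mono

/-!
# The main inequality

Conservation of degree for the operator `b ↦ b a - a b` on a subalgebra `B`, compared with the
large drops on the elements `w^J x^i`, `i` divisible by a large power of `p`.
-/

set_option autoImplicit false

namespace FD29

open Finset Module

variable {κ E A : Type} [Field κ] [CommRing E] [IsDomain E] [Algebra κ E] [Ring A] [Algebra κ A]
  {F : ℕ → Submodule κ A} {σ : ℕ → A → E}

/-- the operator `b ↦ b a - a b` -/
noncomputable def adR (κ : Type) {A : Type} [Field κ] [Ring A] [Algebra κ A] (a : A) : A →ₗ[κ] A :=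
  LinearMap.mulRight κ a - LinearMap.mulLeft κ a

theorem adR_apply (a b : A) : adR κ a b = b * a - a * b := rfl

namespace Filt

theorem step_ineq (h : Filt F σ) (hfin : ∀ m, FiniteDimensional κ (F m)) {p : ℕ}
    [Fact p.Prime] [CharP κ p] (B : Subalgebra κ A) (a : A) (e : ℕ) (haB : a ∈ B) (hae : a ∈ F e)
    {n : ℕ} (w : Fin n → A) (dw : Fin n → ℕ) (hwB : ∀ i, w i ∈ B) (hwF : ∀ i, w i ∈ F (dw i))
    (hwa : ∀ i, Commute (w i) a) (x : A) (d : ℕ) (hxB : x ∈ B) (hxF : x ∈ F (d + 1))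
    (hind : AlgebraicIndependent κ (fun o : Option (Fin n) =>
      o.elim (σ (d + 1) x) (fun i => σ (dw i) (w i))))
    (Q : Finset ((Fin n → ℕ) × ℕ)) (X m : ℕ) (hm : m < X)
    (hQ : ∀ P ∈ Q, 1 ≤ P.2 ∧ m < ∑ i, P.1 i * dw i + P.2 * (d + 1) ∧
      ∑ i, P.1 i * dw i + P.2 * (d + 1) ≤ m + p ^ padicValNat p P.2 ∧
      ∑ i, P.1 i * dw i + P.2 * (d + 1) ≤ X) :
    finrank κ ↥(Subalgebra.toSubmodule B ⊓ F m) + Q.card ≤
      finrank κ ↥(Subalgebra.toSubmodule B ⊓ F (m + e)) +
      finrank κ ↥(Subalgebra.toSubmodule B ⊓ LinearMap.ker (adR κ a) ⊓ F (2 * X)) := by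
  classical
  set b : (Fin n → ℕ) × ℕ → A := fun P => mon w P.1 * x ^ P.2 with hb
  set δ : (Fin n → ℕ) × ℕ → ℕ := fun P => ∑ i, P.1 i * dw i + P.2 * (d + 1) with hδ
  have hbF : ∀ P, b P ∈ F (δ P) := fun P => h.mul _ _ _ _ (h.mon_mem w dw P.1 hwF) (h.pow_mem hxF _)
  have hbB : ∀ P, b P ∈ B := fun P => B.mul_mem (mon_mem_sub B w P.1 hwB) (B.pow_mem hxB _)
  have hsym : ∀ P, σ (δ P) (b P) = (∏ i, σ (dw i) (w i) ^ P.1 i) * σ (d + 1) x ^ P.2 := by
    intro P
    simp only [hb, hδ]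
    rw [h.sym_mul _ _ _ _ (h.mon_mem w dw P.1 hwF) (h.pow_mem hxF _), h.mon_sym w dw P.1 hwF,
      h.sym_pow hxF]
  have hli : LinearIndependent κ (fun P : (Fin n → ℕ) × ℕ => σ (δ P) (b P)) := by
    have h1 := linearIndependent_monomials hind
    have h2 := h1.comp (fun P : (Fin n → ℕ) × ℕ => fun o : Option (Fin n) => o.elim P.2 P.1) (by
      intro P P' hPP
      have h3 := congrFun hPP none
      have h4 : P.1 = P'.1 := funext fun i => congrFun hPP (some i)
      exact Prod.ext h4 h3)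
    convert! h2 using 1
    ext P
    rw [hsym P]
    simp only [Function.comp_apply, Fintype.prod_option, Option.elim_none, Option.elim_some]
    rw [mul_comm]
  have hliQ : LinearIndepOn κ (fun P => σ (δ P) (b P)) (Q : Set ((Fin n → ℕ) × ℕ)) :=
    (linearIndepOn_univ.2 hli).mono (Set.subset_univ _)
  have hadd := h.card_add_le hfin (Subalgebra.toSubmodule B) m Q b δ (fun P _ => hbF P) hliQ
    (fun P hP => (hQ P hP).2.1)
  set S : Submodule κ A := (Subalgebra.toSubmodule B ⊓ F m) ⊔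
    Submodule.span κ (b '' (Q : Set ((Fin n → ℕ) × ℕ))) with hS
  have hSB : S ≤ Subalgebra.toSubmodule B := by
    rw [hS]
    refine sup_le inf_le_left (Submodule.span_le.2 ?_)
    rintro _ ⟨P, _, rfl⟩
    exact hbB P
  have hSF : S ≤ F (2 * X) := by
    rw [hS]
    refine sup_le (inf_le_right.trans (h.mono (by omega))) (Submodule.span_le.2 ?_)
    rintro _ ⟨P, hP, rfl⟩
    have h1 := (hQ P hP).2.2.2
    have h2 : δ P ≤ 2 * X := by
      simp only [hδ]
      omega
    exact h.mono h2 (hbF P)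
  haveI : FiniteDimensional κ (F (2 * X)) := hfin _
  haveI : FiniteDimensional κ (F (m + e)) := hfin _
  haveI : FiniteDimensional κ S := Submodule.finiteDimensional_of_le hSF
  have hrank := finrank_map_add_ker (adR κ a) S
  -- the kernel
  have hker : finrank κ ↥(S ⊓ LinearMap.ker (adR κ a)) ≤
      finrank κ ↥(Subalgebra.toSubmodule B ⊓ LinearMap.ker (adR κ a) ⊓ F (2 * X)) := by
    haveI : FiniteDimensional κ
        ↥(Subalgebra.toSubmodule B ⊓ LinearMap.ker (adR κ a) ⊓ F (2 * X)) :=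
      Submodule.finiteDimensional_of_le inf_le_right
    refine Submodule.finrank_mono ?_
    exact le_inf (le_inf (inf_le_left.trans hSB) inf_le_right) (inf_le_left.trans hSF)
  -- the image
  have himg : finrank κ ↥(S.map (adR κ a)) ≤
      finrank κ ↥(Subalgebra.toSubmodule B ⊓ F (m + e)) := by
    haveI : FiniteDimensional κ ↥(Subalgebra.toSubmodule B ⊓ F (m + e)) :=
      Submodule.finiteDimensional_of_le inf_le_right
    refine Submodule.finrank_mono ?_
    rw [Submodule.map_le_iff_le_comap, hS]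
    refine sup_le ?_ (Submodule.span_le.2 ?_)
    · rintro y ⟨hyB, hyF⟩
      refine ⟨?_, ?_⟩
      · change y * a - a * y ∈ B
        exact B.sub_mem (B.mul_mem hyB haB) (B.mul_mem haB hyB)
      · change y * a - a * y ∈ F (m + e)
        refine Submodule.sub_mem _ (h.mul _ _ _ _ hyF hae) ?_
        rw [add_comm]
        exact h.mul _ _ _ _ hae hyF
    · rintro _ ⟨P, hP, rfl⟩
      refine ⟨?_, ?_⟩
      · change b P * a - a * b P ∈ B
        exact B.sub_mem (B.mul_mem (hbB P) haB) (B.mul_mem haB (hbB P))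
      change mon w P.1 * x ^ P.2 * a - a * (mon w P.1 * x ^ P.2) ∈ F (m + e)
      obtain ⟨hP1, -, hP3, -⟩ := hQ P hP
      have hc := (mon_commute w P.1 a hwa).eq
      have e1 : mon w P.1 * x ^ P.2 * a - a * (mon w P.1 * x ^ P.2) =
          mon w P.1 * (x ^ P.2 * a - a * x ^ P.2) := by
        rw [mul_sub, ← mul_assoc, ← mul_assoc, ← mul_assoc, hc]
      rw [e1]
      set v := padicValNat p P.2 with hv
      obtain ⟨j, hj⟩ : p ^ v ∣ P.2 := pow_padicValNat_dvd
      have hj0 : 1 ≤ j := by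
        rcases Nat.eq_zero_or_pos j with rfl | hj0
        · omega
        · exact hj0
      obtain ⟨k, hk⟩ : ∃ k, j * (d + 1) = k + 1 := ⟨j * (d + 1) - 1, by
        have : 0 < j * (d + 1) := by positivity
        omega⟩
      have hxj : x ^ j ∈ F (k + 1) := by
        rw [← hk]
        exact h.pow_mem hxF j
      have h2 := h.pow_comm_mem (p := p) hxj hae v
      rw [← pow_mul, mul_comm j, ← hj] at h2
      have h3 := h.mul _ _ _ _ (h.mon_mem w dw P.1 hwF) h2
      refine h.mono ?_ h3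
      have h4 : P.2 * (d + 1) = p ^ v * k + p ^ v := by
        rw [hj, mul_assoc, hk]
        ring
      omega
  omega

theorem main_ineq (h : Filt F σ) (hfin : ∀ m, FiniteDimensional κ (F m)) {p : ℕ}
    [hp : Fact p.Prime] [CharP κ p] (B : Subalgebra κ A) (a : A) (e : ℕ) (haB : a ∈ B)
    (hae : a ∈ F e)
    {n : ℕ} (w : Fin n → A) (dw : Fin n → ℕ) (hwB : ∀ i, w i ∈ B) (hwF : ∀ i, w i ∈ F (dw i))
    (hwa : ∀ i, Commute (w i) a) (x : A) (d : ℕ) (hxB : x ∈ B) (hxF : x ∈ F (d + 1))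
    (hind : AlgebraicIndependent κ (fun o : Option (Fin n) =>
      o.elim (σ (d + 1) x) (fun i => σ (dw i) (w i)))) (N X : ℕ)
    (hX : X = p ^ N * (∑ i, dw i + (d + 1))) :
    (p ^ N) ^ n * (N * p ^ N) ≤ p *
      (e * finrank κ ↥(Subalgebra.toSubmodule B ⊓ F (X + e)) +
      X * finrank κ ↥(Subalgebra.toSubmodule B ⊓ LinearMap.ker (adR κ a) ⊓ F (2 * X))) := by
  classical
  have hp0 : 0 < p := hp.out.pos
  set H := p ^ N with hH
  set β : ℕ → ℕ := fun m => finrank κ ↥(Subalgebra.toSubmodule B ⊓ F m) with hβ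
  set ω := finrank κ ↥(Subalgebra.toSubmodule B ⊓ LinearMap.ker (adR κ a) ⊓ F (2 * X)) with hω
  have hβm : Monotone β := by
    intro m m' hmm
    haveI := hfin m'
    haveI : FiniteDimensional κ ↥(Subalgebra.toSubmodule B ⊓ F m') :=
      Submodule.finiteDimensional_of_le inf_le_right
    exact Submodule.finrank_mono (inf_le_inf_left _ (h.mono hmm))
  set Q : Finset ((Fin n → ℕ) × ℕ) :=
    (Fintype.piFinset fun _ => range H) ×ˢ Finset.Icc 1 H with hQ
  set δ : (Fin n → ℕ) × ℕ → ℕ := fun P => ∑ i, P.1 i * dw i + P.2 * (d + 1) with hδ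
  set g : (Fin n → ℕ) × ℕ → ℕ := fun P => p ^ padicValNat p P.2 with hg
  have hQ1 : ∀ P ∈ Q, 1 ≤ P.2 ∧ δ P ≤ X ∧ g P ≤ δ P ∧ 1 ≤ g P := by
    intro P hP
    rw [hQ, mem_product, Fintype.mem_piFinset, mem_Icc] at hP
    refine ⟨hP.2.1, ?_, ?_, Nat.one_le_pow _ _ hp0⟩
    · rw [hX, mul_add]
      refine Nat.add_le_add ?_ (Nat.mul_le_mul_right _ hP.2.2)
      rw [Finset.mul_sum]
      exact Finset.sum_le_sum fun i _ => Nat.mul_le_mul_right _ (mem_range.1 (hP.1 i)).le
    · have h1 : g P ≤ P.2 := Nat.le_of_dvd (by omega) pow_padicValNat_dvd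
      have h2 : P.2 ≤ P.2 * (d + 1) := Nat.le_mul_of_pos_right _ (by omega)
      simp only [hδ]
      omega
  have hstep : ∀ m ∈ range X, β m + (Q.filter (fun P => m < δ P ∧ δ P ≤ m + g P)).card ≤
      β (m + e) + ω := by
    intro m hm
    refine h.step_ineq hfin B a e haB hae w dw hwB hwF hwa x d hxB hxF hind _ X m
      (mem_range.1 hm) ?_
    intro P hP
    rw [mem_filter] at hP
    exact ⟨(hQ1 P hP.1).1, hP.2.1, hP.2.2, (hQ1 P hP.1).2.1⟩
  have hsum := Finset.sum_le_sum hstep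
  rw [Finset.sum_add_distrib, Finset.sum_add_distrib, Finset.sum_const, card_range,
    smul_eq_mul] at hsum
  have hcount : ∑ P ∈ Q, g P ≤
      ∑ m ∈ range X, (Q.filter (fun P => m < δ P ∧ δ P ≤ m + g P)).card := by
    have e1 : ∀ m, (Q.filter (fun P => m < δ P ∧ δ P ≤ m + g P)).card =
        ∑ P ∈ Q, if m < δ P ∧ δ P ≤ m + g P then 1 else 0 := fun m => by
      rw [Finset.card_filter]
    simp only [e1]
    rw [Finset.sum_comm]
    refine Finset.sum_le_sum fun P hP => ?_
    obtain ⟨-, h2, h3, h4⟩ := hQ1 P hP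
    rw [← Finset.card_filter]
    have hsub : Finset.Ico (δ P - g P) (δ P) ⊆
        (range X).filter (fun m => m < δ P ∧ δ P ≤ m + g P) := by
      intro m hm
      rw [mem_Ico] at hm
      rw [mem_filter, mem_range]
      omega
    have h5 := Finset.card_le_card hsub
    rw [Nat.card_Ico] at h5
    omega
  have hprod : ∑ P ∈ Q, g P = H ^ n * ∑ i ∈ Finset.Icc 1 H, p ^ padicValNat p i := by
    rw [hQ, Finset.sum_product]
    simp only [hg]
    rw [Finset.sum_const, Fintype.card_piFinset_const, card_range, smul_eq_mul]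
  have htel := sum_shift_le β hβm e X
  have hpp := sum_ppart p N
  have hfinal : ∑ P ∈ Q, g P ≤ e * β (X + e) + X * ω := by omega
  rw [hprod] at hfinal
  calc H ^ n * (N * H) ≤ H ^ n * (p * ∑ i ∈ Finset.Icc 1 H, p ^ padicValNat p i) :=
        Nat.mul_le_mul_left _ hpp
    _ = p * (H ^ n * ∑ i ∈ Finset.Icc 1 H, p ^ padicValNat p i) := by ring
    _ ≤ _ := Nat.mul_le_mul_left _ hfinal

end Filt

end FD29
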