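import Pool.Agent.FD29.Dim

/-!
# Ordered monomials
-/

set_option autoImplicit false

namespace FD29

open Finset Module

/-- monomials in an algebraically independent family are linearly independent -/
theorem linearIndependent_monomials {κ E ι : Type} [CommRing κ] [CommRing E] [Algebra κ E]
    [Fintype ι] {y : ι → E} (hy : AlgebraicIndependent κ y) :
    LinearIndependent κ (fun J : ι → ℕ => ∏ i, y i ^ J i) := by
  have h1 : LinearIndependent κ (fun s : ι →₀ ℕ => MvPolynomial.aeval y
      (MvPolynomial.monomial s (1 : κ))) := by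
    have h2 := (MvPolynomial.basisMonomials ι κ).linearIndependent
    have h3 := h2.map' (MvPolynomial.aeval y : MvPolynomial ι κ →ₐ[κ] E).toLinearMap
      (LinearMap.ker_eq_bot.2 hy)
    have e : (⇑(MvPolynomial.aeval y : MvPolynomial ι κ →ₐ[κ] E).toLinearMap ∘
        ⇑(MvPolynomial.basisMonomials ι κ)) = fun s : ι →₀ ℕ => MvPolynomial.aeval y
        (MvPolynomial.monomial s (1 : κ)) := by
      ext s
      simp
    rwa [e] at h3
  have h4 := h1.comp (fun J : ι → ℕ => Finsupp.equivFunOnFinite.symm J)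
    Finsupp.equivFunOnFinite.symm.injective
  convert! h4 using 1
  ext J
  simp only [Function.comp_apply, MvPolynomial.aeval_monomial, map_one, one_mul]
  rw [Finsupp.prod_fintype _ _ (fun i => pow_zero _)]
  rfl

variable {κ E A : Type} [Field κ] [CommRing E] [IsDomain E] [Algebra κ E] [Ring A] [Algebra κ A]
  {F : ℕ → Submodule κ A} {σ : ℕ → A → E}

/-- ordered monomial -/
def mon {n : ℕ} (w : Fin n → A) (J : Fin n → ℕ) : A := (List.ofFn fun i => w i ^ J i).prod

theorem mon_commute {n : ℕ} (w : Fin n → A) (J : Fin n → ℕ) (a : A)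
    (hw : ∀ i, Commute (w i) a) : Commute (mon w J) a := by
  refine (Commute.list_prod_right _ _ fun x hx => ?_).symm
  rw [List.mem_ofFn] at hx
  obtain ⟨i, rfl⟩ := hx
  exact ((hw i).pow_left _).symm

theorem mon_mem_sub {n : ℕ} (B : Subalgebra κ A) (w : Fin n → A) (J : Fin n → ℕ)
    (hw : ∀ i, w i ∈ B) : mon w J ∈ B := by
  refine list_prod_mem fun x hx => ?_
  rw [List.mem_ofFn] at hx
  obtain ⟨i, rfl⟩ := hx
  exact pow_mem (hw i) _

namespace Filt

theorem list_prod (h : Filt F σ) {n : ℕ} (g : Fin n → A) (d : Fin n → ℕ)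
    (hg : ∀ i, g i ∈ F (d i)) : (List.ofFn g).prod ∈ F (∑ i, d i) ∧
      σ (∑ i, d i) (List.ofFn g).prod = ∏ i, σ (d i) (g i) := by
  induction n with
  | zero => simpa using ⟨h.one, h.sym_one⟩
  | succ n ih =>
    obtain ⟨h1, h2⟩ := ih (fun i => g i.succ) (fun i => d i.succ) (fun i => hg i.succ)
    rw [List.ofFn_succ, List.prod_cons, Fin.sum_univ_succ, Fin.prod_univ_succ]
    refine ⟨h.mul _ _ _ _ (hg 0) h1, ?_⟩
    rw [h.sym_mul _ _ _ _ (hg 0) h1, h2]

theorem mon_mem (h : Filt F σ) {n : ℕ} (w : Fin n → A) (d : Fin n → ℕ) (J : Fin n → ℕ)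
    (hw : ∀ i, w i ∈ F (d i)) : mon w J ∈ F (∑ i, J i * d i) :=
  (h.list_prod (fun i => w i ^ J i) (fun i => J i * d i) (fun i => h.pow_mem (hw i) _)).1

theorem mon_sym (h : Filt F σ) {n : ℕ} (w : Fin n → A) (d : Fin n → ℕ) (J : Fin n → ℕ)
    (hw : ∀ i, w i ∈ F (d i)) :
    σ (∑ i, J i * d i) (mon w J) = ∏ i, σ (d i) (w i) ^ J i := by
  rw [mon, (h.list_prod (fun i => w i ^ J i) (fun i => J i * d i)
    (fun i => h.pow_mem (hw i) _)).2]
  exact Finset.prod_congr rfl fun i _ => h.sym_pow (hw i) _

/-- elements with algebraically independent symbols have positive degree if `F 0` is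
finite-dimensional -/
theorem deg_pos (h : Filt F σ) (hfin : ∀ m, FiniteDimensional κ (F m)) {x : A} {d : ℕ}
    (hx : x ∈ F d) (ht : Transcendental κ (σ d x)) : 0 < d := by
  rcases Nat.eq_zero_or_pos d with rfl | hd
  · exfalso
    haveI := hfin 0
    have hmem : ∀ i : ℕ, x ^ i ∈ F 0 := fun i => by
      have := h.pow_mem hx i
      rwa [mul_zero] at this
    have hsym : ∀ i : ℕ, σ 0 (x ^ i) = σ 0 x ^ i := fun i => by
      have := h.sym_pow hx i
      rwa [mul_zero] at this
    have hli : LinearIndependent κ (fun i : ℕ => (⟨x ^ i, hmem i⟩ : F 0)) := by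
      rw [linearIndependent_iff']
      intro s g hg i hi
      have h1 : ∑ i ∈ s, g i • x ^ i = 0 := by
        have := congrArg Subtype.val hg
        simpa using this
      have h2 : ∑ i ∈ s, g i • σ 0 x ^ i = 0 := by
        have h3 := congrArg (σ 0) h1
        rw [h.sym_zero, h.sym_sum 0 s _ fun j _ => Submodule.smul_mem _ _ (hmem j)] at h3
        rw [← h3]
        exact Finset.sum_congr rfl fun j _ => by rw [h.smul 0 _ _ (hmem j), hsym]
      by_contra hne
      apply ht
      refine ⟨∑ j ∈ s, Polynomial.monomial j (g j), fun h0 => hne ?_, ?_⟩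
      · have := congrArg (fun q => Polynomial.coeff q i) h0
        simpa [Polynomial.finsetSum_coeff, Polynomial.coeff_monomial, hi] using this
      · rw [map_sum, ← h2]
        exact Finset.sum_congr rfl fun j _ => by
          rw [Polynomial.aeval_monomial, Algebra.smul_def]
    exact (hli.finite_of_isNoetherian : Finite ℕ).not_infinite inferInstance
  · exact hd

end Filt

end FD29
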