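import Pool.Agent.FD29.MainIneq

/-!
# The rank of a subalgebra: transcendence degree of the algebra of symbols
-/

set_option autoImplicit false

namespace FD29

open Finset Module

variable {κ E A : Type} [Field κ] [CommRing E] [IsDomain E] [Algebra κ E] [Ring A] [Algebra κ A]

/-- the symbols of the elements of `B` -/
def symSet (F : ℕ → Submodule κ A) (σ : ℕ → A → E) (B : Subalgebra κ A) : Set E :=
  {y | ∃ i, ∃ b ∈ B, b ∈ F i ∧ y = σ i b}

/-- the algebra of symbols of `B` -/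
noncomputable def grB (F : ℕ → Submodule κ A) (σ : ℕ → A → E) (B : Subalgebra κ A) :
    Subalgebra κ E := Algebra.adjoin κ (symSet F σ B)

/-- the rank of `B` -/
noncomputable def rk (F : ℕ → Submodule κ A) (σ : ℕ → A → E) (B : Subalgebra κ A) : Cardinal :=
  Algebra.trdeg κ (grB F σ B)

variable {F : ℕ → Submodule κ A} {σ : ℕ → A → E}

theorem sym_mem_grB {B : Subalgebra κ A} {i : ℕ} {b : A} (hb : b ∈ B) (hF : b ∈ F i) :
    σ i b ∈ grB F σ B := Algebra.subset_adjoin ⟨i, b, hb, hF, rfl⟩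

theorem grB_mono {B B' : Subalgebra κ A} (h : B ≤ B') : grB F σ B ≤ grB F σ B' := by
  refine Algebra.adjoin_mono ?_
  rintro _ ⟨i, b, hb, hF, rfl⟩
  exact ⟨i, b, h hb, hF, rfl⟩

theorem rk_mono {B B' : Subalgebra κ A} (h : B ≤ B') : rk F σ B ≤ rk F σ B' :=
  trdeg_le_of_injective (Subalgebra.inclusion (grB_mono h)) (Subalgebra.inclusion_injective _)

theorem rk_le_trdeg (B : Subalgebra κ A) : rk F σ B ≤ Algebra.trdeg κ E :=
  trdeg_le_of_injective (grB F σ B).val Subtype.val_injective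

theorem le_rk {B : Subalgebra κ A} {n : ℕ} (w : Fin n → A) (dw : Fin n → ℕ) (hwB : ∀ i, w i ∈ B)
    (hwF : ∀ i, w i ∈ F (dw i)) (hind : AlgebraicIndependent κ (fun i => σ (dw i) (w i))) :
    (n : Cardinal) ≤ rk F σ B := by
  have h1 : AlgebraicIndependent κ
      (fun i => (⟨σ (dw i) (w i), sym_mem_grB (hwB i) (hwF i)⟩ : grB F σ B)) :=
    hind.of_comp (grB F σ B).val
  have h2 := h1.cardinalMk_le_trdeg
  rw [Cardinal.mk_fin] at h2
  exact h2

theorem exists_extend {B : Subalgebra κ A} {n : ℕ} (w : Fin n → A) (dw : Fin n → ℕ)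
    (hwB : ∀ i, w i ∈ B) (hwF : ∀ i, w i ∈ F (dw i))
    (hind : AlgebraicIndependent κ (fun i => σ (dw i) (w i))) (hn : (n : Cardinal) < rk F σ B) :
    ∃ x ∈ B, ∃ d, x ∈ F d ∧ AlgebraicIndependent κ (fun o : Option (Fin n) =>
      o.elim (σ d x) (fun i => σ (dw i) (w i))) := by
  classical
  set G := grB F σ B with hG
  set y : Fin n → G := fun i => ⟨σ (dw i) (w i), sym_mem_grB (hwB i) (hwF i)⟩ with hy
  have hyi : AlgebraicIndependent κ y := hind.of_comp G.val
  set t : Set G := (fun g : G => (g : E)) ⁻¹' symSet F σ B with ht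
  have htop : Algebra.adjoin κ t = ⊤ := Algebra.adjoin_adjoin_coe_preimage
  haveI : Algebra.IsAlgebraic (Algebra.adjoin κ t) G := by
    refine ⟨fun g => ?_⟩
    have hg : g ∈ Algebra.adjoin κ t := by
      rw [htop]
      exact Algebra.mem_top
    exact isAlgebraic_algebraMap (⟨g, hg⟩ : Algebra.adjoin κ t)
  have hst : Set.range y ⊆ t := by
    rintro _ ⟨i, rfl⟩
    exact ⟨dw i, w i, hwB i, hwF i, rfl⟩
  obtain ⟨u, hsu, hut, hu⟩ := exists_isTranscendenceBasis_between (R := κ) (Set.range y) t hst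
    hyi.to_subtype_range
  have hne : ¬ u ⊆ Set.range y := by
    intro hsub
    have e1 : u = Set.range y := Set.Subset.antisymm hsub hsu
    have h1 := hu.cardinalMk_eq_trdeg
    rw [e1, Cardinal.mk_range_eq y hyi.injective, Cardinal.mk_fin] at h1
    rw [rk, ← hG, ← h1] at hn
    exact lt_irrefl _ hn
  obtain ⟨z, hzu, hzy⟩ := Set.not_subset.1 hne
  obtain ⟨d, x, hxB, hxF, hzx⟩ := hut hzu
  refine ⟨x, hxB, d, hxF, ?_⟩
  have h1 := hu.1.comp (fun o : Option (Fin n) =>
    (o.elim ⟨z, hzu⟩ (fun i => ⟨y i, hsu ⟨i, rfl⟩⟩) : u)) (by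
      intro o o' hoo
      rcases o with _ | i <;> rcases o' with _ | j
      · rfl
      · exact absurd ⟨j, (congrArg Subtype.val hoo).symm⟩ hzy
      · exact absurd ⟨i, congrArg Subtype.val hoo⟩ hzy
      · have h2 : y i = y j := congrArg Subtype.val hoo
        rw [hyi.injective h2])
  have h2 := h1.map' (f := G.val) Subtype.val_injective
  convert! h2 using 1
  ext o
  rcases o with _ | i
  · exact hzx.symm
  · rfl

namespace Filt

/-- the complement trick: injectivity -/
theorem box_injective (h : Filt F σ) (B : Subalgebra κ A) {l : ℕ} (y : Fin l → A)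
    (dy : Fin l → ℕ) (hyF : ∀ i, y i ∈ F (dy i))
    (hy : AlgebraicIndependent (grB F σ B) (fun i => σ (dy i) (y i)))
    (S : Finset (Fin l → ℕ)) (β : (Fin l → ℕ) → A) (hβ : ∀ J ∈ S, β J ∈ B)
    (h0 : ∑ J ∈ S, β J * mon y J = 0) : ∀ J ∈ S, β J = 0 := by
  classical
  by_contra hcon
  push Not at hcon
  obtain ⟨J₀, hJ₀, hne₀⟩ := hcon
  have hdeg : ∀ a : A, a ≠ 0 → ∃ n, a ∈ F n ∧ σ n a ≠ 0 := fun a ha => h.exists_deg ha
  choose! deg hdegF hdegs using hdeg
  set S' := S.filter (fun J => β J ≠ 0) with hS'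
  have hS'ne : S'.Nonempty := ⟨J₀, by rw [hS', mem_filter]; exact ⟨hJ₀, hne₀⟩⟩
  set e : (Fin l → ℕ) → ℕ := fun J => deg (β J) + ∑ i, J i * dy i with he
  obtain ⟨J₁, hJ₁, hmax⟩ := S'.exists_max_image e hS'ne
  have h0' : ∑ J ∈ S', β J * mon y J = 0 := by
    rw [← h0, hS', Finset.sum_filter_of_ne]
    intro J _ hJ hz
    rw [hz, zero_mul] at hJ
    exact hJ rfl
  have hS0 : ∀ J ∈ S', J ∈ S ∧ β J ≠ 0 := fun J hJ => by rwa [hS', mem_filter] at hJ
  have hmem : ∀ J ∈ S', β J * mon y J ∈ F (e J) := fun J hJ =>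
    h.mul _ _ _ _ (hdegF _ (hS0 J hJ).2) (h.mon_mem y dy J hyF)
  have hsym := congrArg (σ (e J₁)) h0'
  rw [h.sym_zero, h.sym_sum _ _ _ fun J hJ => h.mono (hmax J hJ) (hmem J hJ)] at hsym
  set S'' := S'.filter (fun J => e J = e J₁) with hS''
  have hsym2 : ∑ J ∈ S'', σ (deg (β J)) (β J) * ∏ i, σ (dy i) (y i) ^ J i = 0 := by
    rw [← hsym, hS'', Finset.sum_filter]
    refine Finset.sum_congr rfl fun J hJ => ?_
    by_cases hJe : e J = e J₁
    · rw [if_pos hJe, ← hJe, he]
      simp only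
      rw [h.sym_mul _ _ _ _ (hdegF _ (hS0 J hJ).2) (h.mon_mem y dy J hyF),
        h.mon_sym y dy J hyF]
    · rw [if_neg hJe]
      have := hmax J hJ
      exact (h.sym_of_lt (lt_of_le_of_ne this hJe) (hmem J hJ)).symm
  have hli := linearIndependent_monomials hy
  rw [linearIndependent_iff'] at hli
  have hB : ∀ J ∈ S'', σ (deg (β J)) (β J) ∈ grB F σ B := fun J hJ => by
    rw [hS'', mem_filter] at hJ
    exact sym_mem_grB (hβ J (hS0 J hJ.1).1) (hdegF _ (hS0 J hJ.1).2)
  set g : (Fin l → ℕ) → grB F σ B := fun J =>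
    if hJ : J ∈ S'' then ⟨σ (deg (β J)) (β J), hB J hJ⟩ else 0 with hg
  have h3 := hli S'' g (by
    rw [← hsym2]
    refine Finset.sum_congr rfl fun J hJ => ?_
    rw [hg]
    simp only [hJ, dif_pos]
    rfl)
  have hJ₁'' : J₁ ∈ S'' := by
    rw [hS'', mem_filter]
    exact ⟨hJ₁, rfl⟩
  have h4 := congrArg Subtype.val (h3 J₁ hJ₁'')
  rw [hg] at h4
  simp only [hJ₁'', dif_pos] at h4
  exact hdegs _ (hS0 J₁ hJ₁).2 h4

/-- the complement trick: dimension count -/
theorem box_finrank (h : Filt F σ) (hfin : ∀ m, FiniteDimensional κ (F m)) (B : Subalgebra κ A)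
    {l : ℕ} (y : Fin l → A) (dy : Fin l → ℕ) (hyF : ∀ i, y i ∈ F (dy i))
    (hy : AlgebraicIndependent (grB F σ B) (fun i => σ (dy i) (y i))) (m H : ℕ) :
    (H + 1) ^ l * finrank κ ↥(Subalgebra.toSubmodule B ⊓ F m) ≤
      finrank κ (F (m + H * ∑ i, dy i)) := by
  classical
  haveI := hfin m
  haveI := hfin (m + H * ∑ i, dy i)
  haveI : FiniteDimensional κ ↥(Subalgebra.toSubmodule B ⊓ F m) :=
    Submodule.finiteDimensional_of_le inf_le_right
  set V := Subalgebra.toSubmodule B ⊓ F m with hV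
  set S : Finset (Fin l → ℕ) := Fintype.piFinset fun _ => range (H + 1) with hS
  have hmem : ∀ J : S, ∀ v : V, (v : A) * mon y J ∈ F (m + H * ∑ i, dy i) := by
    intro J v
    have h1 := h.mul _ _ _ _ v.2.2 (h.mon_mem y dy J hyF)
    refine h.mono ?_ h1
    refine Nat.add_le_add_left ?_ _
    rw [Finset.mul_sum]
    refine Finset.sum_le_sum fun i _ => Nat.mul_le_mul_right _ ?_
    have hJ : ∀ j, (J : Fin l → ℕ) j ∈ range (H + 1) := Fintype.mem_piFinset.1 J.2
    have := mem_range.1 (hJ i)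
    omega
  let Φ : (S → V) →ₗ[κ] F (m + H * ∑ i, dy i) :=
    { toFun := fun f => ∑ J : S, ⟨(f J : A) * mon y J, hmem J (f J)⟩
      map_add' := fun f g => by
        rw [← Finset.sum_add_distrib]
        refine Finset.sum_congr rfl fun J _ => Subtype.ext ?_
        simp [add_mul]
      map_smul' := fun c f => by
        rw [Finset.smul_sum]
        refine Finset.sum_congr rfl fun J _ => Subtype.ext ?_
        simp }
  have hΦ : Function.Injective Φ := by
    rw [← LinearMap.ker_eq_bot, LinearMap.ker_eq_bot']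
    intro f hf
    have h1 : ∑ J : S, (f J : A) * mon y J = 0 := by
      have := congrArg Subtype.val hf
      simpa [Φ] using this
    set β : (Fin l → ℕ) → A := fun J => if hJ : J ∈ S then (f ⟨J, hJ⟩ : A) else 0 with hβ
    have h2 : ∑ J ∈ S, β J * mon y J = 0 := by
      rw [← h1, ← Finset.sum_coe_sort S]
      refine Finset.sum_congr rfl fun J _ => ?_
      rw [hβ]
      simp
    have h3 := h.box_injective B y dy hyF hy S β (fun J hJ => by
      rw [hβ]
      simp only [hJ, dif_pos]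
      exact (f ⟨J, hJ⟩).2.1) h2
    funext J
    refine Subtype.ext ?_
    have h4 := h3 J J.2
    rw [hβ] at h4
    simpa using h4
  have h1 := LinearMap.finrank_le_finrank_of_injective hΦ
  rw [Module.finrank_pi_fintype, Finset.sum_const, smul_eq_mul, Finset.card_univ,
    Fintype.card_coe, hS, Fintype.card_piFinset_const, card_range] at h1
  exact h1

/-- growth of a subalgebra -/
theorem growth_le (h : Filt F σ) (hfin : ∀ m, FiniteDimensional κ (F m))
    (halg : Algebra.IsAlgebraic (Algebra.adjoin κ (symSet F σ ⊤)) E) {r C₀ : ℕ}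
    (hr : Algebra.trdeg κ E = r) (hgr : ∀ m, finrank κ (F m) ≤ C₀ * (m + 1) ^ r)
    (B : Subalgebra κ A) {n : ℕ} (hn : rk F σ B ≤ n) :
    ∃ C, ∀ m, finrank κ ↥(Subalgebra.toSubmodule B ⊓ F m) ≤ C * (m + 1) ^ n := by
  classical
  set G := grB F σ B with hG
  haveI : Algebra.IsAlgebraic (Algebra.adjoin G (symSet F σ ⊤)) E := by
    refine ⟨fun x => ?_⟩
    have hx := halg.1 x
    have hle : ∀ z : Algebra.adjoin κ (symSet F σ ⊤), (z : E) ∈ Algebra.adjoin G (symSet F σ ⊤) := by
      intro z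
      have h1 : Algebra.adjoin κ (symSet F σ ⊤) ≤
          (Algebra.adjoin G (symSet F σ ⊤)).restrictScalars κ := by
        refine Algebra.adjoin_le fun s hs => ?_
        exact Algebra.subset_adjoin hs
      exact h1 z.2
    letI : Algebra (Algebra.adjoin κ (symSet F σ ⊤)) (Algebra.adjoin G (symSet F σ ⊤)) :=
      RingHom.toAlgebra
        { toFun := fun z => ⟨z, hle z⟩
          map_one' := rfl
          map_mul' := fun _ _ => rfl
          map_zero' := rfl
          map_add' := fun _ _ => rfl }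
    haveI : IsScalarTower (Algebra.adjoin κ (symSet F σ ⊤)) (Algebra.adjoin G (symSet F σ ⊤)) E :=
      IsScalarTower.of_algebraMap_eq fun _ => rfl
    refine hx.extendScalars (fun a b hab => Subtype.ext ?_)
    exact congrArg (fun z : Algebra.adjoin G (symSet F σ ⊤) => (z : E)) hab
  obtain ⟨t, htS, ht⟩ := exists_isTranscendenceBasis_subset (R := G) (symSet F σ ⊤)
  have hcard := ht.cardinalMk_eq_trdeg
  have hadd := trdeg_add_eq κ G (A := E)
  rw [hr, ← hcard] at hadd
  have htfin : Finite t := by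
    rw [← Cardinal.mk_lt_aleph0_iff]
    refine lt_of_le_of_lt ?_ (Cardinal.natCast_lt_aleph0 (n := r))
    rw [← hadd]
    exact self_le_add_left _ _
  haveI := Fintype.ofFinite t
  set l := Fintype.card t with hl
  let ε : Fin l ≃ t := (Fintype.equivFin t).symm
  have hsel : ∀ i : Fin l, ∃ d, ∃ b : A, b ∈ F d ∧ ((ε i : t) : E) = σ d b := by
    intro i
    obtain ⟨d, b, -, hb, hd⟩ := htS (ε i).2
    exact ⟨d, b, hb, hd⟩
  choose dy y hyF hyσ using hsel
  have hind : AlgebraicIndependent G (fun i => σ (dy i) (y i)) := by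
    have h1 := ht.1.comp ε ε.injective
    convert! h1 using 1
    ext i
    exact (hyσ i).symm
  have hrl : r ≤ n + l := by
    have h1 : (r : Cardinal) ≤ n + l := by
      rw [← hadd, Cardinal.mk_fintype]
      exact add_le_add_left hn _
    exact_mod_cast h1
  set D := ∑ i, dy i with hD
  refine ⟨C₀ * (1 + D) ^ r, fun m => ?_⟩
  have h1 := h.box_finrank hfin B y dy hyF hind m m
  have h2 := h1.trans (hgr _)
  have h3 : C₀ * (m + m * D + 1) ^ r ≤ C₀ * (1 + D) ^ r * (m + 1) ^ n * (m + 1) ^ l := by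
    have h4 : m + m * D + 1 ≤ (1 + D) * (m + 1) := by
      have : (1 + D) * (m + 1) = m + m * D + 1 + D := by ring
      omega
    calc C₀ * (m + m * D + 1) ^ r ≤ C₀ * ((1 + D) * (m + 1)) ^ r := by gcongr
      _ = C₀ * (1 + D) ^ r * (m + 1) ^ r := by rw [mul_pow]; ring
      _ ≤ C₀ * (1 + D) ^ r * (m + 1) ^ (n + l) := by gcongr; omega
      _ = _ := by rw [pow_add]; ring
  have h5 := h2.trans h3
  have h6 : 0 < (m + 1) ^ l := by positivity
  have h7 : (m + 1) ^ l * finrank κ ↥(Subalgebra.toSubmodule B ⊓ F m) ≤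
      (m + 1) ^ l * (C₀ * (1 + D) ^ r * (m + 1) ^ n) := by
    rw [mul_comm ((m + 1) ^ l) (C₀ * (1 + D) ^ r * (m + 1) ^ n)]
    exact h5
  exact Nat.le_of_mul_le_mul_left h7 h6

end Filt

end FD29
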